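import Pool.Agent.Work.MP_936a99_pt.Interface

/-!
# BIGT: approximate subgroups of `SL_m(F_p)` are small or large
-/

namespace Pool.Agent.Work.MP_936a99_pt

open Matrix Pointwise

namespace BIGT

theorem pow_mono {G : Type} [Group G] {A : Set G} (h1 : (1 : G) ∈ A) {a b : ℕ} (h : a ≤ b) :
    A ^ a ⊆ A ^ b :=
  Set.pow_subset_pow_right h1 h

theorem ncard_pow_mono {G : Type} [Group G] [Finite G] {A : Set G} (h1 : (1 : G) ∈ A) {a b : ℕ}
    (h : a ≤ b) : (A ^ a).ncard ≤ (A ^ b).ncard :=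
  Set.ncard_le_ncard (pow_mono h1 h) (Set.toFinite _)

theorem sum_le {G : Type} [Group G] [Finite G] (P : G → G → Prop) (B : Set G) (t : ℕ)
    (hB : ∀ g z, P g z → z ∈ B) (ht : ∀ z, {g : G | P g z}.ncard ≤ t) (n : ℕ)
    (hn : ∀ g, n ≤ {z : G | P g z}.ncard) : Nat.card G * n ≤ B.ncard * t := by
  classical
  have : Fintype G := Fintype.ofFinite G
  have h1 : ∀ g, {z : G | P g z}.ncard = ∑ z : G, if P g z then 1 else 0 := by
    intro g
    rw [Set.ncard_eq_toFinset_card' , Finset.sum_boole]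
    simp
  have h2 : ∀ z, {g : G | P g z}.ncard = ∑ g : G, if P g z then 1 else 0 := by
    intro g
    rw [Set.ncard_eq_toFinset_card' , Finset.sum_boole]
    simp
  calc Nat.card G * n = ∑ g : G, n := by simp [Nat.card_eq_fintype_card]
    _ ≤ ∑ g : G, ∑ z : G, (if P g z then 1 else 0) := by
        apply Finset.sum_le_sum
        intro g _
        rw [← h1]
        exact hn g
    _ = ∑ z : G, ∑ g : G, (if P g z then 1 else 0) := Finset.sum_comm
    _ = ∑ z ∈ B.toFinset, ∑ g : G, (if P g z then 1 else 0) := by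
        symm
        apply Finset.sum_subset (Finset.subset_univ _)
        intro z _ hz
        apply Finset.sum_eq_zero
        intro g _
        rw [if_neg]
        intro h
        exact hz (by simpa using hB g z h)
    _ ≤ ∑ z ∈ B.toFinset, t := by
        apply Finset.sum_le_sum
        intro z _
        rw [← h2]
        exact ht z
    _ = B.ncard * t := by
        rw [Finset.sum_const, smul_eq_mul, Set.ncard_eq_toFinset_card']

theorem regM_mono {ι F : Type} [Fintype ι] [DecidableEq ι] [Field F] {M N : ℕ} {B : Matrix ι ι F}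
    (h : M ≤ N) (hB : RegM N B) : RegM M B := by
  obtain ⟨Q, μ, h1, h2⟩ := hB
  exact ⟨Q, μ, h1, fun i j hij s hs hsM => h2 i j hij s hs (hsM.trans h)⟩

theorem numer {a G n t M m K C2 e P C1 : ℕ} (ha : 1 ≤ a) (hK : 1 ≤ K)
    (h1 : a ≤ C2 * K ^ C2 * t ^ (e + 1)) (h2 : t ≤ M * n)
    (h3 : G * n ≤ K * a * (m.factorial * (2 * m * P ^ (m - 1)))) :
    G ^ (e + 1) ≤
      (C1 + C2 * (M * m.factorial * (2 * m)) ^ (e + 1) + C2 + e + 1) *
        K ^ (C1 + C2 * (M * m.factorial * (2 * m)) ^ (e + 1) + C2 + e + 1) *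
        P ^ ((m - 1) * (e + 1)) * a ^ e := by
  have key : a * G ^ (e + 1) ≤ a * (C2 * (M * m.factorial * (2 * m)) ^ (e + 1) *
      K ^ (C2 + e + 1) * P ^ ((m - 1) * (e + 1)) * a ^ e) := by
    calc a * G ^ (e + 1) ≤ (C2 * K ^ C2 * (M * n) ^ (e + 1)) * G ^ (e + 1) := by
          gcongr
          exact h1.trans (by gcongr)
      _ = C2 * K ^ C2 * (M * (G * n)) ^ (e + 1) := by
          rw [mul_assoc, ← mul_pow]
          congr 2
          ring
      _ ≤ C2 * K ^ C2 * (M * (K * a * (m.factorial * (2 * m * P ^ (m - 1))))) ^ (e + 1) := by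
          gcongr
      _ = a * (C2 * (M * m.factorial * (2 * m)) ^ (e + 1) *
      K ^ (C2 + e + 1) * P ^ ((m - 1) * (e + 1)) * a ^ e) := by
          rw [pow_mul P (m - 1) (e + 1)]
          generalize P ^ (m - 1) = R
          generalize m.factorial = f
          have : M * (K * a * (f * (2 * m * R))) = (M * f * (2 * m)) * (K * (a * R)) := by ring
          rw [this, mul_pow, mul_pow K, mul_pow a, pow_succ a e,
            show C2 + e + 1 = C2 + (e + 1) by ring, pow_add K C2]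
          ring
  have key2 := Nat.le_of_mul_le_mul_left key ha
  refine key2.trans ?_
  gcongr ?_ * ?_ * _ * _
  · omega
  · exact Nat.pow_le_pow_right hK (by omega)

end BIGT

open BIGT in
theorem bigt (h1 : Stmt_INV) (h2 : Stmt_CLS) (h3 : Stmt_SHF) (h4 : Stmt_FIB2) (h5 : Stmt_TSZ)
    (h6 : Stmt_TCO) (h7 : Stmt_RCJ) : Stmt_BIGT := by
  intro ι _ _ hι
  obtain ⟨n1, C1, P1, hinv⟩ := h1 ι hι
  obtain ⟨n2, e, C2, hcls⟩ := h2 ι hι 2
  set m := Fintype.card ι with hm
  set M := m ^ 2 with hM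
  refine ⟨n1 + n2 + (2 * M + 2), e,
    C1 + C2 * (M * m.factorial * (2 * m)) ^ (e + 1) + C2 + e + 1, P1 + 5, ?_⟩
  intro p _ A K hp hA hAK
  have hM1 : 1 ≤ M := Nat.one_le_pow _ _ (by omega)
  have ha : 1 ≤ A.ncard := (Set.ncard_pos (Set.toFinite _)).2 ⟨1, hA.one⟩
  have hK : 1 ≤ K := by
    have h8 : (A ^ 1).ncard ≤ (A ^ (n1 + n2 + (2 * M + 2))).ncard :=
      ncard_pow_mono hA.one (by omega)
    rw [pow_one] at h8
    have h9 := h8.trans hAK
    by_contra hcon
    have : K = 0 := by omega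
    subst this
    omega
  have hA1 : (A ^ n1).ncard ≤ K * A.ncard :=
    (ncard_pow_mono hA.one (by omega)).trans hAK
  have hA2 : (A ^ n2).ncard ≤ K * A.ncard :=
    (ncard_pow_mono hA.one (by omega)).trans hAK
  have hA3 : (A ^ (2 * M + 2)).ncard ≤ K * A.ncard :=
    (ncard_pow_mono hA.one (by omega)).trans hAK
  rcases hinv p A K (by omega) hA hA1 with hsmall | ⟨b, hb, hall⟩
  · left
    refine hsmall.trans (Nat.mul_le_mul (by omega) (Nat.pow_le_pow_right hK (by omega)))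
  right
  choose y hy2 hyc hyr using hall
  have hb1 : RegM 1 (gm b.1) := regM_mono hM1 hb
  have hyr1 : ∀ g, RegM 1 (gm (y g).1) := fun g => regM_mono hM1 (hyr g)
  have hgr : ∀ g, RegM 1 (gm (g * b * g⁻¹).1) := fun g => h7 ι p 1 b g hb1
  have htco : ∀ g x, Commute (g * b * g⁻¹) x ↔ Commute (y g) x := fun g x =>
    h6 ι p (g * b * g⁻¹) (y g) (hgr g) (hyr1 g) (hyc g) x
  set T : SLI ι p → Set (SLI ι p) := fun g => {x | x ∈ A ^ 2 ∧ Commute (y g) x} with hT
  set Z : SLI ι p → Set (SLI ι p) := fun g =>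
    {z | (z ∈ A ^ (2 * M + 2) ∧ RegM 1 (gm z.1)) ∧ Commute (g * b * g⁻¹) z} with hZ
  have hclsg : ∀ g, A.ncard ≤ C2 * K ^ C2 * (T g).ncard ^ (e + 1) := fun g =>
    hcls p A K (y g) (by omega) hA hA2 (hy2 g)
  have hTZ : ∀ g, (T g).ncard ≤ M * (Z g).ncard := by
    intro g
    have hs : ∀ x : SLI ι p, x ∈ T g → ∃ s, (1 ≤ s ∧ s ≤ M) ∧ RegM 1 (gm (y g ^ s * x).1) := by
      intro x hx
      obtain ⟨s, hs1, hs2, hs3⟩ := h3 ι p (y g) x hι (hyr g) hx.2
      exact ⟨s, ⟨hs1, hs2⟩, hs3⟩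
    choose! s hs1 hs2 using hs
    have : (T g).ncard ≤ ((Set.Icc 1 M) ×ˢ (Z g)).ncard := by
      apply Set.ncard_le_ncard_of_injOn (fun x => (s x, y g ^ s x * x))
      · intro x hx
        refine ⟨⟨(hs1 x hx).1, (hs1 x hx).2⟩, ⟨?_, hs2 x hx⟩, ?_⟩
        · have h8 : y g ^ s x ∈ (A ^ 2) ^ s x := Set.pow_mem_pow (hy2 g)
          have h9 : y g ^ s x * x ∈ (A ^ 2) ^ s x * A ^ 2 := Set.mul_mem_mul h8 hx.1
          rw [← pow_mul, ← pow_add] at h9
          exact pow_mono hA.one (by have := (hs1 x hx).2; omega) h9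
        · exact ((hyc g).pow_right _).mul_right ((htco g x).2 hx.2)
      · intro x hx x' hx' hxx
        simp only [Prod.mk.injEq] at hxx
        obtain ⟨hh1, hh2⟩ := hxx
        rw [hh1] at hh2
        exact mul_left_cancel hh2
    rw [Set.ncard_prod] at this
    refine this.trans (le_of_eq ?_)
    congr 1
    rw [Set.ncard_eq_toFinset_card']
    simp
  obtain ⟨g0, hg0⟩ := Finite.exists_min (fun g => (Z g).ncard)
  have hsum : Nat.card (SLI ι p) * (Z g0).ncard ≤
      (A ^ (2 * M + 2)).ncard * (m.factorial * (2 * m * p ^ (m - 1))) := by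
    apply sum_le (fun g z => (z ∈ A ^ (2 * M + 2) ∧ RegM 1 (gm z.1)) ∧ Commute (g * b * g⁻¹) z)
    · intro g z h
      exact h.1.1
    · intro z
      by_cases hz : RegM 1 (gm z.1)
      · refine le_trans (Set.ncard_le_ncard (t := {g : SLI ι p | Commute (g * b * g⁻¹) z}) ?_
          (Set.toFinite _)) ((h4 ι p b z hb1 hz).trans ?_)
        · intro g hg
          exact hg.2
        · exact Nat.mul_le_mul_left _ (h5 ι p b hι hb1)
      · have : {g : SLI ι p | (z ∈ A ^ (2 * M + 2) ∧ RegM 1 (gm z.1)) ∧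
            Commute (g * b * g⁻¹) z} = ∅ := by
          ext g
          simp [hz]
        rw [this]
        simp
    · intro g
      exact hg0 g
  exact numer ha hK (hclsg g0) (hTZ g0) (hsum.trans (Nat.mul_le_mul_right _ hA3))

end Pool.Agent.Work.MP_936a99_pt
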