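import Pool.Agent.Work.MP_936a99_pt.Interface

/-!
# Block CLS (helper12): centralisers of short elements contain many short elements
-/

namespace Pool.Agent.Work.MP_936a99_pt

open Matrix Pointwise

namespace CLS

/-- orbit-stabiliser for a set of elements -/
theorem ncard_le_conj {G : Type} [Group G] [Finite G] (A : Set G) (hinv : ∀ a ∈ A, a⁻¹ ∈ A)
    (b : G) :
    A.ncard ≤ {z : G | ∃ g ∈ A, z = g * b * g⁻¹}.ncard * {x : G | x ∈ A ^ 2 ∧ Commute b x}.ncard := by
  classical
  have := Fintype.ofFinite G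
  set Y : Finset G := Finset.univ.filter (fun z => ∃ g ∈ A, z = g * b * g⁻¹) with hY
  set S : Finset G := Finset.univ.filter (fun x => x ∈ A ^ 2 ∧ Commute b x) with hS
  set F : Finset G := Finset.univ.filter (fun x => x ∈ A) with hF
  have e1 : A.ncard = F.card := by
    rw [← Set.ncard_coe_finset]
    congr 1
    ext x
    simp [hF]
  have e2 : {z : G | ∃ g ∈ A, z = g * b * g⁻¹}.ncard = Y.card := by
    rw [← Set.ncard_coe_finset]
    congr 1
    ext x
    simp [hY]
  have e3 : {x : G | x ∈ A ^ 2 ∧ Commute b x}.ncard = S.card := by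
    rw [← Set.ncard_coe_finset]
    congr 1
    ext x
    simp [hS]
  rw [e1, e2, e3, mul_comm]
  refine Finset.card_le_mul_card_image_of_maps_to (f := fun g => g * b * g⁻¹) ?_ S.card ?_
  · intro g hg
    simp only [hF, Finset.mem_filter, Finset.mem_univ, true_and] at hg
    simp only [hY, Finset.mem_filter, Finset.mem_univ, true_and]
    exact ⟨g, hg, rfl⟩
  · intro z hz
    by_cases hne : (F.filter (fun g => g * b * g⁻¹ = z)).Nonempty
    · obtain ⟨g0, hg0⟩ := hne
      rw [Finset.mem_filter] at hg0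
      have hg0A : g0 ∈ A := by simpa [hF] using hg0.1
      refine Finset.card_le_card_of_injOn (fun g => g0⁻¹ * g) ?_ ?_
      · intro g hg
        rw [Finset.mem_coe, Finset.mem_filter] at hg
        have hgA : g ∈ A := by simpa [hF] using hg.1
        simp only [hS, Finset.coe_filter, Finset.mem_univ, true_and, Set.mem_ofPred_eq]
        refine ⟨?_, ?_⟩
        · rw [pow_two]
          exact Set.mul_mem_mul (hinv _ hg0A) hgA
        · have h1 : g * b * g⁻¹ = g0 * b * g0⁻¹ := hg.2.trans hg0.2.symm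
          have h2 : g * b = g0 * b * g0⁻¹ * g := by
            rw [← h1]; group
          change b * (g0⁻¹ * g) = g0⁻¹ * g * b
          rw [mul_assoc, h2]
          group
      · intro x _ y _ hxy
        exact mul_left_cancel hxy
    · rw [Finset.not_nonempty_iff_eq_empty] at hne
      rw [hne]
      simp

end CLS

theorem cls (hWLS : Stmt_WLS) (hCTR : Stmt_CTR) : Stmt_CLS := by
  intro ι _ _ hι k
  obtain ⟨n0, e, C, h⟩ := hWLS ι 1 (k + 2)
  refine ⟨n0, e, C, ?_⟩
  intro p _ A K b hp hA hK hb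
  obtain ⟨P, hP1, hP2, hP3⟩ := hCTR ι hι p (gm b.1).trace
  have hW := h p P A K hp hP1 hP2 hA hK
  have hcj := CLS.ncard_le_conj A hA.inv b
  set Y : Set (SLI ι p) := {z | ∃ g ∈ A, z = g * b * g⁻¹} with hY
  set S : Set (SLI ι p) := {x | x ∈ A ^ 2 ∧ Commute b x} with hS
  have hYsub : Y ⊆ {x : SLI ι p | x ∈ A ^ (k + 2) ∧ ev P (gm x.1) = 0} := by
    rintro z ⟨g, hg, rfl⟩
    refine ⟨?_, ?_⟩
    · have h1 : A ^ (k + 2) = A * A ^ k * A := by
        rw [pow_succ, pow_succ']
      rw [h1]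
      exact Set.mul_mem_mul (Set.mul_mem_mul hg hb) (hA.inv _ hg)
    · apply hP3
      have h2 : gm (g * b * g⁻¹ : SLI ι p).1 = gm g.1 * gm b.1 * gm (g⁻¹ : SLI ι p).1 := by
        unfold gm
        rw [Matrix.SpecialLinearGroup.coe_mul, Matrix.SpecialLinearGroup.coe_mul,
          Matrix.map_mul, Matrix.map_mul]
      have h3 : gm (g⁻¹ : SLI ι p).1 * gm g.1 = 1 := by
        unfold gm
        rw [← Matrix.map_mul, ← Matrix.SpecialLinearGroup.coe_mul, inv_mul_cancel,
          Matrix.SpecialLinearGroup.coe_one]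
        exact Matrix.map_one _ (map_zero _) (map_one _)
      rw [h2, Matrix.trace_mul_comm, ← Matrix.mul_assoc, h3, Matrix.one_mul]
  have hYle : Y.ncard ≤ {x : SLI ι p | x ∈ A ^ (k + 2) ∧ ev P (gm x.1) = 0}.ncard :=
    Set.ncard_le_ncard hYsub (Set.toFinite _)
  have hA0 : 0 < A.ncard := by
    rw [Set.ncard_pos (Set.toFinite _)]
    exact ⟨1, hA.one⟩
  have h4 : A.ncard ^ (e + 1) ≤ (Y.ncard * S.ncard) ^ (e + 1) := Nat.pow_le_pow_left hcj _
  have h5 : Y.ncard ^ (e + 1) ≤ C * K ^ C * A.ncard ^ e := (Nat.pow_le_pow_left hYle _).trans hW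
  have h6 : A.ncard ^ e * A.ncard ≤ A.ncard ^ e * (C * K ^ C * S.ncard ^ (e + 1)) := by
    calc A.ncard ^ e * A.ncard = A.ncard ^ (e + 1) := (pow_succ _ _).symm
      _ ≤ (Y.ncard * S.ncard) ^ (e + 1) := h4
      _ = Y.ncard ^ (e + 1) * S.ncard ^ (e + 1) := mul_pow _ _ _
      _ ≤ C * K ^ C * A.ncard ^ e * S.ncard ^ (e + 1) := Nat.mul_le_mul_right _ h5
      _ = A.ncard ^ e * (C * K ^ C * S.ncard ^ (e + 1)) := by ring
  exact Nat.le_of_mul_le_mul_left h6 (pow_pos hA0 e)

end Pool.Agent.Work.MP_936a99_pt
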