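import Pool.Agent.Work.MP_936a99_pt.Interface

/-! # CREG (helper83): a polynomial certificate of bounded degree for regularity -/

namespace Pool.Agent.Work.MP_936a99_pt

open Matrix

namespace CREG

variable {ι : Type} [Fintype ι] [DecidableEq ι]

theorem trf_map {R S : Type} [CommRing R] [CommRing S] (φ : R →+* S) (s : ℕ)
    (B : Matrix ι ι R) : φ (trf s B) = trf s (B.map φ) := by
  unfold trf
  rw [RingHom.map_det]
  congr 1
  ext a b
  have h : (B.map φ) ^ (s * (a.val + b.val)) = (B ^ (s * (a.val + b.val))).map φ := by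
    have := map_pow φ.mapMatrix B (s * (a.val + b.val))
    simpa [RingHom.mapMatrix_apply] using this.symm
  simp only [RingHom.mapMatrix_apply, Matrix.map_apply, Matrix.of_apply]
  rw [h]
  simp [Matrix.trace, map_sum]

/-- the generic matrix -/
noncomputable def gen (R : Type) [CommRing R] : Matrix ι ι (MvPolynomial (ι × ι) R) :=
  Matrix.of fun i j => MvPolynomial.X (i, j)

omit [Fintype ι] [DecidableEq ι] in
theorem gen_map {R S : Type} [CommRing R] [CommRing S] (f : R →+* S) (B : Matrix ι ι S) :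
    (gen (ι := ι) R).map (MvPolynomial.eval₂Hom f (fun x : ι × ι => B x.1 x.2)) = B := by
  ext i j
  simp [gen]

omit [Fintype ι] [DecidableEq ι] in
theorem ev_map {R S : Type} [CommRing R] [CommRing S] (f : R →+* S)
    (P : MvPolynomial (ι × ι) R) (B : Matrix ι ι S) :
    ev (MvPolynomial.map f P) B =
      MvPolynomial.eval₂Hom f (fun x : ι × ι => B x.1 x.2) P := by
  unfold ev
  rw [MvPolynomial.eval_map]
  rfl

theorem ev_trf {R S : Type} [CommRing R] [CommRing S] (f : R →+* S) (s : ℕ)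
    (B : Matrix ι ι S) :
    ev (MvPolynomial.map f (trf s (gen (ι := ι) R))) B = trf s B := by
  rw [ev_map, trf_map, gen_map]

omit [Fintype ι] [DecidableEq ι] in
theorem td_map {R S : Type} [CommRing R] [CommRing S] (f : R →+* S)
    (P : MvPolynomial (ι × ι) R) : (MvPolynomial.map f P).totalDegree ≤ P.totalDegree := by
  unfold MvPolynomial.totalDegree
  exact Finset.sup_mono (MvPolynomial.support_map_subset _ _)

theorem wit_ne (hw : Stmt_TRFB) {p : ℕ} [Fact p.Prime] (M : ℕ) (μ : ι → ZMod p)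
    (hμ : ∀ i j, i ≠ j → ∀ s, 1 ≤ s → s ≤ M → μ i ^ s ≠ μ j ^ s) (s : ℕ) (h1 : 1 ≤ s)
    (h2 : s ≤ M) : trf s (gm (Matrix.diagonal μ)) ≠ 0 := by
  have hD : Dg (gm (Matrix.diagonal μ)) (1 : Matrix.GeneralLinearGroup ι (Kb p))
      (fun i => algebraMap (ZMod p) (Kb p) (μ i)) := by
    unfold Dg gm
    rw [Matrix.diagonal_map (map_zero _)]
    simp
  rw [hw ι (Kb p) s _ _ _ hD]
  intro i j hij h
  apply hμ i j hij s h1 h2
  have h' : algebraMap (ZMod p) (Kb p) (μ i ^ s) = algebraMap (ZMod p) (Kb p) (μ j ^ s) := by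
    rw [map_pow, map_pow]; exact h
  exact (algebraMap (ZMod p) (Kb p)).injective h'

end CREG

theorem creg (hw : Stmt_WIT) (ha : Stmt_TRFA) (hb : Stmt_TRFB) : Stmt_CREG := by
  intro ι _ _ M
  obtain ⟨P0, hP0⟩ := hw ι (M + 1)
  refine ⟨(∏ s ∈ Finset.range (M + 1), trf (s + 1) (CREG.gen (ι := ι) ℤ)).totalDegree, P0, ?_⟩
  intro p _ hp
  obtain ⟨μ, hμ1, hμ2⟩ := hP0 p hp
  refine ⟨MvPolynomial.map (Int.castRingHom (Kb p))
    (∏ s ∈ Finset.range (M + 1), trf (s + 1) (CREG.gen (ι := ι) ℤ)),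
    CREG.td_map _ _, ?_, ?_⟩
  · refine ⟨⟨Matrix.diagonal μ, by rw [Matrix.det_diagonal]; exact hμ1⟩, ?_⟩
    rw [CREG.ev_map, map_prod, Finset.prod_ne_zero_iff]
    intro s hs
    rw [← CREG.ev_map, CREG.ev_trf]
    have hs' : s < M + 1 := Finset.mem_range.mp hs
    exact CREG.wit_ne hb (M + 1) μ hμ2 (s + 1) (by omega) (by omega)
  · intro B hB
    rw [CREG.ev_map, map_prod, Finset.prod_ne_zero_iff] at hB
    have hB' : ∀ s < M + 1, trf (s + 1) B ≠ 0 := by
      intro s hs
      have := hB s (Finset.mem_range.mpr hs)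
      rwa [← CREG.ev_map, CREG.ev_trf] at this
    obtain ⟨Q, ν, hD⟩ := ha ι (Kb p) B (hB' 0 (by omega))
    refine ⟨Q, ν, hD, ?_⟩
    intro i j hij s h1 h2
    have := hB' (s - 1) (by omega)
    rw [show s - 1 + 1 = s by omega, hb ι (Kb p) s B Q ν hD] at this
    exact this i j hij

end Pool.Agent.Work.MP_936a99_pt
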