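import Pool.Agent.Work.MP_936a99_pt.Interface

/-!
# CTR: the trace is not constant on `SL_m(F_p)`
-/

namespace Pool.Agent.Work.MP_936a99_pt

open Matrix

namespace CTR

variable {ι : Type} [Fintype ι] [DecidableEq ι]

/-- the polynomial `trace - t` -/
noncomputable def tp {F : Type} [CommRing F] (t : F) : MvPolynomial (ι × ι) F :=
  ∑ i, MvPolynomial.X (i, i) - MvPolynomial.C t

theorem ev_tp {F : Type} [CommRing F] (t : F) (B : Matrix ι ι F) :
    ev (tp t) B = B.trace - t := by
  unfold ev tp
  rw [map_sub, MvPolynomial.eval_C, map_sum]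
  congr 1
  unfold Matrix.trace
  refine Finset.sum_congr rfl fun i _ => ?_
  rw [MvPolynomial.eval_X]
  rfl

theorem deg_tp {F : Type} [CommRing F] [Nontrivial F] (t : F) :
    (tp (ι := ι) t).totalDegree ≤ 1 := by
  unfold tp
  refine le_trans (MvPolynomial.totalDegree_sub _ _) (max_le ?_ ?_)
  · refine le_trans (MvPolynomial.totalDegree_finset_sum _ _) ?_
    refine Finset.sup_le fun i _ => ?_
    rw [MvPolynomial.totalDegree_X]
  · rw [MvPolynomial.totalDegree_C]; exact Nat.zero_le _

/-- an element with trace `m + 1` -/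
def g1 (p : ℕ) (i j : ι) (h : i ≠ j) : SLI ι p :=
  ⟨transvection i j 1 * transvection j i 1, by
    rw [det_mul, det_transvection_of_ne i j h, det_transvection_of_ne j i h.symm, one_mul]⟩

theorem trace_g1 (p : ℕ) (i j : ι) (h : i ≠ j) :
    (g1 p i j h).1.trace = (1 : Matrix ι ι (ZMod p)).trace + 1 := by
  show (transvection i j (1 : ZMod p) * transvection j i 1).trace = _
  unfold transvection
  rw [add_mul, mul_add, mul_add, one_mul, one_mul, mul_one, single_mul_single_same, trace_add,
    trace_add, trace_add, trace_single_eq_of_ne j i _ h.symm, trace_single_eq_of_ne i j _ h,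
    trace_single_eq_same, mul_one, add_zero, zero_add]

theorem trace_gm {p : ℕ} [Fact p.Prime] (B : Matrix ι ι (ZMod p)) :
    (gm B).trace = algebraMap (ZMod p) (Kb p) B.trace := by
  unfold gm
  exact (AddMonoidHom.map_trace (algebraMap (ZMod p) (Kb p)) B).symm

end CTR

/-- the trace is not constant -/
theorem ctr : Stmt_CTR := by
  intro ι _ _ hc p _ t
  refine ⟨CTR.tp t, CTR.deg_tp t, ?_, ?_⟩
  · obtain ⟨i, j, hij⟩ := Fintype.exists_pair_of_one_lt_card (lt_of_lt_of_le one_lt_two hc)
    by_contra hcon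
    push Not at hcon
    have h1 := hcon 1
    have h2 := hcon (CTR.g1 p i j hij)
    rw [CTR.ev_tp, CTR.trace_gm] at h1 h2
    rw [CTR.trace_g1, map_add, map_one] at h2
    have h3 : ((1 : SLI ι p) : Matrix ι ι (ZMod p)) = 1 := rfl
    have h1' : algebraMap (ZMod p) (Kb p) (1 : Matrix ι ι (ZMod p)).trace - t = 0 := h1
    have : (1 : Kb p) = 0 := by
      linear_combination h2 - h1'
    exact one_ne_zero this
  · intro B hB
    rw [CTR.ev_tp, hB, sub_self]

end Pool.Agent.Work.MP_936a99_pt
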