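import Pool.Agent.Work.MP_936a99_pt.Interface

/-!
# Block FD (helper12): Babai's bound for `SL_m(F_p)`, `m` fixed
-/

namespace Pool.Agent.Work.MP_936a99_pt

open Matrix Pointwise Pool.Agent.Work.MP_936a99_al_h7

namespace FD

theorem reach_pow {G : Type} [Group G] {B : Set G} (L : ℕ) :
    ∀ g ∈ ({x : G | Reach B 1 x} : Set G) ^ L, Reach B L g := by
  induction L with
  | zero =>
    intro g hg
    rw [pow_zero, Set.mem_one] at hg
    rw [hg]
    exact reach_one B
  | succ L ih =>
    intro g hg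
    rw [pow_succ] at hg
    obtain ⟨a, ha, b, hb, rfl⟩ := hg
    exact (ih a ha).mul hb

theorem symGen {G : Type} [Group G] {B : Set G} (hB : Subgroup.closure B = ⊤) :
    SymGen ({x : G | Reach B 1 x} : Set G) := by
  refine ⟨(reach_one B).mono (Nat.zero_le 1), fun a ha => Reach.inv ha, ?_⟩
  rw [eq_top_iff, ← hB]
  apply Subgroup.closure_mono
  intro b hb
  exact ⟨[b], by simp, by simpa using Or.inl hb, by simp⟩

end FD

theorem fd (hPROD : Stmt_PROD) (hITER : Stmt_ITER) : Stmt_FD := by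
  intro m
  rcases Nat.lt_or_ge m 2 with hm | hm
  · refine ⟨0, ?_⟩
    intro p _ B hB g
    refine ⟨0, ?_, by simp⟩
    have h1 : Subsingleton (SLI (Fin m) p) := by
      interval_cases m
      · constructor
        intro a b
        apply Subtype.ext
        ext i j
        exact i.elim0
      · constructor
        intro a b
        apply Subtype.ext
        ext i j
        have ha := a.2
        have hb := b.2
        rw [Matrix.det_fin_one] at ha hb
        have hi : i = 0 := Subsingleton.elim _ _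
        have hj : j = 0 := Subsingleton.elim _ _
        rw [hi, hj, ha, hb]
    rw [Subsingleton.elim g 1]
    exact reach_one B
  · obtain ⟨n0, C, P0, hP⟩ := hPROD (Fin m) (by simpa using hm)
    obtain ⟨c, hc⟩ := hITER n0 C
    refine ⟨max c (8 * P0 ^ (m ^ 2)), ?_⟩
    intro p hp B hB g
    have hcard : 3 ≤ Nat.card (SLI (Fin m) p) := by
      have h1 := pow_le_card (n := m) (p := p) hm
      have h2 : 2 ^ 2 ≤ 2 ^ m := Nat.pow_le_pow_right (by norm_num) hm
      have h3 : 2 ^ m ≤ Nat.card (SLI (Fin m) p) + 1 := h1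
      omega
    have hlog3 : Real.log 3 ≤ Real.log (Nat.card (SLI (Fin m) p)) := by
      apply Real.log_le_log (by norm_num)
      exact_mod_cast hcard
    have h13 : (1 : ℝ) ≤ Real.log 3 := by
      by_contra hcon
      push Not at hcon
      have h0 : (0 : ℝ) ≤ Real.log 3 := Real.log_nonneg (by norm_num)
      have h4 := log_three_pow
      have h5 : Real.log 3 ^ 8 ≤ 1 := pow_le_one₀ h0 hcon.le
      linarith
    have hlog1 : (1 : ℝ) ≤ Real.log (Nat.card (SLI (Fin m) p)) := h13.trans hlog3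
    rcases Nat.lt_or_ge P0 p with hpP | hpP
    · obtain ⟨L, hL1, hL2⟩ := hc (SLI (Fin m) p) hcard (fun A K hA hK => hP p A K hpP hA hK)
        _ (FD.symGen hB)
      refine ⟨L, FD.reach_pow L g (by rw [hL1]; exact Set.mem_univ _), hL2.trans ?_⟩
      exact pow_le_pow_right₀ hlog1 (le_max_left _ _)
    · refine ⟨Nat.card (SLI (Fin m) p), reach_card hB g, ?_⟩
      have h1 : Nat.card (SLI (Fin m) p) ≤ p ^ (m ^ 2) := card_le_pow (n := m) (p := p)
      have h2 : Nat.card (SLI (Fin m) p) ≤ P0 ^ (m ^ 2) :=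
        h1.trans (Nat.pow_le_pow_left hpP _)
      have h3 : Nat.card (SLI (Fin m) p) ≤ 2 ^ (P0 ^ (m ^ 2)) :=
        h2.trans (Nat.lt_two_pow_self).le
      calc ((Nat.card (SLI (Fin m) p) : ℕ) : ℝ) ≤ ((2 ^ (P0 ^ (m ^ 2)) : ℕ) : ℝ) := by
            exact_mod_cast h3
        _ = (2 : ℝ) ^ (P0 ^ (m ^ 2)) := by push_cast; rfl
        _ ≤ (Real.log 3 ^ 8) ^ (P0 ^ (m ^ 2)) := pow_le_pow_left₀ (by norm_num) log_three_pow _
        _ = Real.log 3 ^ (8 * P0 ^ (m ^ 2)) := by rw [pow_mul]
        _ ≤ Real.log (Nat.card (SLI (Fin m) p)) ^ (8 * P0 ^ (m ^ 2)) :=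
            pow_le_pow_left₀ (by linarith) hlog3 _
        _ ≤ Real.log (Nat.card (SLI (Fin m) p)) ^ max c (8 * P0 ^ (m ^ 2)) :=
            pow_le_pow_right₀ hlog1 (le_max_right _ _)

end Pool.Agent.Work.MP_936a99_pt
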