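import Pool.Agent.Work.MP_936a99_pt.Interface

/-!
# FIB: fibres of the map sending g, y to the conjugate of y by g (helper94)
-/

namespace Pool.Agent.Work.MP_936a99_pt

open Matrix Pointwise

namespace FIB

theorem quot_comm {G : Type} [Group G] {g g0 y : G} (h : g * y * g⁻¹ = g0 * y * g0⁻¹) :
    Commute y (g0⁻¹ * g) := by
  show y * (g0⁻¹ * g) = g0⁻¹ * g * y
  calc y * (g0⁻¹ * g) = g0⁻¹ * (g0 * y * g0⁻¹) * g := by group
    _ = g0⁻¹ * (g * y * g⁻¹) * g := by rw [h]
    _ = g0⁻¹ * g * y := by group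

theorem solve {G : Type} [Group G] {g y z : G} (h : g * y * g⁻¹ = z) :
    y = g⁻¹ * z * (g⁻¹)⁻¹ := by
  rw [← h]
  group

end FIB

/-- FIB: fibres of the map sending g, y to the conjugate of y by g. -/
theorem fib (h1 : Stmt_TCO) (h2 : Stmt_TCJ) : Stmt_FIB := by
  classical
  intro ι _ _ p _ b A Y hb hA hY
  set X : Set (SLI ι p) := {x : SLI ι p | x ∈ A ^ 2 ∧ Commute b x} with hX
  set Z : Set (SLI ι p) := {z : SLI ι p | ∃ g ∈ A, ∃ y ∈ Y, z = g * y * g⁻¹} with hZ
  have hAf : A.Finite := Set.toFinite _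
  have hYf : Y.Finite := Set.toFinite _
  have hXf : X.Finite := Set.toFinite _
  have hZf : Z.Finite := Set.toFinite _
  set P : Finset (SLI ι p × SLI ι p) := hAf.toFinset ×ˢ hYf.toFinset with hP
  have hPmem : ∀ q ∈ P, q.1 ∈ A ∧ q.2 ∈ Y := by
    intro q hq
    have := Finset.mem_product.1 hq
    exact ⟨hAf.mem_toFinset.1 this.1, hYf.mem_toFinset.1 this.2⟩
  -- the fibre over `z`
  have hfib : ∀ z ∈ P.image (fun q => q.1 * q.2 * q.1⁻¹),
      (P.filter (fun q => q.1 * q.2 * q.1⁻¹ = z)).card ≤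
        (Fintype.card ι).factorial * X.ncard := by
    intro z _
    set F := P.filter (fun q => q.1 * q.2 * q.1⁻¹ = z) with hF
    have hYz : (F.image Prod.snd).card ≤ (Fintype.card ι).factorial := by
      refine le_trans ?_ (h2 ι p b z hb)
      have hfin : {y' : SLI ι p | Commute b y' ∧ ∃ h : SLI ι p, y' = h * z * h⁻¹}.Finite :=
        Set.toFinite _
      rw [Set.ncard_eq_toFinset_card _ hfin]
      refine Finset.card_le_card ?_
      intro y hy
      obtain ⟨q, hq, rfl⟩ := Finset.mem_image.1 hy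
      obtain ⟨hqP, hqz⟩ := Finset.mem_filter.1 hq
      exact hfin.mem_toFinset.2 ⟨(hY _ (hPmem q hqP).2).1, q.1⁻¹, FIB.solve hqz⟩
    have hg : ∀ y ∈ F.image Prod.snd, (F.filter (fun q => q.2 = y)).card ≤ X.ncard := by
      intro y hy
      obtain ⟨q0, hq0, rfl⟩ := Finset.mem_image.1 hy
      obtain ⟨hq0P, hq0z⟩ := Finset.mem_filter.1 hq0
      have hq0A := hPmem q0 hq0P
      rw [Set.ncard_eq_toFinset_card X hXf]
      refine Finset.card_le_card_of_injOn (fun q => q0.1⁻¹ * q.1) ?_ ?_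
      · intro q hq
        obtain ⟨hqF, hqy⟩ := Finset.mem_filter.1 (Finset.mem_coe.1 hq)
        obtain ⟨hqP, hqz⟩ := Finset.mem_filter.1 hqF
        have hqA := hPmem q hqP
        have hc : Commute q0.2 (q0.1⁻¹ * q.1) := by
          refine FIB.quot_comm ?_
          rw [← hqy, hqz, hqy, hq0z]
        refine Finset.mem_coe.2 (hXf.mem_toFinset.2 ⟨?_, ?_⟩)
        · rw [pow_two]
          exact Set.mul_mem_mul (hA.inv _ hq0A.1) hqA.1
        · exact (h1 ι p b q0.2 hb (hY _ hq0A.2).2 (hY _ hq0A.2).1 _).2 hc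
      · intro q hq q' hq' h
        have e1 := (Finset.mem_filter.1 (Finset.mem_coe.1 hq)).2
        have e2 := (Finset.mem_filter.1 (Finset.mem_coe.1 hq')).2
        exact Prod.ext (mul_left_cancel h) (e1.trans e2.symm)
    have h3 := Finset.card_le_mul_card_image F X.ncard hg
    calc F.card ≤ X.ncard * (F.image Prod.snd).card := h3
      _ ≤ X.ncard * (Fintype.card ι).factorial := Nat.mul_le_mul_left _ hYz
      _ = (Fintype.card ι).factorial * X.ncard := Nat.mul_comm _ _
  have himg : (P.image (fun q => q.1 * q.2 * q.1⁻¹)).card ≤ Z.ncard := by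
    rw [Set.ncard_eq_toFinset_card Z hZf]
    refine Finset.card_le_card ?_
    intro z hz
    obtain ⟨q, hq, rfl⟩ := Finset.mem_image.1 hz
    exact hZf.mem_toFinset.2 ⟨q.1, (hPmem q hq).1, q.2, (hPmem q hq).2, rfl⟩
  have hmain := Finset.card_le_mul_card_image P _ hfib
  have hcard : P.card = A.ncard * Y.ncard := by
    rw [hP, Finset.card_product, Set.ncard_eq_toFinset_card A hAf,
      Set.ncard_eq_toFinset_card Y hYf]
  rw [← hcard]
  exact hmain.trans (Nat.mul_le_mul_left _ himg)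

end Pool.Agent.Work.MP_936a99_pt
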