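import Pool.Agent.Work.MP_936a99_pt.RCJ

/-!
# FIB2: few conjugates of a torus contain a given regular element (helper44)
-/

namespace Pool.Agent.Work.MP_936a99_pt

open Matrix Pointwise

namespace FIB2

theorem comm_conj {G : Type} [Group G] {g b y : G} (h : Commute (g * b * g⁻¹) y) :
    Commute b (g⁻¹ * y * g) := by
  have h1 : g * b * g⁻¹ * y = y * (g * b * g⁻¹) := h
  show b * (g⁻¹ * y * g) = g⁻¹ * y * g * b
  calc b * (g⁻¹ * y * g) = g⁻¹ * (g * b * g⁻¹ * y) * g := by group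
    _ = g⁻¹ * (y * (g * b * g⁻¹)) * g := by rw [h1]
    _ = g⁻¹ * y * g * b := by group

theorem comm_quot {G : Type} [Group G] {g g0 y : G} (h : g⁻¹ * y * g = g0⁻¹ * y * g0) :
    Commute (g0⁻¹ * y * g0) (g0⁻¹ * g) := by
  show g0⁻¹ * y * g0 * (g0⁻¹ * g) = g0⁻¹ * g * (g0⁻¹ * y * g0)
  rw [← h]
  have h2 : g0 * (g⁻¹ * y * g) = y * g0 := by
    rw [h]; group
  calc g⁻¹ * y * g * (g0⁻¹ * g) = (g0⁻¹ * y * g0) * (g0⁻¹ * g) := by rw [h]
    _ = g0⁻¹ * y * g := by group
    _ = g0⁻¹ * g * (g⁻¹ * y * g) := by group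

end FIB2

/-- FIB2: few conjugates of a torus contain a given regular element. -/
theorem fib2 (h1 : Stmt_TCO) (h2 : Stmt_TCJ) : Stmt_FIB2 := by
  classical
  intro ι _ _ p _ b y hb hy
  set S : Set (SLI ι p) := {g : SLI ι p | Commute (g * b * g⁻¹) y} with hS
  set T : Set (SLI ι p) := {x : SLI ι p | Commute b x} with hT
  set Y : Set (SLI ι p) := {y' : SLI ι p | Commute b y' ∧ ∃ h : SLI ι p, y' = h * y * h⁻¹} with hY
  have hYc : Y.ncard ≤ (Fintype.card ι).factorial := h2 ι p b y hb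
  have hSf : S.Finite := Set.toFinite _
  have hTf : T.Finite := Set.toFinite _
  have hYf : Y.Finite := Set.toFinite _
  have hfib : ∀ z ∈ hSf.toFinset.image (fun g : SLI ι p => g⁻¹ * y * g),
      (hSf.toFinset.filter (fun g : SLI ι p => g⁻¹ * y * g = z)).card ≤ T.ncard := by
    intro z hz
    obtain ⟨g0, hg0, rfl⟩ := Finset.mem_image.1 hz
    have hg0S : Commute (g0 * b * g0⁻¹) y := (hSf.mem_toFinset).1 hg0
    have hcom : Commute b (g0⁻¹ * y * g0) := FIB2.comm_conj hg0S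
    have hreg : RegM 1 (gm (g0⁻¹ * y * g0).1) := by
      have h3 := rcj ι p 1 y g0⁻¹ hy
      rwa [inv_inv] at h3
    rw [Set.ncard_eq_toFinset_card T hTf]
    refine Finset.card_le_card_of_injOn (fun g => g0⁻¹ * g) ?_ ?_
    · intro g hg
      have hg' := Finset.mem_filter.1 (Finset.mem_coe.1 hg)
      have hc := FIB2.comm_quot hg'.2
      have h4 : Commute b (g0⁻¹ * g) := (h1 ι p b _ hb hreg hcom _).2 hc
      exact Finset.mem_coe.2 (hTf.mem_toFinset.2 h4)
    · intro g _ g' _ h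
      exact mul_left_cancel h
  have himg : (hSf.toFinset.image (fun g : SLI ι p => g⁻¹ * y * g)).card ≤ Y.ncard := by
    rw [Set.ncard_eq_toFinset_card Y hYf]
    refine Finset.card_le_card ?_
    intro z hz
    obtain ⟨g0, hg0, rfl⟩ := Finset.mem_image.1 hz
    have hg0S : Commute (g0 * b * g0⁻¹) y := (hSf.mem_toFinset).1 hg0
    refine hYf.mem_toFinset.2 ⟨FIB2.comm_conj hg0S, g0⁻¹, ?_⟩
    rw [inv_inv]
  have hmain := Finset.card_le_mul_card_image hSf.toFinset T.ncard hfib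
  rw [Set.ncard_eq_toFinset_card S hSf]
  calc hSf.toFinset.card ≤ T.ncard * _ := hmain
    _ ≤ T.ncard * (Fintype.card ι).factorial := Nat.mul_le_mul_left _ (himg.trans hYc)
    _ = (Fintype.card ι).factorial * T.ncard := Nat.mul_comm _ _

end Pool.Agent.Work.MP_936a99_pt
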