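import Pool.Agent.Work.MP_936a99_pt.Interface

/-!
# ITER: iteration of the product theorem
-/

namespace Pool.Agent.Work.MP_936a99_pt

open Pointwise

namespace ITER

variable {G : Type} [Group G]

theorem symGen_pow {A : Set G} (hA : SymGen A) {n : ℕ} (hn : 1 ≤ n) : SymGen (A ^ n) := by
  have hAA : A⁻¹ = A := by
    ext x
    rw [Set.mem_inv]
    exact ⟨fun h => by simpa using hA.inv _ h, fun h => hA.inv _ h⟩
  refine ⟨Set.one_mem_pow hA.one, ?_, ?_⟩
  · intro a ha
    have h1 : a⁻¹ ∈ (A ^ n)⁻¹ := by simpa using ha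
    rw [← inv_pow, hAA] at h1
    exact h1
  · rw [eq_top_iff, ← hA.gen]
    apply Subgroup.closure_mono
    have := Set.pow_subset_pow_right hA.one hn
    rwa [pow_one] at this

theorem univ_of_eq {A : Set G} (hA : SymGen A) {n : ℕ} (hn : A ^ n = A ^ (n + 1)) :
    A ^ n = Set.univ := by
  have hmul : ∀ x ∈ A ^ n, ∀ a ∈ A, x * a ∈ A ^ n := by
    intro x hx a ha
    rw [hn, pow_succ]
    exact Set.mul_mem_mul hx ha
  rw [Set.eq_univ_iff_forall]
  intro x
  have hx : x ∈ Subgroup.closure A := by rw [hA.gen]; trivial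
  induction hx using Subgroup.closure_induction_right with
  | one => exact Set.one_mem_pow hA.one
  | mul_right x hx y hy h => exact hmul x h y hy
  | mul_inv_cancel x hx y hy h => exact hmul x h _ (hA.inv y hy)

theorem growth [Finite G] {A : Set G} (hA : SymGen A) (n : ℕ) :
    n + 1 ≤ (A ^ n).ncard ∨ A ^ n = Set.univ := by
  induction n with
  | zero =>
    left
    rw [pow_zero, ← Set.singleton_one, Set.ncard_singleton]
  | succ n ih =>
    have hsub : A ^ n ⊆ A ^ (n + 1) := Set.pow_subset_pow_right hA.one (Nat.le_succ n)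
    rcases ih with h | h
    · by_cases heq : A ^ n = A ^ (n + 1)
      · right
        rw [← heq]
        exact univ_of_eq hA heq
      · left
        have := Set.ncard_lt_ncard (hsub.ssubset_of_ne heq) (Set.toFinite _)
        omega
    · right
      rw [h] at hsub
      exact Set.univ_subset_iff.1 hsub

/-- one step -/
theorem step {a b D : ℕ} (ha : (D * 2 ^ D) ^ 2 ≤ a) (ha1 : 1 ≤ a) (hab : a ≤ b)
    (h : a ≤ D * (b / a + 1) ^ D) : a ^ (2 * D + 1) ≤ b ^ (2 * D) := by
  have h1 : (b / a + 1) * a ≤ 2 * b := by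
    have := Nat.div_mul_le_self b a
    nlinarith
  have h2 : a ^ (D + 1) ≤ D * 2 ^ D * b ^ D := by
    calc a ^ (D + 1) = a * a ^ D := by ring
      _ ≤ D * (b / a + 1) ^ D * a ^ D := Nat.mul_le_mul_right _ h
      _ = D * ((b / a + 1) * a) ^ D := by rw [mul_pow]; ring
      _ ≤ D * (2 * b) ^ D := Nat.mul_le_mul_left _ (Nat.pow_le_pow_left h1 D)
      _ = D * 2 ^ D * b ^ D := by rw [mul_pow]; ring
  have h3 : a * a ^ (2 * D + 1) ≤ a * b ^ (2 * D) := by
    calc a * a ^ (2 * D + 1) = (a ^ (D + 1)) ^ 2 := by rw [← pow_mul]; ring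
      _ ≤ (D * 2 ^ D * b ^ D) ^ 2 := Nat.pow_le_pow_left h2 2
      _ = (D * 2 ^ D) ^ 2 * b ^ (2 * D) := by rw [mul_pow, ← pow_mul, mul_comm D 2]
      _ ≤ a * b ^ (2 * D) := Nat.mul_le_mul_right _ ha
  exact Nat.le_of_mul_le_mul_left h3 ha1

theorem step_log {a b D : ℕ} (hD : 1 ≤ D) (ha1 : 1 ≤ a)
    (h : a ^ (2 * D + 1) ≤ b ^ (2 * D)) :
    (1 + 1 / (2 * (D : ℝ))) * Real.log a ≤ Real.log b := by
  have ha0 : (0 : ℝ) < a := by exact_mod_cast ha1
  have h1 : (a : ℝ) ^ (2 * D + 1) ≤ (b : ℝ) ^ (2 * D) := by exact_mod_cast h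
  have h2 := Real.log_le_log (by positivity) h1
  rw [Real.log_pow, Real.log_pow] at h2
  push_cast at h2
  have hD0 : (0 : ℝ) < 2 * (D : ℝ) := by
    have : (1 : ℝ) ≤ D := by exact_mod_cast hD
    linarith
  have h3 : (1 + 1 / (2 * (D : ℝ))) * Real.log a = ((2 * (D : ℝ) + 1) * Real.log a) / (2 * D) := by
    field_simp
  rw [h3, div_le_iff₀ hD0]
  linarith

end ITER

open ITER in
theorem iter : Stmt_ITER := by
  intro n0 C
  set D := C + 1 with hD
  set N := n0 + 2 with hN
  set R := (D * 2 ^ D) ^ 2 + 3 with hR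
  set l : ℝ := 1 + 1 / (2 * (D : ℝ)) with hl
  have hD1 : (1 : ℝ) ≤ D := by
    rw [hD]
    push_cast
    have : (0 : ℝ) ≤ C := Nat.cast_nonneg C
    linarith
  have hl1 : 1 < l := by
    rw [hl]
    have : (0 : ℝ) < 1 / (2 * (D : ℝ)) := by positivity
    linarith
  obtain ⟨q, hq⟩ := pow_unbounded_of_one_lt (N : ℝ) hl1
  refine ⟨q + 8 * (4 * R), ?_⟩
  intro G _ _ hG H A hA
  set x := Real.log (Nat.card G) with hx
  have hx3 : Real.log 3 ≤ x := Real.log_le_log (by norm_num) (by exact_mod_cast hG)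
  have hx8 : (2 : ℝ) ≤ x ^ 8 := by
    refine Pool.Agent.Work.MP_936a99_al_h7.log_three_pow.trans ?_
    have : 0 ≤ Real.log 3 := Real.log_nonneg (by norm_num)
    gcongr
  have hx1 : 1 ≤ x := by
    by_contra hcon
    push Not at hcon
    have h0 : 0 ≤ x := (Real.log_nonneg (by norm_num)).trans hx3
    have : x ^ 8 ≤ 1 := pow_le_one₀ h0 hcon.le
    linarith
  have hconst : ((4 * R : ℕ) : ℝ) ≤ x ^ (8 * (4 * R)) := by
    calc ((4 * R : ℕ) : ℝ) ≤ 2 ^ (4 * R) := by exact_mod_cast Nat.lt_two_pow_self.le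
      _ ≤ (x ^ 8) ^ (4 * R) := by gcongr
      _ = x ^ (8 * (4 * R)) := by rw [← pow_mul]
  have hR1 : 1 ≤ R := by omega
  rcases growth hA R with hgr | hgr
  swap
  · refine ⟨R, hgr, ?_⟩
    calc (R : ℝ) ≤ ((4 * R : ℕ) : ℝ) := by
          exact_mod_cast (by omega : R ≤ 4 * R)
      _ ≤ x ^ (8 * (4 * R)) := hconst
      _ ≤ x ^ (q + 8 * (4 * R)) := pow_le_pow_right₀ hx1 (by omega)
  -- the sequence
  set B := A ^ R with hB
  have hBs : SymGen B := symGen_pow hA hR1
  have hNpos : ∀ j, 1 ≤ N ^ j := fun j => Nat.one_le_pow _ _ (by omega)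
  have hBj : ∀ j, SymGen (B ^ (N ^ j)) := fun j => symGen_pow hBs (hNpos j)
  set a : ℕ → ℕ := fun j => (B ^ (N ^ j)).ncard with ha
  have hmono : ∀ i j, i ≤ j → a i ≤ a j := fun i j hij =>
    Set.ncard_le_ncard (Set.pow_subset_pow_right hBs.one (Nat.pow_le_pow_right (by omega) hij))
      (Set.toFinite _)
  have ha0 : R + 1 ≤ a 0 := by
    simp only [ha, pow_zero, pow_one]
    exact hgr
  have haj : ∀ j, R + 1 ≤ a j := fun j => ha0.trans (hmono 0 j (Nat.zero_le _))
  have hacard : ∀ j, a j ≤ Nat.card G := by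
    intro j
    rw [← Set.ncard_univ]
    exact Set.ncard_le_ncard (Set.subset_univ _) (Set.toFinite _)
  have hstep : ∀ j, (B ^ (N ^ j)) ^ 4 ≠ Set.univ → l * Real.log (a j) ≤ Real.log (a (j + 1)) := by
    intro j hj
    have h1 := H (B ^ (N ^ j)) (a (j + 1) / a j + 1) (hBj j) (by
      have h2 : ((B ^ (N ^ j)) ^ n0).ncard ≤ a (j + 1) := by
        simp only [ha]
        rw [pow_succ N j, pow_mul B]
        exact Set.ncard_le_ncard (Set.pow_subset_pow_right (hBj j).one (by omega))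
          (Set.toFinite _)
      refine h2.trans ?_
      change a (j + 1) ≤ (a (j + 1) / a j + 1) * a j
      have h3 : 0 < a j := by have := haj j; omega
      have := Nat.lt_mul_div_succ (a (j + 1)) h3
      rw [mul_comm] at this
      exact this.le)
    rcases h1 with h1 | h1
    · have h2 : a j ≤ D * (a (j + 1) / a j + 1) ^ D := by
        refine h1.trans ?_
        exact Nat.mul_le_mul (by omega) (Nat.pow_le_pow_right (Nat.succ_pos _) (by omega))
      have h3 : (D * 2 ^ D) ^ 2 ≤ a j := by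
        have := haj j
        omega
      have h4 : 1 ≤ a j := by have := haj j; omega
      exact step_log (by omega) h4
        (step h3 h4 (hmono j (j + 1) (Nat.le_succ j)) h2)
    · exact absurd h1 hj
  have hlog0 : 1 ≤ Real.log (a 0) := by
    have h3 : (3 : ℝ) ≤ a 0 := by
      have : 3 ≤ a 0 := by omega
      exact_mod_cast this
    have h4 : Real.log (Real.exp 1) ≤ Real.log (a 0) := by
      apply Real.log_le_log (Real.exp_pos 1)
      have := Real.exp_one_lt_d9
      linarith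
    rwa [Real.log_exp] at h4
  have hgrow : ∀ j, (∀ i < j, (B ^ (N ^ i)) ^ 4 ≠ Set.univ) → l ^ j ≤ Real.log (a j) := by
    intro j
    induction j with
    | zero => intro _; simpa using hlog0
    | succ j ih =>
      intro hj
      have h1 := ih (fun i hi => hj i (Nat.lt_succ_of_lt hi))
      calc l ^ (j + 1) = l * l ^ j := by ring
        _ ≤ l * Real.log (a j) := by gcongr
        _ ≤ Real.log (a (j + 1)) := hstep j (hj j (Nat.lt_succ_self j))
  have hlogle : ∀ j, Real.log (a j) ≤ x := by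
    intro j
    apply Real.log_le_log
    · have := haj j
      have : 0 < a j := by omega
      exact_mod_cast this
    · exact_mod_cast hacard j
  have hex : ∃ j, (B ^ (N ^ j)) ^ 4 = Set.univ := by
    by_contra hcon
    push Not at hcon
    obtain ⟨j, hj⟩ := pow_unbounded_of_one_lt x hl1
    have := (hgrow j (fun i _ => hcon i)).trans (hlogle j)
    linarith
  classical
  obtain ⟨J, hJ, hJmin⟩ : ∃ J, (B ^ (N ^ J)) ^ 4 = Set.univ ∧
      ∀ i < J, (B ^ (N ^ i)) ^ 4 ≠ Set.univ :=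
    ⟨Nat.find hex, Nat.find_spec hex, fun i hi => Nat.find_min hex hi⟩
  have hJx : l ^ J ≤ x := (hgrow J hJmin).trans (hlogle J)
  refine ⟨R * N ^ J * 4, ?_, ?_⟩
  · rw [pow_mul, pow_mul]
    exact hJ
  · have h1 : ((N : ℝ)) ^ J ≤ x ^ q := by
      calc ((N : ℝ)) ^ J ≤ (l ^ q) ^ J := by gcongr
        _ = (l ^ J) ^ q := by rw [← pow_mul, ← pow_mul, mul_comm]
        _ ≤ x ^ q := by gcongr
    calc ((R * N ^ J * 4 : ℕ) : ℝ) = (N : ℝ) ^ J * ((4 * R : ℕ) : ℝ) := by
          push_cast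
          ring
      _ ≤ x ^ q * x ^ (8 * (4 * R)) := by gcongr
      _ = x ^ (q + 8 * (4 * R)) := by rw [← pow_add]

end Pool.Agent.Work.MP_936a99_pt
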