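import Pool.Agent.Work.MP_936a99_pt.Interface
import Pool.Agent.Work.MP_936a99_bb.TGEN

/-!
# NORM: proper normal subgroups of `SL_m(F_p)` consist of scalars
-/

namespace Pool.Agent.Work.MP_936a99_pt

open Matrix Pointwise

namespace NORM

variable {ι F : Type} [Fintype ι] [DecidableEq ι] [Field F]

theorem det_tv (a f : ι → F) (h : f ⬝ᵥ a = 0) : (1 + vecMulVec a f : Matrix ι ι F).det = 1 := by
  rw [Matrix.vecMulVec_eq Unit, Matrix.det_one_add_replicateCol_mul_replicateRow, h, add_zero]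

/-- the transvection `1 + a ⊗ f` -/
def tv (a f : ι → F) (h : f ⬝ᵥ a = 0) : Matrix.SpecialLinearGroup ι F :=
  ⟨1 + vecMulVec a f, det_tv a f h⟩

theorem tv_mulVec (a f x : ι → F) :
    (1 + vecMulVec a f : Matrix ι ι F) *ᵥ x = x + (f ⬝ᵥ x) • a := by
  rw [Matrix.add_mulVec, Matrix.one_mulVec, Matrix.vecMulVec_mulVec, op_smul_eq_smul]

theorem inv_mulVec {g : Matrix.SpecialLinearGroup ι F} {x y : ι → F}
    (h : (g : Matrix ι ι F) *ᵥ x = y) :
    ((g⁻¹ : Matrix.SpecialLinearGroup ι F) : Matrix ι ι F) *ᵥ y = x := by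
  rw [← h, Matrix.mulVec_mulVec, ← Matrix.SpecialLinearGroup.coe_mul, inv_mul_cancel,
    Matrix.SpecialLinearGroup.coe_one, Matrix.one_mulVec]

/-- every linear functional is a dot product -/
theorem exists_vec (φ : (ι → F) →ₗ[F] F) : ∃ f : ι → F, ∀ x, f ⬝ᵥ x = φ x := by
  refine ⟨fun i => φ (Pi.single i 1), fun x => ?_⟩
  have hx : x = ∑ i, x i • (Pi.single i (1 : F) : ι → F) := by
    funext j
    simp [Finset.sum_apply, Pi.single_apply]
  conv_rhs => rw [hx]
  rw [map_sum]
  simp only [map_smul, smul_eq_mul]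
  unfold dotProduct
  exact Finset.sum_congr rfl (fun i _ => mul_comm _ _)

/-- the linear algebra step -/
theorem exists_functional {v x w : ι → F} (h1 : LinearIndependent F ![v, x])
    (h2 : LinearIndependent F ![v, w]) :
    ∃ (c : F) (f : ι → F), c ≠ 0 ∧ f ⬝ᵥ x = 1 ∧ f ⬝ᵥ v = 0 ∧ f ⬝ᵥ (c • w - x) = 0 := by
  have key : ∀ c : F, c ≠ 0 → x ∉ Submodule.span F ({v, c • w - x} : Set (ι → F)) →
      ∃ f : ι → F, f ⬝ᵥ x = 1 ∧ f ⬝ᵥ v = 0 ∧ f ⬝ᵥ (c • w - x) = 0 := by
    intro c _ hx
    obtain ⟨φ, hφ1, hφ2⟩ := Submodule.exists_le_ker_of_notMem hx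
    obtain ⟨f, hf⟩ := exists_vec ((φ x)⁻¹ • φ)
    refine ⟨f, ?_, ?_, ?_⟩
    · rw [hf, LinearMap.smul_apply, smul_eq_mul, inv_mul_cancel₀ hφ1]
    · rw [hf, LinearMap.smul_apply]
      have : φ v = 0 := hφ2 (Submodule.subset_span (by simp))
      rw [this, smul_zero]
    · rw [hf, LinearMap.smul_apply]
      have : φ (c • w - x) = 0 := hφ2 (Submodule.subset_span (by simp))
      rw [this, smul_zero]
  have i1 : ∀ a b : F, a • v + b • x = 0 → a = 0 ∧ b = 0 := LinearIndependent.pair_iff.1 h1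
  have i2 : ∀ a b : F, a • v + b • w = 0 → a = 0 ∧ b = 0 := LinearIndependent.pair_iff.1 h2
  by_cases hx : x ∈ Submodule.span F ({v, (1 : F) • w - x} : Set (ι → F))
  · obtain ⟨α, β, hab⟩ := Submodule.mem_span_pair.1 hx
    -- `α v + β (w - x) = x`
    rw [one_smul] at hab
    have hβ : β ≠ 0 := by
      intro hβ
      rw [hβ, zero_smul, add_zero] at hab
      have := i1 α (-1) (by rw [hab]; simp)
      exact one_ne_zero (neg_eq_zero.1 this.2)
    have hβ1 : 1 + β ≠ 0 := by
      intro hβ1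
      have e : β = -1 := by linear_combination hβ1
      rw [e] at hab
      have e2 : α • v + (-1 : F) • w = 0 := by
        have : α • v + (-1 : F) • w = (α • v + (-1 : F) • (w - x)) - x := by
          rw [smul_sub]
          simp only [neg_smul, one_smul]
          abel
        rw [this, hab, sub_self]
      have := i2 α (-1) e2
      exact one_ne_zero (neg_eq_zero.1 this.2)
    -- `β w = (1 + β) x - α v`
    have hw : β • w = (1 + β) • x - α • v := by
      have : β • w = (α • v + β • (w - x)) + β • x - α • v := by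
        rw [smul_sub]; abel
      rw [this, hab, add_smul, one_smul]
    refine ⟨β / (1 + β), ?_⟩
    have hc : β / (1 + β) ≠ 0 := div_ne_zero hβ hβ1
    have hcw : (β / (1 + β)) • w - x = (-(α / (1 + β))) • v := by
      have e : (β / (1 + β)) • w = (1 + β)⁻¹ • (β • w) := by
        rw [smul_smul]; congr 1; field_simp
      rw [e, hw, smul_sub, smul_smul, smul_smul, inv_mul_cancel₀ hβ1, one_smul]
      have e3 : (1 + β)⁻¹ * α = α / (1 + β) := by field_simp
      rw [e3, neg_smul]
      abel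
    obtain ⟨f, hf⟩ := key (β / (1 + β)) hc (by
      rw [hcw]
      intro hmem
      obtain ⟨a, b, h⟩ := Submodule.mem_span_pair.1 hmem
      have := i1 (a + b * (-(α / (1 + β)))) (-1) (by
        rw [add_smul, mul_smul, h]; simp)
      exact one_ne_zero (neg_eq_zero.1 this.2))
    exact ⟨f, hc, hf⟩
  · obtain ⟨f, hf⟩ := key 1 one_ne_zero hx
    exact ⟨1, f, one_ne_zero, hf⟩

open Matrix in
/-- one element moving a line moves every vector of this line everywhere -/
theorem exists_move {N : Subgroup (Matrix.SpecialLinearGroup ι F)} (hN : N.Normal)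
    {g : Matrix.SpecialLinearGroup ι F} (hg : g ∈ N) {v : ι → F}
    (hv : LinearIndependent F ![v, (g : Matrix ι ι F) *ᵥ v]) (w : ι → F) (hw : w ≠ 0) :
    ∃ n ∈ N, ∃ c : F, c ≠ 0 ∧ (n : Matrix ι ι F) *ᵥ v = c • w := by
  have hv0 : v ≠ 0 := hv.ne_zero 0
  by_cases h2 : LinearIndependent F ![v, w]
  · obtain ⟨c, f, hc, h1, h3, h4⟩ := exists_functional hv h2
    set x := (g : Matrix ι ι F) *ᵥ v with hx
    have a1 : ((tv (c • w - x) f h4 : Matrix.SpecialLinearGroup ι F) : Matrix ι ι F) *ᵥ x =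
        c • w := by
      show (1 + vecMulVec (c • w - x) f : Matrix ι ι F) *ᵥ x = c • w
      rw [tv_mulVec, h1, one_smul]
      abel
    have a2 : ((tv (c • w - x) f h4 : Matrix.SpecialLinearGroup ι F) : Matrix ι ι F) *ᵥ v =
        v := by
      show (1 + vecMulVec (c • w - x) f : Matrix ι ι F) *ᵥ v = v
      rw [tv_mulVec, h3, zero_smul, add_zero]
    refine ⟨tv (c • w - x) f h4 * g * (tv (c • w - x) f h4)⁻¹, hN.conj_mem g hg _, c, hc, ?_⟩
    rw [Matrix.SpecialLinearGroup.coe_mul, Matrix.SpecialLinearGroup.coe_mul,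
      ← Matrix.mulVec_mulVec, ← Matrix.mulVec_mulVec, inv_mulVec a2, ← hx, a1]
  · rw [LinearIndependent.pair_iff' hv0] at h2
    push Not at h2
    obtain ⟨a, ha⟩ := h2
    have ha0 : a ≠ 0 := by
      rintro rfl
      exact hw (by rw [← ha, zero_smul])
    refine ⟨1, N.one_mem, a⁻¹, inv_ne_zero ha0, ?_⟩
    rw [Matrix.SpecialLinearGroup.coe_one, Matrix.one_mulVec, ← ha, smul_smul,
      inv_mul_cancel₀ ha0, one_smul]

theorem tv_mul (v f₁ f₂ : ι → F) (h1 : f₁ ⬝ᵥ v = 0) :
    (1 + vecMulVec v f₁ : Matrix ι ι F) * (1 + vecMulVec v f₂) =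
      1 + vecMulVec v (f₁ + f₂) := by
  rw [add_mul, mul_add, mul_add, mul_one, mul_one, one_mul, Matrix.vecMulVec_mul_vecMulVec, h1, Matrix.vecMulVec_add,
    zero_smul, Matrix.vecMulVec_zero, add_zero]
  abel

/-- the abelian group of the transvections with direction `v` -/
def U (v : ι → F) : Subgroup (Matrix.SpecialLinearGroup ι F) where
  carrier := {s | ∃ f : ι → F, f ⬝ᵥ v = 0 ∧ (s : Matrix ι ι F) = 1 + vecMulVec v f}
  mul_mem' := by
    rintro a b ⟨f₁, h1, e1⟩ ⟨f₂, h2, e2⟩
    refine ⟨f₁ + f₂, by rw [add_dotProduct, h1, h2, add_zero], ?_⟩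
    rw [Matrix.SpecialLinearGroup.coe_mul, e1, e2, tv_mul _ _ _ h1]
  one_mem' := ⟨0, by simp, by simp⟩
  inv_mem' := by
    rintro a ⟨f, h, e⟩
    have h' : (-f) ⬝ᵥ v = 0 := by rw [neg_dotProduct, h, neg_zero]
    have : a⁻¹ = tv v (-f) h' := by
      rw [inv_eq_iff_mul_eq_one]
      apply Subtype.ext
      show (a : Matrix ι ι F) * (1 + vecMulVec v (-f)) = 1
      rw [e, tv_mul _ _ _ h]
      simp
    exact ⟨-f, h', by rw [this]; rfl⟩

theorem U_comm (v : ι → F) {a b : Matrix.SpecialLinearGroup ι F} (ha : a ∈ U v) (hb : b ∈ U v) :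
    a * b = b * a := by
  obtain ⟨f₁, h1, e1⟩ := ha
  obtain ⟨f₂, h2, e2⟩ := hb
  apply Subtype.ext
  show (a : Matrix ι ι F) * (b : Matrix ι ι F) = (b : Matrix ι ι F) * (a : Matrix ι ι F)
  rw [e1, e2, tv_mul _ _ _ h1, tv_mul _ _ _ h2, add_comm f₁ f₂]

/-- every transvection is congruent to an element of `U v` modulo `N` -/
theorem tv_mem {v w f : ι → F} (hf : f ⬝ᵥ w = 0) {t n : Matrix.SpecialLinearGroup ι F}
    (ht : (t : Matrix ι ι F) = 1 + vecMulVec w f) {c : F} (hc : c ≠ 0)
    (hnv : (n : Matrix ι ι F) *ᵥ v = c • w) :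
    ∃ u ∈ U v, t = n * u * n⁻¹ := by
  have h' : (c⁻¹ • (f ᵥ* (n : Matrix ι ι F))) ⬝ᵥ v = 0 := by
    rw [smul_dotProduct, ← Matrix.dotProduct_mulVec, hnv, dotProduct_smul, hf]
    simp
  refine ⟨tv v _ h', ⟨_, h', rfl⟩, ?_⟩
  rw [eq_mul_inv_iff_mul_eq]
  apply Subtype.ext
  show (t : Matrix ι ι F) * (n : Matrix ι ι F) = (n : Matrix ι ι F) *
    (1 + vecMulVec v (c⁻¹ • (f ᵥ* (n : Matrix ι ι F))))
  rw [ht, add_mul, one_mul, mul_add, mul_one, Matrix.vecMulVec_mul, Matrix.mul_vecMulVec, hnv,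
    Matrix.smul_vecMulVec, Matrix.vecMulVec_smul, smul_smul, mul_inv_cancel₀ hc, one_smul]

/-- the quotient by a normal subgroup moving a line is commutative -/
theorem comm_mem {ι : Type} [Fintype ι] [DecidableEq ι] {p : ℕ} [Fact p.Prime]
    {N : Subgroup (Matrix.SpecialLinearGroup ι (ZMod p))} (hN : N.Normal)
    {g : Matrix.SpecialLinearGroup ι (ZMod p)} (hg : g ∈ N) {v : ι → ZMod p}
    (hv : LinearIndependent (ZMod p) ![v, (g : Matrix ι ι (ZMod p)) *ᵥ v])
    (x y : Matrix.SpecialLinearGroup ι (ZMod p)) : x * y * (y * x)⁻¹ ∈ N := by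
  have htop : Subgroup.comap (QuotientGroup.mk' N)
      (Subgroup.map (QuotientGroup.mk' N) (U v)) = ⊤ := by
    apply MP_936a99_bb.tgen ι p
    intro i j hij c
    have hw : (Pi.single i (1 : ZMod p) : ι → ZMod p) ≠ 0 := by
      intro h
      have := congrFun h i
      rw [Pi.single_eq_same, Pi.zero_apply] at this
      exact one_ne_zero this
    obtain ⟨n, hn, d, hd, hnv⟩ := exists_move hN hg hv _ hw
    have ht : ((Matrix.SpecialLinearGroup.transvection hij c :
        Matrix.SpecialLinearGroup ι (ZMod p)) : Matrix ι ι (ZMod p)) =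
        1 + vecMulVec (Pi.single i (1 : ZMod p)) (Pi.single j c) := by
      rw [Matrix.SpecialLinearGroup.transvection_coe]
      congr 1
      ext k l
      rw [Matrix.vecMulVec_apply, Matrix.single_apply, Pi.single_apply, Pi.single_apply]
      by_cases h1 : i = k
      · by_cases h2 : j = l
        · simp [h1, h2]
        · simp [h2, Ne.symm h2]
      · simp [h1, Ne.symm h1]
    have hf : (Pi.single j c : ι → ZMod p) ⬝ᵥ Pi.single i 1 = 0 := by
      rw [dotProduct_single, Pi.single_eq_of_ne hij, zero_mul]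
    obtain ⟨u, hu, e⟩ := tv_mem hf ht hd hnv
    rw [Subgroup.mem_comap]
    refine ⟨u, hu, ?_⟩
    have h1 : (QuotientGroup.mk' N) n = 1 := (QuotientGroup.eq_one_iff n).2 hn
    rw [e, map_mul, map_mul, map_inv, h1]
    simp
  have hx : ∀ z : Matrix.SpecialLinearGroup ι (ZMod p),
      ∃ u ∈ U v, (QuotientGroup.mk' N) u = (QuotientGroup.mk' N) z := by
    intro z
    have : z ∈ Subgroup.comap (QuotientGroup.mk' N)
        (Subgroup.map (QuotientGroup.mk' N) (U v)) := by rw [htop]; trivial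
    exact this
  obtain ⟨a, ha, ea⟩ := hx x
  obtain ⟨b, hb, eb⟩ := hx y
  rw [← QuotientGroup.eq_one_iff, ← QuotientGroup.mk'_apply, map_mul, map_inv, map_mul, map_mul,
    ← ea, ← eb, ← map_mul, ← map_mul, U_comm v ha hb, mul_inv_cancel]

/-- a transvection is a commutator -/
theorem transvection_comm {i j : ι} (hij : i ≠ j) (a b c : F) (ha : a ≠ 0)
    (h : a * a * b = c + b) :
    Matrix.SpecialLinearGroup.transvection hij c =
      Matrix.SpecialLinearGroup.diag2n hij a ha * Matrix.SpecialLinearGroup.transvection hij b *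
      (Matrix.SpecialLinearGroup.transvection hij b *
        Matrix.SpecialLinearGroup.diag2n hij a ha)⁻¹ := by
  rw [eq_mul_inv_iff_mul_eq]
  apply Subtype.ext
  show (1 + single i j c : Matrix ι ι F) * ((1 + single i j b) *
    diagonal (fun k ↦ if k = i then a else if k = j then a⁻¹ else 1)) =
    diagonal (fun k ↦ if k = i then a else if k = j then a⁻¹ else 1) * (1 + single i j b)
  have e : (1 + single i j c : Matrix ι ι F) * (1 + single i j b) = 1 + single i j (c + b) := by
    rw [add_mul, mul_add, mul_add, mul_one, one_mul, mul_one,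
      single_mul_single_of_ne _ _ _ _ hij.symm, add_zero, single_add]
    abel
  rw [← mul_assoc, e, add_mul, mul_add, one_mul, mul_one]
  congr 1
  ext k l
  rw [Matrix.mul_diagonal, Matrix.diagonal_mul]
  simp only [single_apply]
  by_cases h1 : i = k
  · by_cases h2 : j = l
    · subst h1 h2
      simp only [and_self, if_true, if_neg hij.symm, ← h]
      field_simp
    · simp [h2]
  · simp [h1]

end NORM

theorem norm : Stmt_NORM := by
  intro ι _ _ p _ hp N hN hNt
  -- every element of `N` fixes all lines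
  have key : ∀ g ∈ N, ∀ v : ι → ZMod p,
      ¬ LinearIndependent (ZMod p) ![v, (g : Matrix ι ι (ZMod p)) *ᵥ v] := by
    intro g hg v hv
    apply hNt
    apply MP_936a99_bb.tgen ι p
    intro i j hij c
    have h2 : (2 : ZMod p) ≠ 0 := by
      have := (ZMod.natCast_eq_zero_iff 2 p).not.2 (fun h => by
        have := Nat.le_of_dvd (by norm_num) h; omega)
      exact_mod_cast this
    have h3 : (3 : ZMod p) ≠ 0 := by
      have := (ZMod.natCast_eq_zero_iff 3 p).not.2 (fun h => by
        have := Nat.le_of_dvd (by norm_num) h; omega)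
      exact_mod_cast this
    rw [NORM.transvection_comm hij 2 (c / 3) c h2 (by field_simp; ring)]
    exact NORM.comm_mem hN hg hv _ _
  -- so every element of `N` is a scalar
  have hsc : ∀ g ∈ N, ∃ a : ZMod p, (g : Matrix ι ι (ZMod p)) = a • 1 := by
    intro g hg
    obtain ⟨a, ha⟩ := LinearMap.exists_eq_smul_id_of_forall_notLinearIndependent
      (f := Matrix.toLin' (g : Matrix ι ι (ZMod p))) (fun v => by
        rw [Matrix.toLin'_apply]; exact key g hg v)
    refine ⟨a, ?_⟩
    apply Matrix.toLin'.injective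
    rw [ha, map_smul, Matrix.toLin'_one]
    rfl
  rcases isEmpty_or_nonempty ι with he | hne
  · exfalso
    apply hNt
    rw [eq_top_iff]
    intro g _
    have : g = 1 := by
      apply Subtype.ext
      ext i
      exact he.elim i
    rw [this]
    exact N.one_mem
  choose! a ha using hsc
  have hcard : 0 < Fintype.card ι := Fintype.card_pos
  have hroot : ∀ g ∈ N, a g ∈ Polynomial.nthRootsFinset (Fintype.card ι) (1 : ZMod p) := by
    intro g hg
    rw [Polynomial.mem_nthRootsFinset hcard]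
    have h2 : (g : Matrix ι ι (ZMod p)).det = 1 := g.2
    rw [ha g hg, Matrix.det_smul, Matrix.det_one, mul_one] at h2
    exact h2
  have hinj : Function.Injective (fun g : N => (⟨a g.1, hroot g.1 g.2⟩ :
      Polynomial.nthRootsFinset (Fintype.card ι) (1 : ZMod p))) := by
    intro g h hgh
    have e : a g.1 = a h.1 := congrArg Subtype.val hgh
    apply Subtype.ext
    apply Subtype.ext
    show (g.1 : Matrix ι ι (ZMod p)) = (h.1 : Matrix ι ι (ZMod p))
    rw [ha g.1 g.2, ha h.1 h.2, e]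
  have := Nat.card_le_card_of_injective _ hinj
  refine this.trans ?_
  rw [Nat.card_eq_fintype_card, Fintype.card_coe]
  unfold Polynomial.nthRootsFinset
  exact (@Multiset.toFinset_card_le _ (Classical.decEq _) _).trans
    (Polynomial.card_nthRoots _ _)

end Pool.Agent.Work.MP_936a99_pt
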