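import Pool.Agent.Work.MP_936a99_pt.Interface

/-! MP_936a99_al, block ORD: lower bound for the order of `SL_m(F_p)` (helper78) -/

namespace Pool.Agent.Work.MP_936a99_pt

open Matrix Pointwise

namespace ORD

/-- scale one row by the inverse of the determinant -/
noncomputable def nrm {ι : Type} [Fintype ι] [DecidableEq ι] {K : Type} [Field K] (i0 : ι)
    (g : GL ι K) : Matrix.SpecialLinearGroup ι K :=
  ⟨Matrix.diagonal (Function.update (fun _ => (1 : K)) i0 ((g : Matrix ι ι K).det)⁻¹) *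
      (g : Matrix ι ι K), by
    have hd : ((g : Matrix ι ι K).det) ≠ 0 := by
      have := (Matrix.GeneralLinearGroup.det g).ne_zero
      simpa using this
    rw [Matrix.det_mul, Matrix.det_diagonal, Finset.prod_update_of_mem (Finset.mem_univ _)]
    simp [hd]⟩

theorem nrm_inj {ι : Type} [Fintype ι] [DecidableEq ι] {K : Type} [Field K] (i0 : ι) :
    Function.Injective (fun g : GL ι K => (nrm i0 g, Matrix.GeneralLinearGroup.det g)) := by
  intro g h hgh
  simp only [Prod.mk.injEq] at hgh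
  obtain ⟨h1, h2⟩ := hgh
  have hdet : (g : Matrix ι ι K).det = (h : Matrix ι ι K).det := by
    have := congrArg (fun u : Kˣ => (u : K)) h2
    simpa using this
  have h3 : Matrix.diagonal (Function.update (fun _ => (1 : K)) i0 ((g : Matrix ι ι K).det)⁻¹) *
      (g : Matrix ι ι K) =
      Matrix.diagonal (Function.update (fun _ => (1 : K)) i0 ((h : Matrix ι ι K).det)⁻¹) *
      (h : Matrix ι ι K) := congrArg Subtype.val h1
  rw [← hdet] at h3
  have hd : ((g : Matrix ι ι K).det) ≠ 0 := by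
    have := (Matrix.GeneralLinearGroup.det g).ne_zero
    simpa using this
  have hu : IsUnit (Matrix.diagonal
      (Function.update (fun _ => (1 : K)) i0 ((g : Matrix ι ι K).det)⁻¹)) := by
    rw [Matrix.isUnit_iff_isUnit_det, Matrix.det_diagonal,
      Finset.prod_update_of_mem (Finset.mem_univ _)]
    simp [hd]
  exact Units.ext (hu.mul_left_cancel h3)

theorem card_GL_le {ι : Type} [Fintype ι] [DecidableEq ι] (p : ℕ) [Fact p.Prime] (i0 : ι) :
    Nat.card (GL ι (ZMod p)) ≤ Nat.card (SLI ι p) * p := by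
  have h1 := Nat.card_le_card_of_injective _ (nrm_inj (K := ZMod p) i0)
  rw [Nat.card_prod] at h1
  refine h1.trans (Nat.mul_le_mul_left _ ?_)
  have h2 := Nat.card_le_card_of_injective (fun u : (ZMod p)ˣ => (u : ZMod p)) Units.val_injective
  rw [Nat.card_zmod] at h2
  exact h2

theorem card_GL_eq {ι : Type} [Fintype ι] [DecidableEq ι] (p : ℕ) [Fact p.Prime] :
    Nat.card (GL ι (ZMod p)) = Nat.card (GL (Fin (Fintype.card ι)) (ZMod p)) :=
  Nat.card_congr (Units.mapEquiv
    (Matrix.reindexAlgEquiv (ZMod p) (ZMod p) (Fintype.equivFin ι)).toMulEquiv).toEquiv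

theorem factor_ge {p m : ℕ} (hp : 2 ≤ p) (i : Fin m) : p ^ m ≤ 2 * (p ^ m - p ^ (i : ℕ)) := by
  have h1 : 2 * p ^ (i : ℕ) ≤ p ^ m := by
    calc 2 * p ^ (i : ℕ) ≤ p * p ^ (i : ℕ) := Nat.mul_le_mul_right _ hp
      _ = p ^ ((i : ℕ) + 1) := by ring
      _ ≤ p ^ m := Nat.pow_le_pow_right (by omega) i.2
  omega

end ORD

theorem ord : Stmt_ORD := by
  intro ι _ _ hι
  refine ⟨2 ^ Fintype.card ι, fun p _ => ?_⟩
  have hp : 2 ≤ p := (Fact.out : p.Prime).two_le
  obtain ⟨i0⟩ : Nonempty ι := Fintype.card_pos_iff.1 (by omega)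
  have h1 := ORD.card_GL_le (ι := ι) p i0
  rw [ORD.card_GL_eq, Matrix.card_GL_field, ZMod.card] at h1
  have h2 : (p ^ Fintype.card ι) ^ Fintype.card ι ≤
      2 ^ Fintype.card ι * ∏ i : Fin (Fintype.card ι), (p ^ Fintype.card ι - p ^ (i : ℕ)) := by
    calc (p ^ Fintype.card ι) ^ Fintype.card ι
        = ∏ _i : Fin (Fintype.card ι), p ^ Fintype.card ι := by
          rw [Finset.prod_const, Finset.card_univ, Fintype.card_fin]
      _ ≤ ∏ i : Fin (Fintype.card ι), (2 * (p ^ Fintype.card ι - p ^ (i : ℕ))) :=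
          Finset.prod_le_prod' fun i _ => ORD.factor_ge hp i
      _ = _ := by
          rw [Finset.prod_mul_distrib, Finset.prod_const, Finset.card_univ, Fintype.card_fin]
  have h3 : (Fintype.card ι - 1) * (Fintype.card ι + 1) + 1 = Fintype.card ι * Fintype.card ι := by
    obtain ⟨k, hk⟩ : ∃ k, Fintype.card ι = k + 1 := ⟨Fintype.card ι - 1, by omega⟩
    rw [hk]
    simp only [Nat.add_sub_cancel]
    ring
  have h4 : p ^ ((Fintype.card ι - 1) * (Fintype.card ι + 1)) * p ≤
      (2 ^ Fintype.card ι * Nat.card (SLI ι p)) * p := by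
    calc p ^ ((Fintype.card ι - 1) * (Fintype.card ι + 1)) * p
        = p ^ ((Fintype.card ι - 1) * (Fintype.card ι + 1) + 1) := (pow_succ _ _).symm
      _ = (p ^ Fintype.card ι) ^ Fintype.card ι := by rw [h3, pow_mul]
      _ ≤ _ := h2
      _ ≤ 2 ^ Fintype.card ι * (Nat.card (SLI ι p) * p) := Nat.mul_le_mul_left _ h1
      _ = _ := by ring
  exact Nat.le_of_mul_le_mul_right h4 (by omega)

end Pool.Agent.Work.MP_936a99_pt
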