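import Pool.Agent.Work.MP_936a99_pt.Interface

namespace Pool.Agent.Work.MP_936a99_pt

open Matrix Pointwise

namespace PROD

lemma mul_eq_univ_of_card {G : Type} [Group G] [Finite G] (S T : Set G)
    (h : Nat.card G < S.ncard + T.ncard) : S * T = Set.univ := by
  apply Set.eq_univ_of_forall
  intro x
  have h1 : ((fun s : G => s⁻¹ * x) '' S).ncard = S.ncard := by
    apply Set.ncard_image_of_injective
    intro a b hab
    simpa using hab
  have h2 : (((fun s : G => s⁻¹ * x) '' S) ∩ T).Nonempty := by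
    by_contra hne
    rw [Set.not_nonempty_iff_eq_empty] at hne
    have h3 := Set.ncard_union_add_ncard_inter ((fun s : G => s⁻¹ * x) '' S) T
    rw [hne, Set.ncard_empty, h1] at h3
    have h4 : (((fun s : G => s⁻¹ * x) '' S) ∪ T).ncard ≤ Nat.card G := Set.ncard_le_card _
    omega
  obtain ⟨t, ⟨s, hs, hst⟩, ht⟩ := h2
  exact ⟨s, hs, t, ht, by rw [← hst]; simp⟩

lemma pow_mono {G : Type} [Group G] {A : Set G} (h : SymGen A) {i j : ℕ} (hij : i ≤ j) :
    A ^ i ⊆ A ^ j := Set.pow_subset_pow_right h.one hij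

end PROD

open PROD in
theorem prod (h1 : Stmt_BIGT) (h2 : Stmt_QRA) (h3 : Stmt_QRB) (h4 : Stmt_ORD) : Stmt_PROD := by
  intro ι _ _ hι
  obtain ⟨n0, e, C, P0, hB⟩ := h1 ι hι
  obtain ⟨B, hO⟩ := h4 ι hι
  refine ⟨n0 + 2, B * (C * 8 ^ e) ^ 2 + 2 * (C + e) + C, P0 + 5 + Fintype.card ι, ?_⟩
  intro p _ A K hp hA hK
  have hfin : Finite (SLI ι p) := inferInstance
  have hAfin : A.Finite := Set.toFinite A
  have ha0 : 0 < A.ncard := (Set.ncard_pos hAfin).2 ⟨1, hA.one⟩
  have hKa : (A ^ n0).ncard ≤ K * A.ncard :=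
    le_trans (Set.ncard_le_ncard (pow_mono hA (by omega)) (Set.toFinite _)) hK
  have hK2 : (A * A).ncard ≤ K * A.ncard := by
    refine le_trans (Set.ncard_le_ncard ?_ (Set.toFinite _)) hK
    rw [← sq]
    exact pow_mono hA (by omega)
  have hK1 : 1 ≤ K := by
    have : A.ncard ≤ K * A.ncard := by
      refine le_trans (Set.ncard_le_ncard ?_ (Set.toFinite _)) hK
      calc A = A ^ 1 := (pow_one A).symm
        _ ⊆ _ := pow_mono hA (by omega)
    rcases Nat.eq_zero_or_pos K with h | h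
    · rw [h] at this; omega
    · exact h
  by_cases hbig : Nat.card (SLI ι p) < (A * A).ncard + (A * A).ncard
  · right
    have := mul_eq_univ_of_card _ _ hbig
    rw [← this, pow_succ, pow_succ, pow_succ, pow_one]
    simp only [mul_assoc]
  left
  have hsmall : 2 * (A * A).ncard ≤ Nat.card (SLI ι p) := by omega
  set m := Fintype.card ι with hm
  set q := p ^ (m - 1) with hq
  have hppos : 0 < p := (Fact.out : p.Prime).pos
  have hq1 : 1 ≤ q := Nat.one_le_pow _ _ hppos
  have hg0 : 0 < Nat.card (SLI ι p) := Nat.card_pos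
  have hquasi := h3 (SLI ι p) q (h2 ι p hι (by omega) (by omega)) A A hsmall
  -- q a ≤ 8 K g
  have hqa : q * A.ncard ≤ 8 * K * Nat.card (SLI ι p) := by
    have : A.ncard * (q * A.ncard) ≤ A.ncard * (8 * K * Nat.card (SLI ι p)) := by
      calc A.ncard * (q * A.ncard) = q * (A.ncard * A.ncard) := by ring
        _ ≤ 8 * (A * A).ncard * Nat.card (SLI ι p) := hquasi
        _ ≤ 8 * (K * A.ncard) * Nat.card (SLI ι p) := by gcongr
        _ = A.ncard * (8 * K * Nat.card (SLI ι p)) := by ring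
    exact Nat.le_of_mul_le_mul_left this ha0
  have hKC : ∀ i, i ≤ B * (C * 8 ^ e) ^ 2 + 2 * (C + e) + C →
      K ^ i ≤ K ^ (B * (C * 8 ^ e) ^ 2 + 2 * (C + e) + C) := fun i hi =>
    Nat.pow_le_pow_right hK1 hi
  rcases hB p A K (by omega) hA hKa with h | h
  · refine h.trans ?_
    exact Nat.mul_le_mul (by omega) (hKC _ (by omega))
  · -- g ≤ C 8^e K^(C+e) q
    have hg1 : Nat.card (SLI ι p) ≤ C * 8 ^ e * K ^ (C + e) * q := by
      have h5 : Nat.card (SLI ι p) ^ e * Nat.card (SLI ι p) ≤ Nat.card (SLI ι p) ^ e * (C * 8 ^ e * K ^ (C + e) * q) := by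
        calc Nat.card (SLI ι p) ^ e * Nat.card (SLI ι p) = Nat.card (SLI ι p) ^ (e + 1) := (pow_succ _ _).symm
          _ ≤ C * K ^ C * p ^ ((m - 1) * (e + 1)) * A.ncard ^ e := h
          _ = C * K ^ C * q * (q * A.ncard) ^ e := by
              rw [hq, mul_add, mul_one, pow_add, mul_pow, pow_mul]; ring
          _ ≤ C * K ^ C * q * (8 * K * Nat.card (SLI ι p)) ^ e := by gcongr
          _ = Nat.card (SLI ι p) ^ e * (C * 8 ^ e * K ^ (C + e) * q) := by
              rw [mul_pow, mul_pow, pow_add]; ring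
      exact Nat.le_of_mul_le_mul_left h5 (pow_pos hg0 e)
    have hO' := hO p
    have hqm : q ^ m ≤ B * (C * 8 ^ e * K ^ (C + e)) := by
      have h6 : q * q ^ m ≤ q * (B * (C * 8 ^ e * K ^ (C + e))) := by
        calc q * q ^ m = p ^ ((m - 1) * (m + 1)) := by
              rw [hq, ← pow_succ', ← pow_mul]
          _ ≤ B * Nat.card (SLI ι p) := hO'
          _ ≤ B * (C * 8 ^ e * K ^ (C + e) * q) := by gcongr
          _ = q * (B * (C * 8 ^ e * K ^ (C + e))) := by ring
      exact Nat.le_of_mul_le_mul_left h6 hq1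
    have hqle : q ≤ B * (C * 8 ^ e * K ^ (C + e)) :=
      le_trans (Nat.le_self_pow (by omega) q) hqm
    calc A.ncard ≤ Nat.card (SLI ι p) := Set.ncard_le_card _
      _ ≤ C * 8 ^ e * K ^ (C + e) * q := hg1
      _ ≤ C * 8 ^ e * K ^ (C + e) * (B * (C * 8 ^ e * K ^ (C + e))) := by gcongr
      _ = B * (C * 8 ^ e) ^ 2 * K ^ (2 * (C + e)) := by
          rw [mul_comm 2 (C + e), pow_mul]; ring
      _ ≤ (B * (C * 8 ^ e) ^ 2 + 2 * (C + e) + C) *
            K ^ (B * (C * 8 ^ e) ^ 2 + 2 * (C + e) + C) :=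
          Nat.mul_le_mul (by omega) (hKC _ (by omega))

end Pool.Agent.Work.MP_936a99_pt
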