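import Pool.Agent.Work.MP_936a99_pt.Interface

/-! Block QRA: `SL_m(F_p)` is quasirandom. helper89 -/

namespace Pool.Agent.Work.MP_936a99_pt

open Matrix Pointwise

namespace QRA

variable {ι : Type} [Fintype ι] [DecidableEq ι] {p : ℕ} [Fact p.Prime]

/-- kill the coordinate `i` -/
def kill (i : ι) (r : ι → ZMod p) : ι → ZMod p := fun j => if j = i then 0 else r j

theorem kill_self (i : ι) (r : ι → ZMod p) : kill i r i = 0 := by simp [kill]

theorem kill_ne (i : ι) (r : ι → ZMod p) {j : ι} (h : j ≠ i) : kill i r j = r j := by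
  simp [kill, h]

theorem kill_add (i : ι) (r s : ι → ZMod p) : kill i (r + s) = kill i r + kill i s := by
  funext j
  by_cases h : j = i <;> simp [kill, h]

theorem kill_zero (i : ι) : kill i (0 : ι → ZMod p) = 0 := by
  funext j
  by_cases h : j = i <;> simp [kill, h]

theorem kill_of (i : ι) (r : ι → ZMod p) (h : r i = 0) : kill i r = r := by
  funext j
  by_cases hj : j = i
  · subst hj; simp [kill, h]
  · simp [kill, hj]

/-- the matrix of a transvection -/
def um (i : ι) (r : ι → ZMod p) : Matrix ι ι (ZMod p) :=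
  1 + Matrix.vecMulVec (Pi.single i 1) r

theorem um_det (i : ι) (r : ι → ZMod p) (h : r i = 0) : (um i r).det = 1 := by
  unfold um
  rw [Matrix.vecMulVec_eq (Fin 1), Matrix.det_one_add_replicateCol_mul_replicateRow]
  simp [h]

theorem um_mul (i : ι) (r s : ι → ZMod p) (h : r i = 0) :
    um i r * um i s = um i (r + s) := by
  unfold um
  rw [Matrix.add_mul, Matrix.one_mul, Matrix.mul_add, Matrix.mul_one,
    Matrix.vecMulVec_mul_vecMulVec]
  have h1 : r ⬝ᵥ (Pi.single i 1 : ι → ZMod p) = 0 := by simp [h]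
  rw [h1, zero_smul, Matrix.vecMulVec_zero, add_zero, Matrix.vecMulVec_add, add_assoc,
    add_comm (Matrix.vecMulVec (Pi.single i 1) s)]

/-- transvections in `SL` -/
def ue (i : ι) (r : ι → ZMod p) : SLI ι p :=
  ⟨um i (kill i r), um_det i _ (kill_self i r)⟩

theorem ue_zero (i : ι) : ue i (0 : ι → ZMod p) = 1 := by
  apply Subtype.ext
  show um i (kill i 0) = 1
  rw [kill_zero]
  simp [um]

theorem ue_add (i : ι) (r s : ι → ZMod p) : ue i (r + s) = ue i r * ue i s := by
  apply Subtype.ext
  show um i (kill i (r + s)) = um i (kill i r) * um i (kill i s)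
  rw [um_mul i _ _ (kill_self i r), kill_add]

theorem ue_isU (i : ι) (r : ι → ZMod p) : IsU i (kill i r) (ue i r) := rfl

theorem isU_eq (i : ι) (r : ι → ZMod p) (h : r i = 0) (g : SLI ι p) (hg : IsU i r g) :
    g = ue i r := by
  apply Subtype.ext
  show (g : Matrix ι ι (ZMod p)) = um i (kill i r)
  rw [kill_of i r h]
  exact hg

theorem ue_inj (i : ι) (r s : ι → ZMod p) (h : ue i r = ue i s) (j : ι) (hj : j ≠ i) :
    r j = s j := by
  have h1 : um i (kill i r) = um i (kill i s) := congrArg Subtype.val h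
  unfold um at h1
  have h2 := congrFun (congrFun h1 i) j
  simp only [Matrix.add_apply, Matrix.vecMulVec_apply, Pi.single_eq_same, one_mul] at h2
  have h3 := add_left_cancel h2
  rwa [kill_ne i r hj, kill_ne i s hj] at h3

/-- right translation on an invariant space -/
def rho {G : Type} [Group G] (W : Submodule ℂ (G → ℂ)) (hW : RInv W) (g : G) : W →ₗ[ℂ] W where
  toFun f := ⟨fun x => f.1 (x * g), hW g f.1 f.2⟩
  map_add' f f' := by
    apply Subtype.ext
    rfl
  map_smul' c f := by
    apply Subtype.ext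
    rfl

theorem rho_mul {G : Type} [Group G] (W : Submodule ℂ (G → ℂ)) (hW : RInv W) (g h : G)
    (f : W) : rho W hW (g * h) f = rho W hW g (rho W hW h f) := by
  apply Subtype.ext
  funext x
  show f.1 (x * (g * h)) = f.1 ((x * g) * h)
  rw [mul_assoc]

theorem rho_one {G : Type} [Group G] (W : Submodule ℂ (G → ℂ)) (hW : RInv W)
    (f : W) : rho W hW 1 f = f := by
  apply Subtype.ext
  funext x
  show f.1 (x * 1) = f.1 x
  rw [mul_one]

theorem rho_inj {G : Type} [Group G] (W : Submodule ℂ (G → ℂ)) (hW : RInv W) (g : G)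
    (f : W) (hf : f ≠ 0) : rho W hW g f ≠ 0 := by
  intro h
  apply hf
  have h1 : rho W hW (g⁻¹ * g) f = 0 := by rw [rho_mul, h, map_zero]
  rwa [inv_mul_cancel, rho_one] at h1

/-- the kernel of the representation on `W` -/
def ker {G : Type} [Group G] (W : Submodule ℂ (G → ℂ)) (hW : RInv W) : Subgroup G where
  carrier := {g | ∀ f : W, rho W hW g f = f}
  mul_mem' := by
    intro a b ha hb f
    rw [rho_mul, hb f, ha f]
  one_mem' := fun f => rho_one W hW f
  inv_mem' := by
    intro a ha f
    have h1 : rho W hW (a⁻¹ * a) f = rho W hW a⁻¹ f := by rw [rho_mul, ha f]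
    rw [inv_mul_cancel, rho_one] at h1
    exact h1.symm

theorem ker_normal {G : Type} [Group G] (W : Submodule ℂ (G → ℂ)) (hW : RInv W) :
    (ker W hW).Normal := by
  constructor
  intro n hn g f
  rw [rho_mul, rho_mul, hn, ← rho_mul, mul_inv_cancel, rho_one]

theorem ker_top {G : Type} [Group G] (W : Submodule ℂ (G → ℂ)) (hW : RInv W)
    (h : ker W hW = ⊤) (hc : ∀ f ∈ W, (∀ x y, f x = f y) → f = 0) : W = ⊥ := by
  rw [Submodule.eq_bot_iff]
  intro f hf
  apply hc f hf
  have h1 : ∀ x, f x = f 1 := by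
    intro x
    have hx : x ∈ ker W hW := by rw [h]; exact Subgroup.mem_top x
    have h2 := hx ⟨f, hf⟩
    have h3 := congrFun (congrArg Subtype.val h2) 1
    have h4 : f (1 * x) = f 1 := h3
    rwa [one_mul] at h4
  intro x y
  rw [h1 x, h1 y]

end QRA

/-- QRA: `SL_m(F_p)` is quasirandom. -/
theorem qra (hQRE : Stmt_QRE) (hQRI : Stmt_QRI) (hQRU : Stmt_QRU) (hNORM : Stmt_NORM) :
    Stmt_QRA := by
  intro ι _ _ p _ hm hp hmp W hW hW0 hWc
  have hne : Nonempty ι := Fintype.card_pos_iff.mp (by omega)
  obtain ⟨i⟩ := hne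
  obtain ⟨j, hj⟩ : ∃ j : ι, j ≠ i := by
    by_contra hcon
    push Not at hcon
    have : Fintype.card ι ≤ 1 := Fintype.card_le_one_iff.mpr
      (fun a b => by rw [hcon a, hcon b])
    omega
  have : Finite (SLI ι p) := inferInstance
  have : FiniteDimensional ℂ (SLI ι p → ℂ) := by
    have := Fintype.ofFinite (SLI ι p)
    infer_instance
  let u : (ι → ZMod p) → (W →ₗ[ℂ] W) := fun r => QRA.rho W hW (QRA.ue i r)
  have hu0 : u 0 = LinearMap.id := by
    apply LinearMap.ext
    intro f
    show QRA.rho W hW (QRA.ue i 0) f = f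
    rw [QRA.ue_zero, QRA.rho_one]
  have hua : ∀ r s, u (r + s) = u r ∘ₗ u s := by
    intro r s
    apply LinearMap.ext
    intro f
    show QRA.rho W hW (QRA.ue i (r + s)) f = QRA.rho W hW (QRA.ue i r)
      (QRA.rho W hW (QRA.ue i s) f)
    rw [QRA.ue_add, QRA.rho_mul]
  by_cases hid : ∃ r, u r ≠ LinearMap.id
  · obtain ⟨v, w, hv, hw, hvw⟩ := hQRE ι W p u hu0 hua hid
    have hvi : v i = 0 := by
      have h1 := hvw (Pi.single i 1)
      have h2 : QRA.ue i (Pi.single i 1 : ι → ZMod p) = 1 := by
        rw [← QRA.ue_zero i]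
        apply Subtype.ext
        show QRA.um i (QRA.kill i _) = QRA.um i (QRA.kill i _)
        congr 1
        funext k
        by_cases hk : k = i
        · subst hk; rw [QRA.kill_self, QRA.kill_self]
        · rw [QRA.kill_ne i _ hk, QRA.kill_ne i _ hk]
          simp [hk]
      have h3 : u (Pi.single i 1) w = w := by
        show QRA.rho W hW (QRA.ue i _) w = w
        rw [h2, QRA.rho_one]
      rw [h3] at h1
      have h4 : (Pi.single i 1 : ι → ZMod p) ⬝ᵥ v = v i := by simp
      rw [h4] at h1
      have h5 : (ZMod.stdAddChar (v i) : ℂ) = 1 := by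
        have h6 : ∀ c : ℂ, w = c • w → c = 1 := by
          intro c hc
          by_contra hc1
          apply hw
          have h7 : (1 - c) • w = 0 := by
            rw [sub_smul (1 : ℂ) c w, one_smul, ← hc, sub_self]
          rcases smul_eq_zero.mp h7 with h8 | h8
          · exact absurd (sub_eq_zero.mp h8).symm hc1
          · exact h8
        exact h6 _ h1
      have h8 : (ZMod.stdAddChar (v i) : ℂ) = ZMod.stdAddChar (0 : ZMod p) := by
        rw [h5, AddChar.map_zero_eq_one]
      exact ZMod.injective_stdAddChar h8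
    obtain ⟨S, hS, hS'⟩ := hQRU ι p i v hm hvi hv
    have hle := hQRI ι W p u S (by
      intro v' hv'
      obtain ⟨hv'i, g, hg⟩ := hS' v' hv'
      refine ⟨QRA.rho W hW g w, QRA.rho_inj W hW g w hw, ?_⟩
      intro r
      obtain ⟨r', hr'i, hr'U, hr'd⟩ := hg (QRA.kill i r) (QRA.ue i r) (QRA.kill_self i r)
        (QRA.ue_isU i r)
      have h1 : g⁻¹ * QRA.ue i r * g = QRA.ue i r' := QRA.isU_eq i r' hr'i _ hr'U
      have h2 : QRA.ue i r * g = g * QRA.ue i r' := by
        rw [← h1]; group
      have h3 : QRA.kill i r ⬝ᵥ v' = r ⬝ᵥ v' := by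
        apply Finset.sum_congr rfl
        intro k _
        by_cases hk : k = i
        · subst hk; rw [hv'i, mul_zero, mul_zero]
        · rw [QRA.kill_ne i r hk]
      show QRA.rho W hW (QRA.ue i r) (QRA.rho W hW g w) = _
      rw [← QRA.rho_mul, h2, QRA.rho_mul]
      have h4 : QRA.rho W hW (QRA.ue i r') w = ZMod.stdAddChar (r' ⬝ᵥ v) • w := hvw r'
      rw [h4, map_smul, hr'd, h3])
    omega
  · exfalso
    push Not at hid
    apply hW0
    apply QRA.ker_top W hW _ hWc
    by_contra htop
    have hcard := hNORM ι p hp (QRA.ker W hW) (QRA.ker_normal W hW) htop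
    have hinj : p ≤ Nat.card (QRA.ker W hW) := by
      have h1 : Function.Injective (fun c : ZMod p =>
          (⟨QRA.ue i (Pi.single j c), by
            intro f
            have := LinearMap.congr_fun (hid (Pi.single j c)) f
            exact this⟩ : QRA.ker W hW)) := by
        intro c d hcd
        have h2 : QRA.ue i (Pi.single j c) = QRA.ue i (Pi.single j d) :=
          congrArg Subtype.val hcd
        have h3 := QRA.ue_inj i _ _ h2 j hj
        simpa using h3
      have h2 := Nat.card_le_card_of_injective _ h1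
      rwa [Nat.card_zmod] at h2
    omega

end Pool.Agent.Work.MP_936a99_pt
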