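import Pool.Agent.Work.MP_936a99_pt.Interface

/-! Block QRB: product sets in quasirandom groups. helper23 -/

namespace Pool.Agent.Work.MP_936a99_pt

open Matrix Pointwise
open scoped InnerProductSpace

namespace QRB

/-- largest eigenvalue of `L* L` -/
theorem exists_top {E : Type} [NormedAddCommGroup E] [InnerProductSpace ℂ E]
    [FiniteDimensional ℂ E] [Nontrivial E] (L : E →ₗ[ℂ] E) :
    ∃ l : ℝ, 0 ≤ l ∧ (∀ f, ‖L f‖ ^ 2 ≤ l * ‖f‖ ^ 2) ∧
      ∃ f, f ≠ 0 ∧ (LinearMap.adjoint L) (L f) = (l : ℂ) • f := by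
  classical
  set T : E →ₗ[ℂ] E := (LinearMap.adjoint L) ∘ₗ L with hTdef
  have hT : T.IsSymmetric := by
    intro x y
    simp [hTdef, LinearMap.adjoint_inner_left, LinearMap.adjoint_inner_right]
  obtain ⟨n, hn⟩ : ∃ n, Module.finrank ℂ E = n := ⟨_, rfl⟩
  have hnpos : 0 < n := by rw [← hn]; exact Module.finrank_pos
  have : Nonempty (Fin n) := ⟨⟨0, hnpos⟩⟩
  obtain ⟨i0, hi0⟩ := Finite.exists_max (fun i => hT.eigenvalues hn i)
  set b := hT.eigenvectorBasis hn with hb
  set l := hT.eigenvalues hn i0 with hl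
  have hev : ∀ i, T (b i) = (hT.eigenvalues hn i : ℂ) • b i :=
    fun i => hT.apply_eigenvectorBasis hn i
  have hbn : ∀ i, ‖b i‖ = 1 := fun i => b.orthonormal.1 i
  have hTin : ∀ f g : E, ⟪f, T g⟫_ℂ = ⟪L f, L g⟫_ℂ := by
    intro f g
    simp [hTdef, LinearMap.adjoint_inner_right]
  have hnn : ∀ i, 0 ≤ hT.eigenvalues hn i := by
    intro i
    have h1 : ⟪b i, T (b i)⟫_ℂ = (hT.eigenvalues hn i : ℂ) := by
      rw [hev, inner_smul_right, inner_self_eq_norm_sq_to_K, hbn]; simp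
    rw [hTin, inner_self_eq_norm_sq_to_K] at h1
    have h2 : ((‖L (b i)‖ ^ 2 : ℝ) : ℂ) = ((hT.eigenvalues hn i : ℝ) : ℂ) := by
      rw [← h1]; push_cast; rfl
    have h3 := Complex.ofReal_injective h2
    rw [← h3]; positivity
  refine ⟨l, hnn i0, ?_, b i0, ?_, ?_⟩
  · intro f
    have key : ∀ g : E, ⟪f, g⟫_ℂ = ∑ i, ⟪f, b i⟫_ℂ * ⟪b i, g⟫_ℂ :=
      fun g => (b.sum_inner_mul_inner f g).symm
    have h1 : (‖L f‖ ^ 2 : ℝ) = ∑ i, hT.eigenvalues hn i * ‖⟪b i, f⟫_ℂ‖ ^ 2 := by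
      apply Complex.ofReal_injective
      have h2 : ((‖L f‖ ^ 2 : ℝ) : ℂ) = ⟪f, T f⟫_ℂ := by
        rw [hTin, inner_self_eq_norm_sq_to_K]; push_cast; rfl
      rw [h2, key]
      push_cast
      refine Finset.sum_congr rfl fun i _ => ?_
      rw [← hT (b i) f, hev, inner_smul_left, Complex.conj_ofReal]
      rw [← inner_conj_symm f (b i)]
      have h3 : (starRingEnd ℂ) ⟪b i, f⟫_ℂ * ⟪b i, f⟫_ℂ = ((‖⟪b i, f⟫_ℂ‖ : ℂ)) ^ 2 := by
        rw [RCLike.conj_mul]; rfl
      calc (starRingEnd ℂ) ⟪b i, f⟫_ℂ * ((hT.eigenvalues hn i : ℂ) * ⟪b i, f⟫_ℂ)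
          = (hT.eigenvalues hn i : ℂ) * ((starRingEnd ℂ) ⟪b i, f⟫_ℂ * ⟪b i, f⟫_ℂ) := by ring
        _ = _ := by rw [h3]
    have h4 : (‖f‖ ^ 2 : ℝ) = ∑ i, ‖⟪b i, f⟫_ℂ‖ ^ 2 := (b.sum_sq_norm_inner_right f).symm
    rw [h1, h4, Finset.mul_sum]
    exact Finset.sum_le_sum fun i _ => mul_le_mul_of_nonneg_right (hi0 i) (by positivity)
  · intro h
    have := hbn i0
    rw [h] at this
    simp at this
  · exact hev i0

/-- trace bound for an eigenspace of `L* L` -/
theorem trace_bound {G : Type} [Fintype G] [DecidableEq G]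
    (L : EuclideanSpace ℂ G →ₗ[ℂ] EuclideanSpace ℂ G)
    (t : G → EuclideanSpace ℂ G) (hL : ∀ f x, (L f) x = ⟪t x, f⟫_ℂ)
    (W : Submodule ℂ (EuclideanSpace ℂ G)) (l : ℝ)
    (hW : ∀ f ∈ W, (LinearMap.adjoint L) (L f) = (l : ℂ) • f) :
    (Module.finrank ℂ W : ℝ) * l ≤ ∑ x, ‖t x‖ ^ 2 := by
  classical
  set b := stdOrthonormalBasis ℂ W with hb
  have h1 : ∀ i, ‖L (b i : EuclideanSpace ℂ G)‖ ^ 2 = l := by
    intro i
    have h2 : ⟪(b i : EuclideanSpace ℂ G), (LinearMap.adjoint L) (L (b i))⟫_ℂ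
        = ⟪L (b i : EuclideanSpace ℂ G), L (b i)⟫_ℂ := by
      rw [LinearMap.adjoint_inner_right]
    rw [hW _ (b i).2, inner_smul_right, inner_self_eq_norm_sq_to_K, inner_self_eq_norm_sq_to_K] at h2
    have h3 : ‖(b i : EuclideanSpace ℂ G)‖ = 1 := b.orthonormal.1 i
    rw [h3] at h2
    have h4 : ((l : ℝ) : ℂ) = ((‖L (b i : EuclideanSpace ℂ G)‖ ^ 2 : ℝ) : ℂ) := by
      have : (l : ℂ) * ((1 : ℝ) : ℂ) ^ 2 = ((‖L (b i : EuclideanSpace ℂ G)‖ : ℝ) : ℂ) ^ 2 := h2
      push_cast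
      rw [← this]; simp
    exact (Complex.ofReal_injective h4).symm
  have hon : Orthonormal ℂ (fun i => (b i : EuclideanSpace ℂ G)) := by
    have := b.orthonormal
    exact this.comp_linearIsometry W.subtypeₗᵢ
  calc (Module.finrank ℂ W : ℝ) * l
      = ∑ i, ‖L (b i : EuclideanSpace ℂ G)‖ ^ 2 := by
        rw [Finset.sum_congr rfl (fun i _ => h1 i)]
        simp
    _ = ∑ i, ∑ x, ‖⟪t x, (b i : EuclideanSpace ℂ G)⟫_ℂ‖ ^ 2 := by
        refine Finset.sum_congr rfl fun i _ => ?_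
        rw [EuclideanSpace.norm_sq_eq]
        refine Finset.sum_congr rfl fun x _ => ?_
        rw [hL]
    _ = ∑ x, ∑ i, ‖⟪(b i : EuclideanSpace ℂ G), t x⟫_ℂ‖ ^ 2 := by
        rw [Finset.sum_comm]
        refine Finset.sum_congr rfl fun x _ => Finset.sum_congr rfl fun i _ => ?_
        rw [norm_inner_symm]
    _ ≤ ∑ x, ‖t x‖ ^ 2 :=
        Finset.sum_le_sum fun x _ => Orthonormal.sum_inner_products_le (t x) hon

variable {G : Type} [Group G] [Fintype G] [DecidableEq G]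

/-- rows of the centred convolution matrix -/
noncomputable def tr (A : Finset G) (x y : G) : ℝ :=
  (if x * y⁻¹ ∈ A then 1 else 0) - (A.card : ℝ) / Fintype.card G

noncomputable def tv (A : Finset G) (x : G) : EuclideanSpace ℂ G :=
  WithLp.toLp 2 (fun y => (tr A x y : ℂ))

theorem tr_shift (A : Finset G) (x y g : G) : tr A x (y * g⁻¹) = tr A (x * g) y := by
  unfold tr
  simp [mul_assoc]

theorem card_pos' : (0 : ℝ) < Fintype.card G := by
  exact_mod_cast Fintype.card_pos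

theorem sum_ind (A : Finset G) (x : G) : ∑ y, (if x * y⁻¹ ∈ A then (1:ℝ) else 0) = A.card := by
  rw [← Equiv.sum_comp ((Equiv.inv G).trans (Equiv.mulRight x))]
  simp

theorem sum_tr (A : Finset G) (x : G) : ∑ y, tr A x y = 0 := by
  unfold tr
  rw [Finset.sum_sub_distrib, sum_ind]
  have := card_pos' (G := G)
  simp [mul_div_cancel₀, this.ne']

theorem sum_tr_sq (A : Finset G) (x : G) : ∑ y, (tr A x y) ^ 2 ≤ A.card := by
  have h : ∀ y, (tr A x y) ^ 2 = (1 - 2 * ((A.card : ℝ) / Fintype.card G)) *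
      (if x * y⁻¹ ∈ A then (1:ℝ) else 0) + ((A.card : ℝ) / Fintype.card G) ^ 2 := by
    intro y
    unfold tr
    split_ifs <;> ring
  rw [Finset.sum_congr rfl fun y _ => h y, Finset.sum_add_distrib, ← Finset.mul_sum, sum_ind]
  have := card_pos' (G := G)
  simp only [Finset.sum_const, Finset.card_univ, nsmul_eq_mul]
  have h2 : (Fintype.card G : ℝ) * ((A.card : ℝ) / Fintype.card G) ^ 2
      = (A.card : ℝ) / Fintype.card G * A.card := by
    field_simp
  rw [h2]
  have h3 : 0 ≤ (A.card : ℝ) / Fintype.card G * A.card := by positivity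
  nlinarith

theorem norm_tv (A : Finset G) (x : G) : ‖tv A x‖ ^ 2 ≤ A.card := by
  rw [EuclideanSpace.norm_sq_eq]
  refine le_trans (le_of_eq ?_) (sum_tr_sq A x)
  refine Finset.sum_congr rfl fun y _ => ?_
  simp [tv]

theorem inner_tv (A : Finset G) (x : G) (f : EuclideanSpace ℂ G) :
    ⟪tv A x, f⟫_ℂ = ∑ y, (tr A x y : ℂ) * f y := by
  rw [PiLp.inner_apply]
  refine Finset.sum_congr rfl fun y _ => ?_
  simp [tv, mul_comm]

noncomputable def LL (A : Finset G) : EuclideanSpace ℂ G →ₗ[ℂ] EuclideanSpace ℂ G where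
  toFun f := WithLp.toLp 2 (fun x => ⟪tv A x, f⟫_ℂ)
  map_add' f g := by
    ext x
    simp
  map_smul' c f := by
    ext x
    simp

theorem LL_apply (A : Finset G) (f : EuclideanSpace ℂ G) (x : G) :
    (LL A f) x = ⟪tv A x, f⟫_ℂ := rfl

/-- right translation -/
noncomputable def RR (g : G) : EuclideanSpace ℂ G →ₗ[ℂ] EuclideanSpace ℂ G where
  toFun f := WithLp.toLp 2 (fun x => f (x * g))
  map_add' f h := by
    ext x
    simp
  map_smul' c f := by
    ext x
    simp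

theorem RR_apply (g : G) (f : EuclideanSpace ℂ G) (x : G) : (RR g f) x = f (x * g) := rfl

theorem inner_RR (g : G) (f h : EuclideanSpace ℂ G) : ⟪RR g f, h⟫_ℂ = ⟪f, RR g⁻¹ h⟫_ℂ := by
  rw [PiLp.inner_apply, PiLp.inner_apply, ← Equiv.sum_comp (Equiv.mulRight g⁻¹)]
  refine Finset.sum_congr rfl fun y _ => ?_
  simp [RR_apply]

theorem LL_RR (A : Finset G) (g : G) (f : EuclideanSpace ℂ G) : LL A (RR g f) = RR g (LL A f) := by
  ext x
  rw [LL_apply, RR_apply, LL_apply, inner_tv, inner_tv, ← Equiv.sum_comp (Equiv.mulRight g⁻¹)]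
  refine Finset.sum_congr rfl fun y _ => ?_
  simp [RR_apply, tr_shift]

theorem adj_RR (A : Finset G) (g : G) (f : EuclideanSpace ℂ G) :
    (LinearMap.adjoint (LL A)) (RR g f) = RR g ((LinearMap.adjoint (LL A)) f) := by
  refine ext_inner_right ℂ fun h => ?_
  rw [LinearMap.adjoint_inner_left, inner_RR, inner_RR, LinearMap.adjoint_inner_left, LL_RR]

/-- number of representations -/
noncomputable def rep (A X : Finset G) (x : G) : ℝ :=
  ∑ y ∈ X, (if x * y⁻¹ ∈ A then (1:ℝ) else 0)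

theorem sum_rep (A X : Finset G) : ∑ x, rep A X x = A.card * X.card := by
  unfold rep
  rw [Finset.sum_comm]
  have h : ∀ y ∈ X, ∑ x, (if x * y⁻¹ ∈ A then (1:ℝ) else 0) = A.card := by
    intro y _
    rw [← Equiv.sum_comp (Equiv.mulRight y)]
    simp
  rw [Finset.sum_congr rfl h]
  simp [mul_comm]

theorem rep_zero (A X : Finset G) (x : G) (hx : x ∉ A * X) : rep A X x = 0 := by
  unfold rep
  refine Finset.sum_eq_zero fun y hy => ?_
  rw [if_neg]
  intro h
  apply hx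
  rw [Finset.mem_mul]
  exact ⟨x * y⁻¹, h, y, hy, by group⟩

theorem sq_rep (A X : Finset G) :
    ((A.card : ℝ) * X.card) ^ 2 ≤ (A * X).card * ∑ x, (rep A X x) ^ 2 := by
  have h1 : ∑ x ∈ A * X, rep A X x = A.card * X.card := by
    rw [← sum_rep]
    exact Finset.sum_subset (Finset.subset_univ _) fun x _ hx => rep_zero A X x hx
  have h2 : ∑ x ∈ A * X, (rep A X x) ^ 2 = ∑ x, (rep A X x) ^ 2 :=
    Finset.sum_subset (Finset.subset_univ _) fun x _ hx => by rw [rep_zero A X x hx]; simp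
  rw [← h1, ← h2]
  exact sq_sum_le_card_mul_sum_sq

theorem norm_LL_ind (A X : Finset G) :
    ‖LL A (WithLp.toLp 2 (fun y => if y ∈ X then (1:ℂ) else 0))‖ ^ 2 =
      ∑ x, (rep A X x) ^ 2 - ((A.card : ℝ) * X.card) ^ 2 / Fintype.card G := by
  rw [EuclideanSpace.norm_sq_eq]
  have h : ∀ x, (LL A (WithLp.toLp 2 (fun y => if y ∈ X then (1:ℂ) else 0))) x =
      ((rep A X x - (A.card : ℝ) * X.card / Fintype.card G : ℝ) : ℂ) := by
    intro x
    rw [LL_apply, inner_tv]
    have h1 : ∀ y, (tr A x y : ℂ) * (WithLp.toLp 2 (fun y => if y ∈ X then (1:ℂ) else 0)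
        : EuclideanSpace ℂ G) y = if y ∈ X then (tr A x y : ℂ) else 0 := by
      intro y
      simp
    rw [Finset.sum_congr rfl fun y _ => h1 y, Finset.sum_ite_mem, Finset.univ_inter,
      ← Complex.ofReal_sum]
    unfold tr rep
    rw [Finset.sum_sub_distrib, Finset.sum_const, nsmul_eq_mul]
    congr 2
    rw [mul_div_assoc', mul_comm]
  simp only [h]
  have hpos := card_pos' (G := G)
  have h2 : ∀ x, ‖((rep A X x - (A.card : ℝ) * X.card / Fintype.card G : ℝ) : ℂ)‖ ^ 2 =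
      (rep A X x) ^ 2 - 2 * ((A.card : ℝ) * X.card / Fintype.card G) * rep A X x
        + ((A.card : ℝ) * X.card / Fintype.card G) ^ 2 := by
    intro x
    rw [Complex.norm_real, Real.norm_eq_abs, sq_abs]
    ring
  rw [Finset.sum_congr rfl fun x _ => h2 x, Finset.sum_add_distrib, Finset.sum_sub_distrib,
    ← Finset.mul_sum, sum_rep]
  simp only [Finset.sum_const, Finset.card_univ, nsmul_eq_mul]
  field_simp
  ring

theorem norm_ind (X : Finset G) :
    ‖(WithLp.toLp 2 (fun y => if y ∈ X then (1:ℂ) else 0) : EuclideanSpace ℂ G)‖ ^ 2 = X.card := by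
  rw [EuclideanSpace.norm_sq_eq]
  have : ∀ y, ‖(WithLp.toLp 2 (fun y => if y ∈ X then (1:ℂ) else 0) : EuclideanSpace ℂ G) y‖ ^ 2
      = if y ∈ X then (1:ℝ) else 0 := by
    intro y
    simp only []
    split_ifs <;> simp
  rw [Finset.sum_congr rfl fun y _ => this y]
  simp

theorem main (D : ℕ) (hQ : QR G D) (A X : Finset G) (h2 : 2 * (A * X).card ≤ Fintype.card G) :
    D * (A.card * X.card) ≤ 8 * (A * X).card * Fintype.card G := by
  rcases Nat.eq_zero_or_pos (A.card * X.card) with h0 | hm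
  · rw [h0]; simp
  obtain ⟨l, hl0, hle, f0, hf0, hf0e⟩ := exists_top (LL A)
  set s : ℝ := ((A * X).card : ℝ) with hs
  set N : ℝ := (Fintype.card G : ℝ) with hN
  set m : ℝ := (A.card : ℝ) * X.card with hmdef
  have hNpos : 0 < N := card_pos'
  have hmpos : 0 < m := by rw [hmdef]; exact_mod_cast hm
  have hXpos : (0:ℝ) < X.card := by
    exact_mod_cast Nat.pos_of_ne_zero (fun h => by simp [h] at hm)
  have hApos : (0:ℝ) < A.card := by
    exact_mod_cast Nat.pos_of_ne_zero (fun h => by simp [h] at hm)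
  have h2' : 2 * s ≤ N := by rw [hs, hN]; exact_mod_cast h2
  have hs0 : 0 ≤ s := by positivity
  have hsq := sq_rep A X
  have hind := norm_LL_ind A X
  have hb := hle (WithLp.toLp 2 (fun y => if y ∈ X then (1:ℂ) else 0))
  rw [hind, norm_ind] at hb
  have hkey : m ^ 2 / 2 ≤ s * (l * X.card) := by
    have h3 : s * (∑ x, (rep A X x) ^ 2 - m ^ 2 / N) ≤ s * (l * X.card) :=
      mul_le_mul_of_nonneg_left hb hs0
    have h4 : s * (m ^ 2 / N) ≤ m ^ 2 / 2 := by
      rw [mul_div_assoc', div_le_div_iff₀ hNpos two_pos]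
      nlinarith [sq_nonneg m]
    nlinarith
  have hlpos : 0 < l := by
    rcases hl0.lt_or_eq with h | h
    · exact h
    · rw [← h] at hkey
      nlinarith [pow_pos hmpos 2]
  -- the eigenspace
  set W' : Submodule ℂ (EuclideanSpace ℂ G) :=
    LinearMap.ker ((LinearMap.adjoint (LL A)) ∘ₗ LL A - (l : ℂ) • LinearMap.id) with hW'
  have hmem : ∀ f, f ∈ W' ↔ (LinearMap.adjoint (LL A)) (LL A f) = (l : ℂ) • f := by
    intro f
    rw [hW', LinearMap.mem_ker, LinearMap.sub_apply, sub_eq_zero]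
    rfl
  set φ := WithLp.linearEquiv 2 ℂ (G → ℂ) with hφ
  set W : Submodule ℂ (G → ℂ) := W'.map (φ : WithLp 2 (G → ℂ) →ₗ[ℂ] (G → ℂ)) with hW
  have hfin : Module.finrank ℂ W = Module.finrank ℂ W' := LinearEquiv.finrank_map_eq φ W'
  have hRI : RInv W := by
    rintro g f ⟨f', hf', rfl⟩
    refine ⟨RR g f', ?_, rfl⟩
    have h1 := (hmem f').1 hf'
    refine (hmem _).2 ?_
    rw [LL_RR, adj_RR, h1, map_smul]
  have hne : W ≠ ⊥ := by
    intro h
    have h1 : φ f0 ∈ W := ⟨f0, (hmem f0).2 hf0e, rfl⟩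
    rw [h, Submodule.mem_bot] at h1
    exact hf0 (by simpa using h1)
  have hnc : ∀ f ∈ W, (∀ x y, f x = f y) → f = 0 := by
    rintro f ⟨f', hf', rfl⟩ hc
    have h1 := (hmem f').1 hf'
    have hc' : ∀ x y, f' x = f' y := fun x y => hc x y
    have h3 : LL A f' = 0 := by
      ext x
      rw [LL_apply, inner_tv]
      have : ∀ y, (tr A x y : ℂ) * f' y = (tr A x y : ℂ) * f' x := fun y => by rw [hc' y x]
      rw [Finset.sum_congr rfl fun y _ => this y, ← Finset.sum_mul, ← Complex.ofReal_sum, sum_tr]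
      simp
    rw [h3, map_zero] at h1
    have h4 : f' = 0 := by
      rcases smul_eq_zero.1 h1.symm with h | h
      · exact absurd (by exact_mod_cast h) hlpos.ne'
      · exact h
    rw [h4]
    simp
  have hD := hQ W hRI hne hnc
  rw [hfin] at hD
  have hk1 : 1 ≤ Module.finrank ℂ W' := by
    rw [← hfin]
    rcases Nat.eq_zero_or_pos (Module.finrank ℂ W) with h | h
    · exact absurd (Submodule.finrank_eq_zero.1 h) hne
    · exact h
  have htr := trace_bound (LL A) (tv A) (fun f x => LL_apply A f x) W' l (fun f hf => (hmem f).1 hf)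
  have htr2 : (Module.finrank ℂ W' : ℝ) * l ≤ N * A.card := by
    refine htr.trans ((Finset.sum_le_sum fun x _ => norm_tv A x).trans (le_of_eq ?_))
    simp [hN]
  set k : ℝ := (Module.finrank ℂ W' : ℝ) with hk
  have hk1' : 1 ≤ k := by rw [hk]; exact_mod_cast hk1
  have hD' : (D : ℝ) ≤ 2 * k + 1 := by rw [hk]; exact_mod_cast hD
  have hfin2 : k * m ≤ 2 * s * N := by
    have h5 : k * (m ^ 2 / 2) ≤ s * X.card * (N * A.card) := by
      calc k * (m ^ 2 / 2) ≤ k * (s * (l * X.card)) :=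
            mul_le_mul_of_nonneg_left hkey (by linarith)
        _ = s * X.card * (k * l) := by ring
        _ ≤ s * X.card * (N * A.card) := mul_le_mul_of_nonneg_left htr2 (by positivity)
    have h6 : s * X.card * (N * A.card) = s * N * m := by rw [hmdef]; ring
    rw [h6] at h5
    have h7 : (k * m) * m ≤ (2 * s * N) * m := by nlinarith
    exact le_of_mul_le_mul_right h7 hmpos
  have hfinal : (D : ℝ) * m ≤ 8 * s * N := by
    have h8 : (D : ℝ) * m ≤ (3 * k) * m := mul_le_mul_of_nonneg_right (by linarith) hmpos.le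
    have h9 : 0 ≤ s * N := by positivity
    nlinarith
  have : ((D * (A.card * X.card) : ℕ) : ℝ) ≤ ((8 * (A * X).card * Fintype.card G : ℕ) : ℝ) := by
    push_cast
    exact hfinal
  exact_mod_cast this

end QRB

theorem qrb : Stmt_QRB := by
  intro G _ _ D hQ A X h
  classical
  cases nonempty_fintype G
  lift A to Finset G using A.toFinite
  lift X to Finset G using X.toFinite
  rw [← Finset.coe_mul, Set.ncard_coe_finset, Nat.card_eq_fintype_card] at h
  rw [← Finset.coe_mul, Set.ncard_coe_finset, Set.ncard_coe_finset, Set.ncard_coe_finset,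
    Nat.card_eq_fintype_card]
  exact QRB.main D hQ A X h

end Pool.Agent.Work.MP_936a99_pt
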