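import Pool.Agent.Work.MP_936a99_pt.Interface

/-! MP_936a99_pt, block QRE (helper50): joint eigenvectors with nontrivial character. -/

set_option autoImplicit false

namespace Pool.Agent.Work.MP_936a99_pt

open Matrix Pointwise

namespace QRE

/-- orthogonality of the characters of the space of vectors -/
theorem orth {ι : Type} [Fintype ι] [DecidableEq ι] (p : ℕ) [Fact p.Prime] (r : ι → ZMod p) :
    ∑ v : ι → ZMod p, (ZMod.stdAddChar (r ⬝ᵥ v) : ℂ) =
      if r = 0 then (Fintype.card (ι → ZMod p) : ℂ) else 0 := by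
  let f : (ι → ZMod p) →+ ZMod p :=
    { toFun := fun v => r ⬝ᵥ v
      map_zero' := by simp
      map_add' := fun x y => by simp [dotProduct_add] }
  let ψ : AddChar (ι → ZMod p) ℂ := (ZMod.stdAddChar (N := p)).compAddMonoidHom f
  have h1 : ∀ v, (ZMod.stdAddChar (r ⬝ᵥ v) : ℂ) = ψ v := fun v => rfl
  simp_rw [h1]
  classical
  rw [AddChar.sum_eq_ite]
  have h2 : ψ = 0 ↔ r = 0 := by
    constructor
    · intro h
      funext i
      have h3 : ψ (Pi.single i 1) = 1 := by rw [h]; rfl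
      have h4 : (ZMod.stdAddChar (r ⬝ᵥ (Pi.single i 1 : ι → ZMod p)) : ℂ) = 1 := h3
      rw [dotProduct_single, mul_one, ← (ZMod.stdAddChar (N := p)).map_zero_eq_one] at h4
      exact ZMod.injective_stdAddChar h4
    · rintro rfl
      ext v
      rw [← h1]
      simp
  by_cases h : r = 0
  · rw [if_pos h, if_pos (h2.2 h)]
  · rw [if_neg h, if_neg (fun h' => h (h2.1 h'))]

end QRE

open QRE in
theorem qre : Stmt_QRE := by
  intro ι W _ _ _ _ p _ u h0 hadd hne
  -- the projections without normalisation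
  let e : (ι → ZMod p) → (W →ₗ[ℂ] W) := fun v =>
    ∑ r : ι → ZMod p, (ZMod.stdAddChar (-(r ⬝ᵥ v)) : ℂ) • u r
  have he : ∀ s v x, u s (e v x) = (ZMod.stdAddChar (s ⬝ᵥ v) : ℂ) • e v x := by
    intro s v x
    have h1 : e v x = ∑ r : ι → ZMod p, (ZMod.stdAddChar (-(r ⬝ᵥ v)) : ℂ) • u r x := by
      simp [e, LinearMap.sum_apply]
    have h2 : e v x = ∑ r : ι → ZMod p, (ZMod.stdAddChar (-((s + r) ⬝ᵥ v)) : ℂ) • u (s + r) x := by
      rw [h1]
      exact (Equiv.sum_comp (Equiv.addLeft s)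
        (fun r => (ZMod.stdAddChar (-(r ⬝ᵥ v)) : ℂ) • u r x)).symm
    conv_rhs => rw [h2]
    rw [h1, map_sum, Finset.smul_sum]
    refine Finset.sum_congr rfl fun r _ => ?_
    rw [map_smul, smul_smul, hadd, LinearMap.comp_apply, ← AddChar.map_add_eq_mul]
    congr 2
    rw [add_dotProduct]
    ring
  by_contra hcon
  push Not at hcon
  have hz : ∀ v, v ≠ 0 → e v = 0 := by
    intro v hv
    ext x
    by_contra hx
    obtain ⟨r, hr⟩ := hcon v (e v x) hv hx
    exact hr (he r v x)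
  have hsum : ∀ s, ∑ v : ι → ZMod p, (ZMod.stdAddChar (s ⬝ᵥ v) : ℂ) • e v =
      (Fintype.card (ι → ZMod p) : ℂ) • u s := by
    intro s
    have h1 : ∀ v, (ZMod.stdAddChar (s ⬝ᵥ v) : ℂ) • e v =
        ∑ r : ι → ZMod p, (ZMod.stdAddChar ((s - r) ⬝ᵥ v) : ℂ) • u r := by
      intro v
      simp only [e]
      rw [Finset.smul_sum]
      refine Finset.sum_congr rfl fun r _ => ?_
      rw [smul_smul, ← AddChar.map_add_eq_mul, sub_dotProduct, sub_eq_add_neg]
    simp_rw [h1]
    rw [Finset.sum_comm]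
    simp_rw [← Finset.sum_smul, orth]
    rw [Finset.sum_eq_single s]
    · simp
    · intro r _ hr
      rw [if_neg (sub_ne_zero.2 (Ne.symm hr)), zero_smul]
    · intro h; exact absurd (Finset.mem_univ _) h
  have hs : ∀ s, (Fintype.card (ι → ZMod p) : ℂ) • u s = e 0 := by
    intro s
    rw [← hsum s, Finset.sum_eq_single 0]
    · simp
    · intro v _ hv
      rw [hz v hv, smul_zero]
    · intro h; exact absurd (Finset.mem_univ _) h
  obtain ⟨r, hr⟩ := hne
  refine hr ?_
  have h1 := (hs r).trans (hs 0).symm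
  have h2 : (Fintype.card (ι → ZMod p) : ℂ) ≠ 0 := Nat.cast_ne_zero.2 Fintype.card_ne_zero
  rw [h0] at h1
  exact smul_right_injective _ h2 h1

end Pool.Agent.Work.MP_936a99_pt
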