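import Pool.Agent.Work.MP_936a99_pt.Interface

/-!
# QRI: joint eigenvectors with distinct characters are linearly independent
-/

namespace Pool.Agent.Work.MP_936a99_pt.QRI

open Matrix

/-- the additive character `r ↦ e(r ⬝ v)` -/
noncomputable def chi {ι : Type} [Fintype ι] {p : ℕ} [Fact p.Prime] (v : ι → ZMod p) :
    AddChar (ι → ZMod p) ℂ where
  toFun r := ZMod.stdAddChar (r ⬝ᵥ v)
  map_zero_eq_one' := by simp
  map_add_eq_mul' a b := by rw [add_dotProduct, AddChar.map_add_eq_mul]

theorem chi_apply {ι : Type} [Fintype ι] {p : ℕ} [Fact p.Prime] (v r : ι → ZMod p) :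
    chi v r = ZMod.stdAddChar (r ⬝ᵥ v) := rfl

theorem chi_injective {ι : Type} [Fintype ι] [DecidableEq ι] {p : ℕ} [Fact p.Prime] :
    Function.Injective (chi : (ι → ZMod p) → AddChar (ι → ZMod p) ℂ) := by
  intro v v' h
  funext i
  have h1 : chi v (Pi.single i 1) = chi v' (Pi.single i 1) := by rw [h]
  rw [chi_apply, chi_apply, single_dotProduct, single_dotProduct, one_mul, one_mul] at h1
  exact ZMod.injective_stdAddChar h1

end Pool.Agent.Work.MP_936a99_pt.QRI

namespace Pool.Agent.Work.MP_936a99_pt

open Matrix

theorem qri : Stmt_QRI := by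
  intro ι W _ _ _ _ _ p _ u S hS
  classical
  choose! w hw0 hw using hS
  have hli : LinearIndependent ℂ (fun v : S => w v.1) := by
    rw [Fintype.linearIndependent_iff]
    intro c hc v0
    -- apply `u r` and a functional
    have key : ∀ φ : Module.Dual ℂ W, c v0 * φ (w v0.1) = 0 := by
      intro φ
      have hchar : LinearIndependent ℂ
          (fun v : S => (QRI.chi v.1 : (ι → ZMod p) → ℂ)) := by
        have h0 := AddChar.linearIndependent (ι → ZMod p) ℂ
        exact h0.comp (fun v : S => QRI.chi v.1)
          (fun a b hab => Subtype.ext (QRI.chi_injective hab))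
      rw [Fintype.linearIndependent_iff] at hchar
      refine hchar (fun v => c v * φ (w v.1)) ?_ v0
      funext r
      have h1 : φ (u r (∑ v : S, c v • w v.1)) = 0 := by rw [hc]; simp
      rw [map_sum, map_sum] at h1
      rw [Finset.sum_apply, Pi.zero_apply, ← h1]
      refine Finset.sum_congr rfl fun v _ => ?_
      rw [Pi.smul_apply, smul_eq_mul, map_smul, hw v.1 v.2 r, QRI.chi_apply]
      simp only [map_smul, smul_eq_mul]
      ring
    have h2 : c v0 • w v0.1 = 0 := by
      rw [← Module.forall_dual_apply_eq_zero_iff ℂ]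
      intro φ
      rw [map_smul, smul_eq_mul]
      exact key φ
    exact (smul_eq_zero.1 h2).resolve_right (hw0 v0.1 v0.2)
  have h3 := hli.fintype_card_le_finrank
  rwa [Fintype.card_coe] at h3

end Pool.Agent.Work.MP_936a99_pt
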