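import Pool.Agent.Work.MP_936a99_pt.Interface

namespace Pool.Agent.Work.MP_936a99_pt

open Matrix Pointwise

namespace QRUh3

variable {ι : Type} [Fintype ι] [DecidableEq ι] {p : ℕ} [Fact p.Prime]

theorem key (i : ι) (v v' : ι → ZMod p) (g : SLI ι p) (c : ZMod p) (hc : c ≠ 0)
    (h1 : g.1 *ᵥ (Pi.single i 1) = c • (Pi.single i 1 : ι → ZMod p))
    (h2 : g.1 *ᵥ v = c • v') :
    ∀ (r' : ι → ZMod p) (x' : SLI ι p), r' i = 0 → IsU i r' x' →
      ∃ (r : ι → ZMod p), r i = 0 ∧ IsU i r (g⁻¹ * x' * g) ∧ r ⬝ᵥ v = r' ⬝ᵥ v' := by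
  intro r' x' hr' hx'
  have hgi : (g⁻¹).1 * g.1 = 1 := by
    have : (g⁻¹ * g).1 = (1 : SLI ι p).1 := by rw [inv_mul_cancel]
    exact this
  have h3 : (g⁻¹).1 *ᵥ (Pi.single i 1) = c⁻¹ • (Pi.single i 1 : ι → ZMod p) := by
    have h4 : (g⁻¹).1 *ᵥ (g.1 *ᵥ (Pi.single i 1)) = (Pi.single i 1 : ι → ZMod p) := by
      rw [Matrix.mulVec_mulVec, hgi, Matrix.one_mulVec]
    rw [h1, Matrix.mulVec_smul] at h4
    calc (g⁻¹).1 *ᵥ (Pi.single i 1) = c⁻¹ • c • ((g⁻¹).1 *ᵥ (Pi.single i 1)) := by
          rw [smul_smul, inv_mul_cancel₀ hc, one_smul]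
      _ = _ := by rw [h4]
  refine ⟨c⁻¹ • (r' ᵥ* g.1), ?_, ?_, ?_⟩
  · have : (r' ᵥ* g.1) i = r' ⬝ᵥ (g.1 *ᵥ (Pi.single i 1)) := by
      rw [Matrix.dotProduct_mulVec, dotProduct_single, mul_one]
    rw [Pi.smul_apply, this, h1, dotProduct_smul, dotProduct_single, hr']
    simp
  · unfold IsU at hx' ⊢
    change (g⁻¹).1 * x'.1 * g.1 = _
    have hx2 : x'.1 = 1 + Matrix.vecMulVec (Pi.single i 1) r' := hx'
    rw [hx2, Matrix.mul_add, Matrix.add_mul, Matrix.mul_one, hgi, Matrix.mul_vecMulVec,
      Matrix.vecMulVec_mul, h3, Matrix.smul_vecMulVec, Matrix.vecMulVec_smul]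
  · rw [smul_dotProduct, ← Matrix.dotProduct_mulVec, h2, dotProduct_smul, smul_smul,
      inv_mul_cancel₀ hc, one_smul]

theorem big (i : ι) (v v' : ι → ZMod p) (hm : 3 ≤ Fintype.card ι) (hv : v i = 0) (hv0 : v ≠ 0)
    (hv' : v' i = 0) (hv'0 : v' ≠ 0) : ∃ g : SLI ι p,
      g.1 *ᵥ (Pi.single i 1) = (Pi.single i 1 : ι → ZMod p) ∧ g.1 *ᵥ v = v' := by
  classical
  set e := Fintype.equivFin ι with he
  have li : ∀ u : ι → ZMod p, u i = 0 → u ≠ 0 → LinearIndependent (ZMod p)
      ![(Pi.single i 1 : ι → ZMod p) ∘ e.symm, u ∘ e.symm] := by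
    intro u hu hu0
    rw [LinearIndependent.pair_iff]
    intro s t hst
    have h1 := congrFun hst (e i)
    simp only [Pi.add_apply, Pi.smul_apply, Function.comp_apply, Equiv.symm_apply_apply,
      Pi.single_eq_same, hu, smul_eq_mul, mul_one, mul_zero, add_zero, Pi.zero_apply] at h1
    subst h1
    obtain ⟨j, hj⟩ := Function.ne_iff.1 hu0
    have h2 := congrFun hst (e j)
    simp only [Pi.add_apply, Pi.smul_apply, Function.comp_apply, Equiv.symm_apply_apply,
      zero_smul, smul_eq_mul, zero_add, Pi.zero_apply] at h2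
    exact ⟨rfl, (mul_eq_zero.1 h2).resolve_right hj⟩
  obtain ⟨h, hh⟩ := Pool.Agent.Work.MP_936a99_al_h7.exists_SL_map (n := Fintype.card ι)
    (by simpa using by omega) _ _ (li v hv hv0) (li v' hv' hv'0)
  have hs : ∀ u w : ι → ZMod p, h.1 *ᵥ (u ∘ e.symm) = w ∘ e.symm →
      (h.1.submatrix e e) *ᵥ u = w := by
    intro u w huw
    ext j
    have h1 := congrFun huw (e j)
    simp only [Function.comp_apply, Equiv.symm_apply_apply] at h1
    rw [← h1]
    simp only [Matrix.mulVec, dotProduct, Matrix.submatrix_apply, Function.comp_apply]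
    exact Fintype.sum_equiv e _ _ (fun k => by simp)
  refine ⟨⟨h.1.submatrix e e, by rw [Matrix.det_submatrix_equiv_self]; exact h.2⟩, ?_, ?_⟩
  · exact hs _ _ (by simpa using hh 0)
  · exact hs _ _ (by simpa using hh 1)

end QRUh3

open QRUh3 in
theorem qru_h3 : Stmt_QRU := by
  classical
  intro ι _ _ p _ i v hm hv hv0
  have hp : p.Prime := Fact.out
  by_cases hm3 : 3 ≤ Fintype.card ι
  · refine ⟨Finset.univ.filter (fun v' : ι → ZMod p => v' i = 0 ∧ v' ≠ 0), ?_, ?_⟩
    · have h1 : (Finset.univ.filter (fun v' : ι → ZMod p => v' i = 0)).card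
          = p ^ (Fintype.card ι - 1) := by
        have e1 : (Finset.univ.filter (fun v' : ι → ZMod p => v' i = 0)).card
            = Fintype.card ({j : ι // j ≠ i} → ZMod p) := by
          rw [← Fintype.card_subtype]
          refine Fintype.card_congr ⟨fun x j => x.1 j.1, fun y => ⟨fun j => if h : j = i then 0
            else y ⟨j, h⟩, by simp⟩, ?_, ?_⟩
          · rintro ⟨x, hx⟩
            ext j
            by_cases h : j = i
            · subst h; simp [hx]
            · simp [h]
          · intro y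
            ext ⟨j, hj⟩
            simp [hj]
        rw [e1, Fintype.card_fun, ZMod.card, Fintype.card_subtype_compl, Fintype.card_subtype_eq]
      have h2 : Finset.univ.filter (fun v' : ι → ZMod p => v' i = 0)
          ⊆ insert 0 (Finset.univ.filter (fun v' : ι → ZMod p => v' i = 0 ∧ v' ≠ 0)) := by
        intro x hx
        simp only [Finset.mem_filter, Finset.mem_univ, true_and] at hx
        by_cases h : x = 0
        · simp [h]
        · simp [h, hx]
      have h3 := (Finset.card_le_card h2).trans (Finset.card_insert_le _ _)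
      rw [h1] at h3
      omega
    · intro v' hv'
      simp only [Finset.mem_filter, Finset.mem_univ, true_and] at hv'
      refine ⟨hv'.1, ?_⟩
      obtain ⟨g, hg1, hg2⟩ := big i v v' hm3 hv hv0 hv'.1 hv'.2
      exact ⟨g, key i v v' g 1 one_ne_zero (by rw [one_smul]; exact hg1)
        (by rw [one_smul]; exact hg2)⟩
  · have hm2 : Fintype.card ι = 2 := by omega
    obtain ⟨j, hj⟩ := Function.ne_iff.1 hv0
    have hij : i ≠ j := by
      rintro rfl
      exact hj hv
    have huniv : (Finset.univ : Finset ι) = {i, j} := by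
      symm
      apply Finset.eq_univ_of_card
      rw [Finset.card_pair hij, hm2]
    have hk : ∀ k : ι, k = i ∨ k = j := by
      intro k
      have : k ∈ (Finset.univ : Finset ι) := Finset.mem_univ k
      rw [huniv] at this
      simpa using this
    refine ⟨(Finset.univ : Finset (ZMod p)ˣ).image (fun c => ((c⁻¹ : (ZMod p)ˣ) : ZMod p) ^ 2 • v),
      ?_, ?_⟩
    · rw [hm2]
      have h1 : (Finset.univ : Finset (ZMod p)ˣ).card ≤ 2 * ((Finset.univ : Finset (ZMod p)ˣ).image
          (fun c => ((c⁻¹ : (ZMod p)ˣ) : ZMod p) ^ 2 • v)).card := by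
        apply Finset.card_le_mul_card_image
        intro y hy
        obtain ⟨c, -, rfl⟩ := Finset.mem_image.1 hy
        have : Finset.univ.filter (fun d : (ZMod p)ˣ => ((d⁻¹ : (ZMod p)ˣ) : ZMod p) ^ 2 • v
            = ((c⁻¹ : (ZMod p)ˣ) : ZMod p) ^ 2 • v) ⊆ {c, -c} := by
          intro d hd
          simp only [Finset.mem_filter, Finset.mem_univ, true_and] at hd
          have h2 := congrFun hd j
          simp only [Pi.smul_apply, smul_eq_mul] at h2
          have h3 := mul_right_cancel₀ hj h2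
          rw [sq_eq_sq_iff_eq_or_eq_neg] at h3
          simp only [Finset.mem_insert, Finset.mem_singleton]
          rcases h3 with h3 | h3
          · left
            exact inv_injective (Units.ext h3)
          · right
            have h4 : d⁻¹ = -c⁻¹ := Units.ext (by rw [h3, Units.val_neg])
            have h5 : d⁻¹ = (-c)⁻¹ := by rw [h4, inv_neg]
            exact inv_injective h5
        exact (Finset.card_le_card this).trans Finset.card_le_two
      rw [Finset.card_univ, ZMod.card_units] at h1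
      have := hp.two_le
      rw [show 2 - 1 = 1 from rfl, pow_one]
      omega
    · intro v' hv'
      obtain ⟨c, -, rfl⟩ := Finset.mem_image.1 hv'
      set a : ZMod p := (c : ZMod p) with ha
      set b : ZMod p := ((c⁻¹ : (ZMod p)ˣ) : ZMod p) with hb
      have hab : a * b = 1 := by
        rw [ha, hb, ← Units.val_mul, mul_inv_cancel, Units.val_one]
      have ha0 : a ≠ 0 := c.ne_zero
      clear_value a b
      refine ⟨by rw [Pi.smul_apply, hv, smul_zero], ?_⟩
      have hdet : (Matrix.diagonal (fun k => if k = i then a else b)).det = 1 := by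
        rw [Matrix.det_diagonal, huniv, Finset.prod_pair hij, if_pos rfl, if_neg hij.symm, hab]
      refine ⟨⟨_, hdet⟩, key i v _ _ a ha0 ?_ ?_⟩
      · ext k
        rw [Matrix.mulVec_diagonal, Pi.smul_apply, smul_eq_mul]
        by_cases h : k = i
        · rw [if_pos h]
        · rw [if_neg h, Pi.single_eq_of_ne h, mul_zero, mul_zero]
      · ext k
        rw [Matrix.mulVec_diagonal, Pi.smul_apply, Pi.smul_apply, smul_eq_mul, smul_eq_mul]
        by_cases h : k = i
        · rw [h, if_pos rfl, hv, mul_zero, mul_zero, mul_zero]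
        · rw [if_neg h]
          linear_combination (-(b * v k)) * hab

end Pool.Agent.Work.MP_936a99_pt
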