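import Pool.Agent.Work.MP_936a99_pt.Interface

/-! Block RCJ: conjugates of regular elements. helper89 -/

namespace Pool.Agent.Work.MP_936a99_pt

open Matrix Pointwise

namespace RCJ

variable {ι : Type} [Fintype ι] [DecidableEq ι] {p : ℕ} [Fact p.Prime]

theorem gm_mul (a b : Matrix ι ι (ZMod p)) : gm (a * b) = gm a * gm b := by
  unfold gm
  exact Matrix.map_mul

theorem gm_one : gm (1 : Matrix ι ι (ZMod p)) = 1 := by
  unfold gm
  exact Matrix.map_one _ (map_zero _) (map_one _)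

theorem gm_inv (g : SLI ι p) : gm g.1 * gm (g⁻¹).1 = 1 := by
  rw [← gm_mul, ← gm_one]
  congr 1
  rw [← Matrix.SpecialLinearGroup.coe_mul, mul_inv_cancel, Matrix.SpecialLinearGroup.coe_one]

theorem gm_inv' (g : SLI ι p) : gm (g⁻¹).1 * gm g.1 = 1 := by
  rw [← gm_mul, ← gm_one]
  congr 1
  rw [← Matrix.SpecialLinearGroup.coe_mul, inv_mul_cancel, Matrix.SpecialLinearGroup.coe_one]

/-- an element of `SL_m(F_p)` in `GL_m` of the closure -/
noncomputable def up (g : SLI ι p) : Matrix.GeneralLinearGroup ι (Kb p) :=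
  ⟨gm g.1, gm (g⁻¹).1, gm_inv g, gm_inv' g⟩

end RCJ

/-- RCJ: conjugates of regular elements are regular. -/
theorem rcj : Stmt_RCJ := by
  intro ι _ _ p _ M b g ⟨Q, μ, hD, hμ⟩
  refine ⟨RCJ.up g * Q, μ, ?_, hμ⟩
  have h1 : gm (g * b * g⁻¹).1 = gm g.1 * gm b.1 * gm (g⁻¹).1 := by
    rw [Matrix.SpecialLinearGroup.coe_mul, Matrix.SpecialLinearGroup.coe_mul, RCJ.gm_mul,
      RCJ.gm_mul]
  have h2 : ((RCJ.up g : Matrix.GeneralLinearGroup ι (Kb p)) : Matrix ι ι (Kb p)) = gm g.1 := rfl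
  have h3 : (((RCJ.up g)⁻¹ : Matrix.GeneralLinearGroup ι (Kb p)) : Matrix ι ι (Kb p)) =
      gm (g⁻¹).1 := rfl
  unfold Dg at *
  rw [h1, hD, _root_.mul_inv_rev, Units.val_mul, Units.val_mul, h2, h3]
  simp only [Matrix.mul_assoc]

end Pool.Agent.Work.MP_936a99_pt
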