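import Pool.Agent.Work.MP_936a99_pt.Interface

/-!
# SHF: multiplying by a power of an `m ^ 2`-regular element
-/

namespace Pool.Agent.Work.MP_936a99_pt.SHF

open Matrix

variable {ι F : Type} [Fintype ι] [DecidableEq ι] [Field F]

lemma dg_one (Q : Matrix.GeneralLinearGroup ι F) :
    Dg (1 : Matrix ι ι F) Q (fun _ => 1) := by
  unfold Dg
  have h1 : (Matrix.diagonal (fun _ : ι => (1 : F))) = 1 := Matrix.diagonal_one
  rw [h1, mul_one, ← Units.val_mul, mul_inv_cancel, Units.val_one]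

lemma dg_mul {B C : Matrix ι ι F} {Q : Matrix.GeneralLinearGroup ι F} {μ ν : ι → F}
    (h1 : Dg B Q μ) (h2 : Dg C Q ν) : Dg (B * C) Q (fun i => μ i * ν i) := by
  unfold Dg at *
  have h3 : ((Q⁻¹ : Matrix.GeneralLinearGroup ι F) : Matrix ι ι F) * (Q : Matrix ι ι F) = 1 := by
    rw [← Units.val_mul, inv_mul_cancel, Units.val_one]
  have h4 : Matrix.diagonal (fun i => μ i * ν i) =
      Matrix.diagonal μ * Matrix.diagonal ν := (Matrix.diagonal_mul_diagonal μ ν).symm
  rw [h4, h1, h2]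
  calc (Q : Matrix ι ι F) * Matrix.diagonal μ * ((Q⁻¹ : Matrix.GeneralLinearGroup ι F) :
        Matrix ι ι F) * ((Q : Matrix ι ι F) * Matrix.diagonal ν *
          ((Q⁻¹ : Matrix.GeneralLinearGroup ι F) : Matrix ι ι F))
      = (Q : Matrix ι ι F) * Matrix.diagonal μ * (((Q⁻¹ : Matrix.GeneralLinearGroup ι F) :
        Matrix ι ι F) * (Q : Matrix ι ι F)) * Matrix.diagonal ν *
          ((Q⁻¹ : Matrix.GeneralLinearGroup ι F) : Matrix ι ι F) := by
        simp only [Matrix.mul_assoc]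
    _ = (Q : Matrix ι ι F) * (Matrix.diagonal μ * Matrix.diagonal ν) *
          ((Q⁻¹ : Matrix.GeneralLinearGroup ι F) : Matrix ι ι F) := by
        rw [h3]; simp only [Matrix.mul_assoc, Matrix.one_mul, Matrix.mul_one]

lemma dg_pow {B : Matrix ι ι F} {Q : Matrix.GeneralLinearGroup ι F} {μ : ι → F}
    (h1 : Dg B Q μ) (s : ℕ) : Dg (B ^ s) Q (fun i => μ i ^ s) := by
  induction s with
  | zero => simpa using dg_one Q
  | succ s ih =>
    have h2 := dg_mul ih h1
    simpa [pow_succ] using h2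

lemma dg_det {B : Matrix ι ι F} {Q : Matrix.GeneralLinearGroup ι F} {μ : ι → F}
    (h1 : Dg B Q μ) : B.det = ∏ i, μ i := by
  unfold Dg at h1
  have h3 : ((Q⁻¹ : Matrix.GeneralLinearGroup ι F) : Matrix ι ι F) * (Q : Matrix ι ι F) = 1 := by
    rw [← Units.val_mul, inv_mul_cancel, Units.val_one]
  have h4 := congrArg Matrix.det h3
  rw [Matrix.det_mul, Matrix.det_one] at h4
  rw [h1, Matrix.det_mul, Matrix.det_mul, Matrix.det_diagonal]
  calc (Q : Matrix ι ι F).det * (∏ i, μ i) *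
        ((Q⁻¹ : Matrix.GeneralLinearGroup ι F) : Matrix ι ι F).det
      = (((Q⁻¹ : Matrix.GeneralLinearGroup ι F) : Matrix ι ι F).det *
        (Q : Matrix ι ι F).det) * ∏ i, μ i := by ring
    _ = ∏ i, μ i := by rw [h4, one_mul]

variable {p : ℕ} [Fact p.Prime]

lemma gm_mul (A B : Matrix ι ι (ZMod p)) : gm (A * B) = gm A * gm B := by
  unfold gm
  exact Matrix.map_mul

lemma gm_one : gm (1 : Matrix ι ι (ZMod p)) = 1 := by
  unfold gm
  exact Matrix.map_one _ (map_zero _) (map_one _)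

lemma gm_pow (A : Matrix ι ι (ZMod p)) (s : ℕ) : gm (A ^ s) = gm A ^ s := by
  induction s with
  | zero => simpa using gm_one
  | succ s ih => rw [pow_succ, pow_succ, gm_mul, ih]

lemma gm_det (A : SLI ι p) : (gm A.1).det = 1 := by
  have h1 : (gm A.1).det = (algebraMap (ZMod p) (Kb p)) (A.1.det) := by
    unfold gm
    exact ((algebraMap (ZMod p) (Kb p)).map_det A.1).symm
  rw [h1, A.2, map_one]

end SHF

open Matrix

theorem shf (hTOR : Stmt_TOR) : Stmt_SHF := by
  intro ι _ _ p _ b x hm hb hcomm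
  obtain ⟨Q, μ, hD, hreg⟩ := hb
  have hcard : 1 ≤ Fintype.card ι ^ 2 := Nat.one_le_pow _ _ (by omega)
  obtain ⟨ν, hν⟩ := (hTOR ι p b x Q μ hD (fun i j hij => by
    have := hreg i j hij 1 le_rfl hcard
    simpa using this)).1 hcomm
  have hpow : ∀ s : ℕ, Dg (gm (b ^ s * x).1) Q (fun i => μ i ^ s * ν i) := by
    intro s
    have h1 : gm (b ^ s * x).1 = gm b.1 ^ s * gm x.1 := by
      have h2 : (b ^ s * x).1 = b.1 ^ s * x.1 := by
        rw [Matrix.SpecialLinearGroup.coe_mul, Matrix.SpecialLinearGroup.coe_pow]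
      rw [h2, SHF.gm_mul, SHF.gm_pow]
    rw [h1]
    exact SHF.dg_mul (SHF.dg_pow hD s) hν
  have hμ : ∀ i, μ i ≠ 0 := by
    have h1 := SHF.dg_det hD
    rw [SHF.gm_det] at h1
    intro i hi
    rw [Finset.prod_eq_zero (Finset.mem_univ i) hi] at h1
    exact one_ne_zero h1
  have hν0 : ∀ i, ν i ≠ 0 := by
    have h1 := SHF.dg_det hν
    rw [SHF.gm_det] at h1
    intro i hi
    rw [Finset.prod_eq_zero (Finset.mem_univ i) hi] at h1
    exact one_ne_zero h1
  by_contra hcon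
  push Not at hcon
  have hbad : ∀ s : ℕ, ∃ ij : ι × ι, (s ∈ Finset.Icc 1 (Fintype.card ι ^ 2) →
      ij.1 ≠ ij.2 ∧ μ ij.1 ^ s * ν ij.1 = μ ij.2 ^ s * ν ij.2) := by
    intro s
    by_cases hs : s ∈ Finset.Icc 1 (Fintype.card ι ^ 2)
    · rw [Finset.mem_Icc] at hs
      have h1 := hcon s hs.1 hs.2
      by_contra h2
      push Not at h2
      apply h1
      refine ⟨Q, _, hpow s, ?_⟩
      intro i j hij t ht1 ht2 heq
      have ht : t = 1 := le_antisymm ht2 ht1
      subst ht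
      simp only [pow_one] at heq
      exact (h2 (i, j)).2 hij heq
    · have hne : Nonempty ι := Fintype.card_pos_iff.1 (by omega)
      exact ⟨(hne.some, hne.some), fun h => absurd h hs⟩
  choose f hf using hbad
  have hmaps : ∀ s ∈ Finset.Icc 1 (Fintype.card ι ^ 2),
      f s ∈ (Finset.univ : Finset ι).offDiag := by
    intro s hs
    rw [Finset.mem_offDiag]
    exact ⟨Finset.mem_univ _, Finset.mem_univ _, (hf s hs).1⟩
  have hlt : ((Finset.univ : Finset ι).offDiag).card <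
      (Finset.Icc 1 (Fintype.card ι ^ 2)).card := by
    rw [Finset.offDiag_card, Finset.card_univ, Nat.card_Icc]
    have h1 : Fintype.card ι ≤ Fintype.card ι * Fintype.card ι := Nat.le_mul_self _
    rw [sq]
    omega
  obtain ⟨s1, hs1, s2, hs2, hne, heq⟩ := Finset.exists_ne_map_eq_of_card_lt_of_maps_to hlt hmaps
  have key : ∀ a c : ℕ, a ∈ Finset.Icc 1 (Fintype.card ι ^ 2) →
      c ∈ Finset.Icc 1 (Fintype.card ι ^ 2) → f a = f c → a < c → False := by
    intro a c ha hc hac hlt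
    obtain ⟨h1, h2⟩ := hf a ha
    obtain ⟨h3, h4⟩ := hf c hc
    rw [← hac] at h3 h4
    obtain ⟨e, rfl⟩ := Nat.exists_eq_add_of_lt hlt
    rw [Finset.mem_Icc] at ha hc
    refine hreg (f a).1 (f a).2 h1 (e + 1) (by omega) (by omega) ?_
    have h5 : μ (f a).1 ^ a * ν (f a).1 * μ (f a).1 ^ (e + 1) =
        μ (f a).1 ^ a * ν (f a).1 * μ (f a).2 ^ (e + 1) := by
      calc μ (f a).1 ^ a * ν (f a).1 * μ (f a).1 ^ (e + 1)
          = μ (f a).1 ^ (a + e + 1) * ν (f a).1 := by ring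
        _ = μ (f a).2 ^ (a + e + 1) * ν (f a).2 := h4
        _ = (μ (f a).2 ^ a * ν (f a).2) * μ (f a).2 ^ (e + 1) := by ring
        _ = μ (f a).1 ^ a * ν (f a).1 * μ (f a).2 ^ (e + 1) := by rw [h2]
    exact mul_left_cancel₀ (mul_ne_zero (pow_ne_zero _ (hμ _)) (hν0 _)) h5
  rcases lt_or_gt_of_ne hne with h | h
  · exact key s1 s2 hs1 hs2 heq h
  · exact key s2 s1 hs2 hs1 heq.symm h

end Pool.Agent.Work.MP_936a99_pt
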