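import Pool.Agent.Work.MP_936a99_pt.Interface

/-!
# TCJ: few elements of a torus are conjugate to a given element
-/

namespace Pool.Agent.Work.MP_936a99_pt

open Matrix

namespace TCJ

variable {ι : Type} [Fintype ι] [DecidableEq ι]

theorem exists_perm {F : Type} [DecidableEq F] (f g : ι → F)
    (h : Finset.univ.val.map f = Finset.univ.val.map g) :
    ∃ σ : Equiv.Perm ι, f = g ∘ σ := by
  have hc : ∀ c, Nonempty ({a // f a = c} ≃ {b // g b = c}) := by
    intro c
    refine ⟨Fintype.equivOfCardEq ?_⟩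
    have h1 := congrArg (Multiset.count c) h
    rw [Multiset.count_map, Multiset.count_map] at h1
    rw [Fintype.card_subtype, Fintype.card_subtype]
    have e1 : (Finset.univ.filter fun a => f a = c).card =
        (Multiset.filter (fun a => c = f a) Finset.univ.val).card := by
      rw [Finset.card_def, Finset.filter_val]
      congr 1
      refine Multiset.filter_congr fun a _ => ?_
      exact eq_comm
    have e2 : (Finset.univ.filter fun a => g a = c).card =
        (Multiset.filter (fun a => c = g a) Finset.univ.val).card := by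
      rw [Finset.card_def, Finset.filter_val]
      congr 1
      refine Multiset.filter_congr fun a _ => ?_
      exact eq_comm
    rw [e1, e2, h1]
  refine ⟨Equiv.ofFiberEquiv fun c => (hc c).some, ?_⟩
  funext a
  exact (Equiv.ofFiberEquiv_map _ a).symm

theorem dg_charpoly {F : Type} [Field F] (B : Matrix ι ι F)
    (Q : Matrix.GeneralLinearGroup ι F) (μ : ι → F) (h : Dg B Q μ) :
    B.charpoly = ∏ i, (Polynomial.X - Polynomial.C (μ i)) := by
  unfold Dg at h
  rw [h, Matrix.charpoly_mul_comm, ← mul_assoc]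
  have hQ : ((Q⁻¹ : Matrix.GeneralLinearGroup ι F) : Matrix ι ι F) * (Q : Matrix ι ι F) = 1 := by
    rw [← Units.val_mul, inv_mul_cancel, Units.val_one]
  rw [hQ, one_mul, Matrix.charpoly_diagonal]

theorem dg_roots {F : Type} [Field F] (B : Matrix ι ι F)
    (Q : Matrix.GeneralLinearGroup ι F) (μ : ι → F) (h : Dg B Q μ) :
    B.charpoly.roots = Finset.univ.val.map μ := by
  rw [dg_charpoly B Q μ h]
  have : (∏ i, (Polynomial.X - Polynomial.C (μ i))) =
      ((Finset.univ.val.map μ).map fun a => Polynomial.X - Polynomial.C a).prod := by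
    rw [Multiset.map_map]
    rfl
  rw [this, Polynomial.roots_multiset_prod_X_sub_C]

theorem gm_mul {p : ℕ} [Fact p.Prime] (A B : Matrix ι ι (ZMod p)) : gm (A * B) = gm A * gm B := by
  unfold gm
  exact Matrix.map_mul

theorem gm_one {p : ℕ} [Fact p.Prime] : gm (1 : Matrix ι ι (ZMod p)) = 1 := by
  unfold gm
  exact Matrix.map_one _ (map_zero _) (map_one _)

theorem gm_inj {p : ℕ} [Fact p.Prime] (A B : Matrix ι ι (ZMod p)) (h : gm A = gm B) : A = B := by
  ext i j
  have := congrFun (congrFun h i) j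
  exact (algebraMap (ZMod p) (Kb p)).injective this

theorem conj_charpoly {p : ℕ} [Fact p.Prime] (y h : SLI ι p) :
    (gm (h * y * h⁻¹).1).charpoly = (gm y.1).charpoly := by
  have e1 : (h * y * h⁻¹).1 = h.1 * y.1 * (h⁻¹).1 := by
    rw [← Matrix.SpecialLinearGroup.coe_mul, ← Matrix.SpecialLinearGroup.coe_mul]
  have e2 : (h⁻¹).1 * h.1 = 1 := by
    rw [← Matrix.SpecialLinearGroup.coe_mul, inv_mul_cancel, Matrix.SpecialLinearGroup.coe_one]
  rw [e1, gm_mul, gm_mul, Matrix.charpoly_mul_comm, ← mul_assoc, ← gm_mul, e2, gm_one, one_mul]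

end TCJ

/-- few elements of a torus are conjugate to a given element -/
theorem tcj (h1 : Stmt_TOR) : Stmt_TCJ := by
  classical
  intro ι _ _ p _ b y hb
  obtain ⟨Q, μ, hQ, hμ⟩ := hb
  have hμ' : ∀ i j, i ≠ j → μ i ≠ μ j := by
    intro i j hij hh
    exact hμ i j hij 1 le_rfl le_rfl (by rw [hh])
  set S : Set (SLI ι p) := {y' : SLI ι p | Commute b y' ∧ ∃ h : SLI ι p, y' = h * y * h⁻¹} with hS
  have key : ∀ y' ∈ S, ∃ ν : ι → Kb p, Dg (gm y'.1) Q ν ∧
      Finset.univ.val.map ν = (gm y.1).charpoly.roots := by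
    intro y' hy'
    obtain ⟨hc, h, rfl⟩ := hy'
    obtain ⟨ν, hν⟩ := (h1 ι p b _ Q μ hQ hμ').1 hc
    refine ⟨ν, hν, ?_⟩
    rw [← TCJ.dg_roots _ Q ν hν, TCJ.conj_charpoly]
  rcases S.eq_empty_or_nonempty with he | ⟨y0, hy0⟩
  · rw [he, Set.ncard_empty]; exact Nat.zero_le _
  · obtain ⟨ν0, -, hr0⟩ := key y0 hy0
    let F : Equiv.Perm ι → Matrix ι ι (Kb p) := fun σ =>
      (Q : Matrix ι ι (Kb p)) * Matrix.diagonal (ν0 ∘ σ) *
        ((Q⁻¹ : Matrix.GeneralLinearGroup ι (Kb p)) : Matrix ι ι (Kb p))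
    have hinj : Set.InjOn (fun y' : SLI ι p => gm y'.1) S := by
      intro a _ c _ hac
      exact Subtype.ext (TCJ.gm_inj _ _ hac)
    have hsub : (fun y' : SLI ι p => gm y'.1) '' S ⊆ F '' Set.univ := by
      rintro _ ⟨y', hy', rfl⟩
      obtain ⟨ν, hν, hr⟩ := key y' hy'
      obtain ⟨σ, hσ⟩ := TCJ.exists_perm ν ν0 (hr.trans hr0.symm)
      refine ⟨σ, Set.mem_univ _, ?_⟩
      show F σ = gm y'.1
      unfold Dg at hν
      rw [hν, hσ]
    calc S.ncard = ((fun y' : SLI ι p => gm y'.1) '' S).ncard := (Set.ncard_image_of_injOn hinj).symm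
      _ ≤ (F '' Set.univ).ncard := Set.ncard_le_ncard hsub (Set.toFinite _)
      _ ≤ (Set.univ : Set (Equiv.Perm ι)).ncard := Set.ncard_image_le (Set.toFinite _)
      _ = (Fintype.card ι).factorial := by
        rw [Set.ncard_univ, Nat.card_eq_fintype_card, Fintype.card_perm]

end Pool.Agent.Work.MP_936a99_pt
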