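import Pool.Agent.Work.MP_936a99_pt.Interface

/-! MP_936a99_pt, block TCO (helper50): commuting regular elements have the same centraliser. -/

set_option autoImplicit false

namespace Pool.Agent.Work.MP_936a99_pt

open Matrix Pointwise

namespace TCO

theorem roots_eq {ι F : Type} [Fintype ι] [DecidableEq ι] [Field F] {B : Matrix ι ι F}
    {Q : Matrix.GeneralLinearGroup ι F} {μ : ι → F} (h : Dg B Q μ) :
    B.charpoly.roots = Finset.univ.val.map μ := by
  have h1 : B.charpoly = ∏ i, (Polynomial.X - Polynomial.C (μ i)) := by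
    rw [h, Matrix.coe_units_inv, Matrix.charpoly_units_conj, Matrix.charpoly_diagonal]
  have h2 := Polynomial.roots_multiset_prod_X_sub_C (Finset.univ.val.map μ)
  rw [Multiset.map_map] at h2
  rw [h1]
  exact h2

theorem inj_of_regM {ι F : Type} [Fintype ι] [DecidableEq ι] [Field F] {B : Matrix ι ι F}
    {Q : Matrix.GeneralLinearGroup ι F} {ν : ι → F} (h : Dg B Q ν) (hr : RegM 1 B) :
    ∀ i j, i ≠ j → ν i ≠ ν j := by
  obtain ⟨Q', μ, hd, hi⟩ := hr
  have h1 := (roots_eq h).symm.trans (roots_eq hd)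
  have h2 : (Finset.univ.val.map μ).Nodup := by
    refine Multiset.Nodup.map_on ?_ Finset.univ.nodup
    intro x _ y _ hxy
    by_contra hne
    exact hi x y hne 1 le_rfl le_rfl (by rw [hxy])
  rw [← h1] at h2
  intro i j hij he
  exact hij (Multiset.inj_on_of_nodup_map h2 i (Finset.mem_univ i) j (Finset.mem_univ j) he)

end TCO

theorem tco (hTOR : Stmt_TOR) : Stmt_TCO := by
  intro ι _ _ p _ b y hb hy hc x
  obtain ⟨Q, μ, hd, hi⟩ := hb
  have hμ : ∀ i j, i ≠ j → μ i ≠ μ j := fun i j hij he =>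
    hi i j hij 1 le_rfl le_rfl (by rw [he])
  obtain ⟨ν, hν⟩ := (hTOR ι p b y Q μ hd hμ).1 hc
  exact (hTOR ι p b x Q μ hd hμ).trans
    (hTOR ι p y x Q ν hν (TCO.inj_of_regM hν hy)).symm

end Pool.Agent.Work.MP_936a99_pt
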