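import Pool.Agent.Work.MP_936a99_pt.Interface

namespace Pool.Agent.Work.MP_936a99_pt

open Matrix Pointwise

namespace TORh3

theorem gm_mul {ι : Type} [Fintype ι] {p : ℕ} [Fact p.Prime] (a b : Matrix ι ι (ZMod p)) :
    gm (a * b) = gm a * gm b := by
  unfold gm
  exact Matrix.map_mul

theorem gm_inj {ι : Type} {p : ℕ} [Fact p.Prime] {a b : Matrix ι ι (ZMod p)}
    (h : gm a = gm b) : a = b := by
  ext i j
  have := congrFun (congrFun h i) j
  simp only [gm, Matrix.map_apply] at this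
  exact (algebraMap (ZMod p) (Kb p)).injective this

end TORh3

open TORh3 in
theorem tor_h3 : Stmt_TOR := by
  intro ι _ _ p _ b x Q μ hb hμ
  have hQ1 : ((Q⁻¹ : Matrix.GeneralLinearGroup ι (Kb p)) : Matrix ι ι (Kb p)) * (Q : Matrix ι ι (Kb p)) = 1 := by
    rw [← Units.val_mul, inv_mul_cancel, Units.val_one]
  have hQ2 : (Q : Matrix ι ι (Kb p)) * ((Q⁻¹ : Matrix.GeneralLinearGroup ι (Kb p)) : Matrix ι ι (Kb p)) = 1 := by
    rw [← Units.val_mul, mul_inv_cancel, Units.val_one]
  constructor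
  · intro h
    have h1 : gm b.1 * gm x.1 = gm x.1 * gm b.1 := by
      rw [← gm_mul, ← gm_mul]
      have : b.1 * x.1 = x.1 * b.1 := by
        have := congrArg Subtype.val h.eq
        simpa using this
      rw [this]
    set Y : Matrix ι ι (Kb p) := ((Q⁻¹ : Matrix.GeneralLinearGroup ι (Kb p)) : Matrix ι ι (Kb p)) * gm x.1 * (Q : Matrix ι ι (Kb p)) with hY
    have hx : gm x.1 = (Q : Matrix ι ι (Kb p)) * Y * ((Q⁻¹ : Matrix.GeneralLinearGroup ι (Kb p)) : Matrix ι ι (Kb p)) := by
      rw [hY]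
      calc gm x.1 = 1 * gm x.1 * 1 := by rw [one_mul, mul_one]
        _ = _ := by rw [← hQ2]; simp only [Matrix.mul_assoc]
    have h2 : Matrix.diagonal μ * Y = Y * Matrix.diagonal μ := by
      have e1 : Matrix.diagonal μ = ((Q⁻¹ : Matrix.GeneralLinearGroup ι (Kb p)) : Matrix ι ι (Kb p)) * gm b.1 * (Q : Matrix ι ι (Kb p)) := by
        rw [hb]
        calc Matrix.diagonal μ = 1 * Matrix.diagonal μ * 1 := by rw [one_mul, mul_one]
          _ = _ := by rw [← hQ1]; simp only [Matrix.mul_assoc]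
      rw [e1, hY]
      calc _ = ((Q⁻¹ : Matrix.GeneralLinearGroup ι (Kb p)) : Matrix ι ι (Kb p)) * gm b.1 * ((Q : Matrix ι ι (Kb p)) * ((Q⁻¹ : Matrix.GeneralLinearGroup ι (Kb p)) : Matrix ι ι (Kb p))) * gm x.1 * (Q : Matrix ι ι (Kb p)) := by
            simp only [Matrix.mul_assoc]
        _ = ((Q⁻¹ : Matrix.GeneralLinearGroup ι (Kb p)) : Matrix ι ι (Kb p)) * gm x.1 * ((Q : Matrix ι ι (Kb p)) * ((Q⁻¹ : Matrix.GeneralLinearGroup ι (Kb p)) : Matrix ι ι (Kb p))) * gm b.1 * (Q : Matrix ι ι (Kb p)) := by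
            rw [hQ2]; simp only [Matrix.mul_one, Matrix.mul_assoc]
            rw [← Matrix.mul_assoc (gm b.1), h1, Matrix.mul_assoc]
        _ = _ := by simp only [Matrix.mul_assoc]
    refine ⟨fun i => Y i i, ?_⟩
    have h3 : Y = Matrix.diagonal fun i => Y i i := by
      ext i j
      by_cases hij : i = j
      · subst hij; simp
      · rw [Matrix.diagonal_apply_ne _ hij]
        have := congrFun (congrFun h2 i) j
        rw [Matrix.diagonal_mul, Matrix.mul_diagonal] at this
        have h4 : (μ i - μ j) * Y i j = 0 := by linear_combination this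
        rcases mul_eq_zero.1 h4 with h5 | h5
        · exact absurd (sub_eq_zero.1 h5) (hμ i j hij)
        · exact h5
    unfold Dg
    rw [← h3]
    exact hx
  · rintro ⟨ν, hν⟩
    have h1 : gm b.1 * gm x.1 = gm x.1 * gm b.1 := by
      rw [hb, hν]
      calc _ = (Q : Matrix ι ι (Kb p)) * Matrix.diagonal μ * (((Q⁻¹ : Matrix.GeneralLinearGroup ι (Kb p)) : Matrix ι ι (Kb p)) * (Q : Matrix ι ι (Kb p))) * Matrix.diagonal ν * ((Q⁻¹ : Matrix.GeneralLinearGroup ι (Kb p)) : Matrix ι ι (Kb p)) := by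
            simp only [Matrix.mul_assoc]
        _ = (Q : Matrix ι ι (Kb p)) * Matrix.diagonal ν * (((Q⁻¹ : Matrix.GeneralLinearGroup ι (Kb p)) : Matrix ι ι (Kb p)) * (Q : Matrix ι ι (Kb p))) * Matrix.diagonal μ * ((Q⁻¹ : Matrix.GeneralLinearGroup ι (Kb p)) : Matrix ι ι (Kb p)) := by
            rw [hQ1]; simp only [Matrix.mul_one]
            have : Matrix.diagonal μ * Matrix.diagonal ν = Matrix.diagonal ν * Matrix.diagonal μ := by
              rw [Matrix.diagonal_mul_diagonal, Matrix.diagonal_mul_diagonal]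
              congr 1; ext i; ring
            rw [Matrix.mul_assoc (Q : Matrix ι ι (Kb p)), this, ← Matrix.mul_assoc]
        _ = _ := by simp only [Matrix.mul_assoc]
    have h2 : b.1 * x.1 = x.1 * b.1 := by
      apply gm_inj
      rw [gm_mul, gm_mul, h1]
    exact Subtype.ext (by simpa using h2)

end Pool.Agent.Work.MP_936a99_pt
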