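import Pool.Agent.Work.MP_936a99_pt.Interface

/-! Block TRF: transfer of regular elements of a torus to `A ^ 2`. helper23 -/

namespace Pool.Agent.Work.MP_936a99_pt

open Matrix Pointwise

namespace TRF

variable {ι : Type} [Fintype ι] [DecidableEq ι]

theorem gm_mul {p : ℕ} [Fact p.Prime] (a b : Matrix ι ι (ZMod p)) : gm (a * b) = gm a * gm b := by
  unfold gm
  exact Matrix.map_mul

theorem gm_one {p : ℕ} [Fact p.Prime] : gm (1 : Matrix ι ι (ZMod p)) = 1 := by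
  unfold gm
  exact Matrix.map_one _ (map_zero _) (map_one _)

theorem gm_inv {p : ℕ} [Fact p.Prime] (g : SLI ι p) : gm g.1 * gm (g⁻¹).1 = 1 := by
  rw [← gm_mul, ← gm_one]
  congr 1
  rw [← Matrix.SpecialLinearGroup.coe_mul, mul_inv_cancel, Matrix.SpecialLinearGroup.coe_one]

theorem gm_inv' {p : ℕ} [Fact p.Prime] (g : SLI ι p) : gm (g⁻¹).1 * gm g.1 = 1 := by
  rw [← gm_mul, ← gm_one]
  congr 1
  rw [← Matrix.SpecialLinearGroup.coe_mul, inv_mul_cancel, Matrix.SpecialLinearGroup.coe_one]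

/-- an element of `SL_m(F_p)` in `GL_m` of the closure -/
noncomputable def up {p : ℕ} [Fact p.Prime] (g : SLI ι p) :
    Matrix.GeneralLinearGroup ι (Kb p) :=
  ⟨gm g.1, gm (g⁻¹).1, gm_inv g, gm_inv' g⟩

section field

variable {F : Type} [Field F]

theorem Qinv (Q : Matrix.GeneralLinearGroup ι F) :
    ((Q⁻¹ : Matrix.GeneralLinearGroup ι F) : Matrix ι ι F) * (Q : Matrix ι ι F) = 1 := by
  rw [← Units.val_mul, inv_mul_cancel, Units.val_one]

theorem Qinv' (Q : Matrix.GeneralLinearGroup ι F) :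
    (Q : Matrix ι ι F) * ((Q⁻¹ : Matrix.GeneralLinearGroup ι F) : Matrix ι ι F) = 1 := by
  rw [← Units.val_mul, mul_inv_cancel, Units.val_one]

theorem Dg_mul {B B' : Matrix ι ι F} {Q : Matrix.GeneralLinearGroup ι F} {μ ν : ι → F}
    (h : Dg B Q μ) (h' : Dg B' Q ν) : Dg (B * B') Q (fun i => μ i * ν i) := by
  unfold Dg at *
  rw [h, h']
  calc _ = (Q : Matrix ι ι F) * diagonal μ *
        (((Q⁻¹ : Matrix.GeneralLinearGroup ι F) : Matrix ι ι F) * (Q : Matrix ι ι F)) *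
        diagonal ν * ((Q⁻¹ : Matrix.GeneralLinearGroup ι F) : Matrix ι ι F) := by
        simp only [Matrix.mul_assoc]
    _ = _ := by
        rw [Qinv, Matrix.mul_one, Matrix.mul_assoc (Q : Matrix ι ι F), diagonal_mul_diagonal]

theorem Dg_one (Q : Matrix.GeneralLinearGroup ι F) : Dg (1 : Matrix ι ι F) Q (fun _ => 1) := by
  unfold Dg
  rw [diagonal_one, Matrix.mul_one, Qinv']

theorem Dg_pow {B : Matrix ι ι F} {Q : Matrix.GeneralLinearGroup ι F} {μ : ι → F}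
    (h : Dg B Q μ) (s : ℕ) : Dg (B ^ s) Q (fun i => μ i ^ s) := by
  induction s with
  | zero => simpa using Dg_one Q
  | succ s ih => 
    have := Dg_mul ih h
    simpa [pow_succ] using this

theorem Dg_conj {B : Matrix ι ι F} {Q : Matrix.GeneralLinearGroup ι F} {μ : ι → F}
    (h : Dg B Q μ) (g : Matrix.GeneralLinearGroup ι F) :
    Dg ((g : Matrix ι ι F) * B * ((g⁻¹ : Matrix.GeneralLinearGroup ι F) : Matrix ι ι F))
      (g * Q) μ := by
  unfold Dg at *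
  rw [h, _root_.mul_inv_rev, Units.val_mul, Units.val_mul]
  simp only [Matrix.mul_assoc]

theorem Dg_ne_zero {B B' : Matrix ι ι F} {Q : Matrix.GeneralLinearGroup ι F} {μ : ι → F}
    (h : Dg B Q μ) (hB : B' * B = 1) (i : ι) : μ i ≠ 0 := by
  intro h0
  have h1 : (Matrix.diagonal μ) = ((Q⁻¹ : Matrix.GeneralLinearGroup ι F) : Matrix ι ι F) * B *
      (Q : Matrix ι ι F) := by
    unfold Dg at h
    rw [h]
    calc Matrix.diagonal μ = 1 * Matrix.diagonal μ * 1 := by simp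
      _ = (((Q⁻¹ : Matrix.GeneralLinearGroup ι F) : Matrix ι ι F) * (Q : Matrix ι ι F)) *
          Matrix.diagonal μ * (((Q⁻¹ : Matrix.GeneralLinearGroup ι F) : Matrix ι ι F) *
          (Q : Matrix ι ι F)) := by rw [Qinv]
      _ = _ := by simp only [Matrix.mul_assoc]
  have h2 : (((Q⁻¹ : Matrix.GeneralLinearGroup ι F) : Matrix ι ι F) * B' *
      (Q : Matrix ι ι F)) * (Matrix.diagonal μ) = 1 := by
    rw [h1]
    calc _ = ((Q⁻¹ : Matrix.GeneralLinearGroup ι F) : Matrix ι ι F) * B' *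
          ((Q : Matrix ι ι F) * ((Q⁻¹ : Matrix.GeneralLinearGroup ι F) : Matrix ι ι F)) * B *
          (Q : Matrix ι ι F) := by simp only [Matrix.mul_assoc]
      _ = ((Q⁻¹ : Matrix.GeneralLinearGroup ι F) : Matrix ι ι F) * (B' * B) *
          (Q : Matrix ι ι F) := by rw [Qinv']; simp only [Matrix.mul_assoc, Matrix.one_mul]
      _ = 1 := by rw [hB, Matrix.mul_one, Qinv]
  have h3 := congrFun (congrFun h2 i) i
  rw [Matrix.mul_diagonal, h0] at h3
  simp at h3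

theorem RegM_mono {M N : ℕ} {B : Matrix ι ι F} (hMN : M ≤ N) (h : RegM N B) : RegM M B := by
  obtain ⟨Q, μ, h1, h2⟩ := h
  exact ⟨Q, μ, h1, fun i j hij s hs hsM => h2 i j hij s hs (hsM.trans hMN)⟩

end field

end TRF

open TRF in
theorem trf_of (hWLS : Stmt_WLS) (hCKAP : Stmt_CKAP) (hFIB : Stmt_FIB) (hSHF : Stmt_SHF)
    (hTOR : Stmt_TOR) : Stmt_TRF := by
  intro ι _ _ hm k
  classical
  set m := Fintype.card ι with hmdef
  set M := m ^ 2 with hM
  have hM1 : 1 ≤ M := Nat.one_le_pow _ _ (by omega)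
  obtain ⟨D, P0, hC⟩ := hCKAP ι M
  obtain ⟨n0, e, C, hW⟩ := hWLS ι D (k * M + 4)
  set R := m.factorial * (M * m * m * M) with hR
  refine ⟨n0, R ^ (e + 1) * C + C, P0 + 5, ?_⟩
  intro p _ A K b hp hA hK hbk hb
  by_cases hcon : ∃ y : SLI ι p, y ∈ A ^ 2 ∧ Commute b y ∧ RegM M (gm y.1)
  · exact Or.inr hcon
  left
  obtain ⟨Q, lam, hQ, hlam⟩ := hb
  have hlam1 : ∀ i j, i ≠ j → lam i ≠ lam j := by
    intro i j hij h
    exact hlam i j hij 1 le_rfl hM1 (by rw [h])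
  set X : Set (SLI ι p) := {x | x ∈ A ^ 2 ∧ Commute b x} with hX
  have h1A2 : (1 : SLI ι p) ∈ A ^ 2 := by
    have := Set.pow_subset_pow_right (n := 2) hA.one (Nat.zero_le 2)
    exact this (by simp)
  have h1X : (1 : SLI ι p) ∈ X := ⟨h1A2, Commute.one_right b⟩
  -- the pieces
  set Xt : ℕ × ι × ι × ℕ → Set (SLI ι p) := fun t =>
    {x | x ∈ X ∧ RegM 1 (gm (b ^ t.1 * x).1) ∧ t.2.1 ≠ t.2.2.1 ∧
      ∃ μ : ι → Kb p, Dg (gm x.1) Q μ ∧ μ t.2.1 ^ t.2.2.2 = μ t.2.2.1 ^ t.2.2.2} with hXt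
  set T : Finset (ℕ × ι × ι × ℕ) :=
    (Finset.Icc 1 M) ×ˢ (Finset.univ : Finset ι) ×ˢ (Finset.univ : Finset ι) ×ˢ
      (Finset.Icc 1 M) with hT
  have hTcard : T.card = M * m * m * M := by
    rw [hT]
    simp [Finset.card_product, ← hmdef]
    ring
  have hcover : X ⊆ ⋃ t ∈ T, Xt t := by
    intro x hx
    obtain ⟨s, hs1, hsM, hs⟩ := hSHF ι p b x hm ⟨Q, lam, hQ, hlam⟩ hx.2
    obtain ⟨μ, hμ⟩ := (hTOR ι p b x Q lam hQ hlam1).1 hx.2
    have hnr : ¬ RegM M (gm x.1) := fun h => hcon ⟨x, hx.1, hx.2, h⟩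
    have : ∃ i j, i ≠ j ∧ ∃ s', 1 ≤ s' ∧ s' ≤ M ∧ μ i ^ s' = μ j ^ s' := by
      by_contra hno
      push Not at hno
      exact hnr ⟨Q, μ, hμ, fun i j hij s' h1 h2 => hno i j hij s' h1 h2⟩
    obtain ⟨i, j, hij, s', h1, h2, h3⟩ := this
    simp only [Set.mem_iUnion]
    refine ⟨(s, i, j, s'), ?_, hx, hs, hij, μ, hμ, h3⟩
    rw [hT]
    simp [hs1, h1, h2]
    exact hsM
  have hXfin : X.Finite := Set.toFinite _
  -- pigeonhole
  have hpig : ∃ t ∈ T, X.ncard ≤ T.card * (Xt t).ncard := by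
    by_contra hno
    push Not at hno
    have hTne : T.Nonempty := by
      obtain ⟨t, ht⟩ := Set.mem_iUnion.1 (hcover h1X)
      obtain ⟨ht1, _⟩ := Set.mem_iUnion.1 ht
      exact ⟨t, ht1⟩
    have h1 : X.ncard ≤ ∑ t ∈ T, (Xt t).ncard := by
      refine (Set.ncard_le_ncard hcover (Set.toFinite _)).trans ?_
      exact Finset.set_ncard_biUnion_le T Xt
    have h2 : T.card * X.ncard ≤ ∑ t ∈ T, T.card * (Xt t).ncard := by
      rw [← Finset.mul_sum]
      exact Nat.mul_le_mul_left _ h1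
    have h3 : ∑ t ∈ T, T.card * (Xt t).ncard < ∑ t ∈ T, X.ncard :=
      Finset.sum_lt_sum_of_nonempty hTne hno
    rw [Finset.sum_const, smul_eq_mul] at h3
    omega
  obtain ⟨t, htT, ht⟩ := hpig
  obtain ⟨s, i, j, s'⟩ := t
  have hTT : (1 ≤ s ∧ s ≤ M) ∧ (1 ≤ s' ∧ s' ≤ M) := by
    rw [hT] at htT
    simpa using htT
  obtain ⟨⟨hs1, hsM⟩, hs'1, hs'M⟩ := hTT
  set X' := Xt (s, i, j, s') with hX'
  set Y : Set (SLI ι p) := (fun x => b ^ s * x) '' X' with hY
  have hYcard : Y.ncard = X'.ncard := Set.ncard_image_of_injective _ (mul_right_injective _)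
  have hYr : ∀ y ∈ Y, Commute b y ∧ RegM 1 (gm y.1) := by
    rintro y ⟨x, hx, rfl⟩
    exact ⟨((Commute.refl b).pow_right s).mul_right hx.1.2, hx.2.1⟩
  set Z : Set (SLI ι p) := {z : SLI ι p | ∃ g ∈ A, ∃ y ∈ Y, z = g * y * g⁻¹} with hZ
  have hfib := hFIB ι p b A Y (RegM_mono hM1 ⟨Q, lam, hQ, hlam⟩) hA hYr
  rw [← hX, ← hZ, hYcard, ← hmdef] at hfib
  have hX'pos : 0 < X'.ncard := by
    rcases Nat.eq_zero_or_pos X'.ncard with h | h
    · rw [h, Nat.mul_zero] at ht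
      have : 0 < X.ncard := (Set.ncard_pos hXfin).2 ⟨1, h1X⟩
      omega
    · exact h
  have haZ : A.ncard ≤ R * Z.ncard := by
    have h1 : A.ncard * X'.ncard ≤ (R * Z.ncard) * X'.ncard := by
      calc A.ncard * X'.ncard ≤ m.factorial * X.ncard * Z.ncard := hfib
        _ ≤ m.factorial * (T.card * X'.ncard) * Z.ncard := by gcongr
        _ = (R * Z.ncard) * X'.ncard := by rw [hTcard, hR]; ring
    exact Nat.le_of_mul_le_mul_right h1 hX'pos
  -- the equation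
  have hbinv : gm (b⁻¹).1 * gm b.1 = 1 := gm_inv' b
  have hlj : ∀ i, lam i ≠ 0 := fun i => Dg_ne_zero hQ hbinv i
  have hij : i ≠ j := by
    obtain ⟨x, hx⟩ := (Set.ncard_pos (Set.toFinite X')).1 hX'pos
    exact hx.2.2.1
  obtain ⟨P, hPdeg, hPne, hPz⟩ := hC p (by omega) ((lam i / lam j) ^ (s * s')) s' hs'1 hs'M
  have hZsub : Z ⊆ {x : SLI ι p | x ∈ A ^ (k * M + 4) ∧ ev P (gm x.1) = 0} := by
    rintro z ⟨g, hg, y, ⟨x, hx, rfl⟩, rfl⟩
    obtain ⟨hxX, hxr, _, μ, hμ, hμe⟩ := hx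
    refine ⟨?_, ?_⟩
    · have hb1 : b ^ s ∈ A ^ (k * M) := by
        have h1 : b ^ s ∈ (A ^ k) ^ s := Set.pow_mem_pow hbk
        rw [← pow_mul] at h1
        exact Set.pow_subset_pow_right hA.one (Nat.mul_le_mul_left k hsM) h1
      have h2 : g * (b ^ s * x) * g⁻¹ ∈ A ^ 1 * (A ^ (k * M) * A ^ 2) * A ^ 1 := by
        refine Set.mul_mem_mul (Set.mul_mem_mul ?_ (Set.mul_mem_mul hb1 hxX.1)) ?_
        · simpa using hg
        · simpa using hA.inv g hg
      have h3 : A ^ 1 * (A ^ (k * M) * A ^ 2) * A ^ 1 = A ^ (k * M + 4) := by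
        rw [← pow_add, ← pow_add, ← pow_add]
        congr 1
        ring
      rw [h3] at h2
      exact h2
    · have hz : gm (g * (b ^ s * x) * g⁻¹).1 =
          ((up g : Matrix.GeneralLinearGroup ι (Kb p)) : Matrix ι ι (Kb p)) *
          ((gm b.1) ^ s * gm x.1) * (((up g)⁻¹ : Matrix.GeneralLinearGroup ι (Kb p)) :
            Matrix ι ι (Kb p)) := by
        have hpow : ∀ s : ℕ, gm ((b ^ s : SLI ι p).1) = (gm b.1) ^ s := by
          intro s
          induction s with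
          | zero => simp [gm_one]
          | succ s ih =>
            rw [pow_succ, Matrix.SpecialLinearGroup.coe_mul, gm_mul, ih, pow_succ]
        rw [Matrix.SpecialLinearGroup.coe_mul, Matrix.SpecialLinearGroup.coe_mul,
          Matrix.SpecialLinearGroup.coe_mul, gm_mul, gm_mul, gm_mul, hpow]
        rfl
      have hd := Dg_conj (Dg_mul (Dg_pow hQ s) hμ) (up g)
      rw [← hz] at hd
      refine hPz _ _ _ i j hij hd ?_
      simp only [mul_pow, ← pow_mul]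
      rw [hμe, div_pow]
      field_simp [pow_ne_zero _ (hlj j)]
  have hZle := Set.ncard_le_ncard hZsub (Set.toFinite _)
  have hfin := hW p P A K (by omega) hPdeg hPne hA hK
  have hKpos : 1 ≤ K := by
    have h1 : (1 : SLI ι p) ∈ A ^ n0 := Set.pow_subset_pow_right hA.one (Nat.zero_le n0) (by simp)
    have h2 : 0 < (A ^ n0).ncard := (Set.ncard_pos (Set.toFinite _)).2 ⟨1, h1⟩
    rcases Nat.eq_zero_or_pos K with h | h
    · rw [h, Nat.zero_mul] at hK
      omega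
    · exact h
  have hapos : 0 < A.ncard := (Set.ncard_pos (Set.toFinite _)).2 ⟨1, hA.one⟩
  have hmain : A.ncard * A.ncard ^ e ≤ (R ^ (e + 1) * C * K ^ C) * A.ncard ^ e := by
    calc A.ncard * A.ncard ^ e = A.ncard ^ (e + 1) := by ring
      _ ≤ (R * Z.ncard) ^ (e + 1) := Nat.pow_le_pow_left haZ _
      _ = R ^ (e + 1) * Z.ncard ^ (e + 1) := by rw [mul_pow]
      _ ≤ R ^ (e + 1) * (C * K ^ C * A.ncard ^ e) :=
          Nat.mul_le_mul_left _ ((Nat.pow_le_pow_left hZle _).trans hfin)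
      _ = _ := by ring
  have h1 : A.ncard ≤ R ^ (e + 1) * C * K ^ C :=
    Nat.le_of_mul_le_mul_right hmain (pow_pos hapos e)
  calc A.ncard ≤ R ^ (e + 1) * C * K ^ C := h1
    _ ≤ (R ^ (e + 1) * C + C) * K ^ (R ^ (e + 1) * C + C) :=
        Nat.mul_le_mul (Nat.le_add_right _ _) (Nat.pow_le_pow_right hKpos (Nat.le_add_left _ _))

end Pool.Agent.Work.MP_936a99_pt
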