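import Pool.Agent.Work.MP_936a99_pt.Interface

/-!
# TRFA: a nonzero trace form implies diagonalisability
-/

namespace Pool.Agent.Work.MP_936a99_pt.TRFA

open Matrix Polynomial

variable {ι F : Type} [Fintype ι] [DecidableEq ι] [Field F]

/-- a polynomial of degree `< card ι` whose square is divisible by the characteristic polynomial
gives a kernel vector of the trace form -/
theorem trf_eq_zero (B : Matrix ι ι F) (q g : F[X]) (hq : q ≠ 0)
    (hdeg : q.natDegree < Fintype.card ι) (hqq : q * q = B.charpoly * g) : trf 1 B = 0 := by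
  have h0 : (aeval B q) * (aeval B q) = 0 := by
    rw [← map_mul, hqq, map_mul, Matrix.aeval_self_charpoly, zero_mul]
  have hcomm : ∀ b : ℕ, Commute (aeval B q) (B ^ b) := by
    intro b
    have h1 : Commute (aeval B q) (aeval B (X ^ b : F[X])) := by
      unfold Commute SemiconjBy
      rw [← map_mul, ← map_mul, mul_comm]
    simpa using h1
  have htr : ∀ b : ℕ, (aeval B q * B ^ b).trace = 0 := by
    intro b
    have hnil : IsNilpotent (aeval B q * B ^ b) := by
      refine ⟨2, ?_⟩
      rw [pow_two, (hcomm b).symm.mul_mul_mul_comm, h0, zero_mul]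
    exact (isNilpotent_trace_of_isNilpotent hnil).eq_zero
  rw [trf, ← Matrix.exists_vecMul_eq_zero_iff]
  refine ⟨fun a => q.coeff a.val, ?_, ?_⟩
  · intro hz
    apply hq
    ext k
    rw [coeff_zero]
    by_cases hk : k < Fintype.card ι
    · exact congrFun hz ⟨k, hk⟩
    · exact coeff_eq_zero_of_natDegree_lt (by omega)
  · funext b
    have h2 := htr b.val
    rw [Polynomial.aeval_eq_sum_range' hdeg, Finset.sum_mul, Matrix.trace_sum] at h2
    rw [Matrix.vecMul, dotProduct, Pi.zero_apply, ← h2, Finset.sum_range]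
    apply Finset.sum_congr rfl
    intro a _
    rw [Matrix.of_apply, Algebra.smul_mul_assoc, Matrix.trace_smul, ← pow_add, one_mul,
      smul_eq_mul]

theorem roots_nodup (B : Matrix ι ι F) (h : trf 1 B ≠ 0) : B.charpoly.roots.Nodup := by
  classical
  rw [Multiset.nodup_iff_count_le_one]
  intro l
  by_contra hc
  push Not at hc
  rw [Polynomial.count_roots] at hc
  have hne : B.charpoly ≠ 0 := B.charpoly_monic.ne_zero
  have hdvd : (X - C l) ^ 2 ∣ B.charpoly :=
    (Polynomial.le_rootMultiplicity_iff hne).mp (by omega)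
  obtain ⟨g, hg⟩ := hdvd
  have hg0 : g ≠ 0 := by
    rintro rfl
    rw [mul_zero] at hg
    exact hne hg
  have hX : (X - C l) ≠ 0 := X_sub_C_ne_zero l
  apply h
  apply trf_eq_zero B ((X - C l) * g) g (mul_ne_zero hX hg0)
  · have h1 : B.charpoly.natDegree = Fintype.card ι := B.charpoly_natDegree_eq_dim
    rw [hg, natDegree_mul (pow_ne_zero 2 hX) hg0, natDegree_pow, natDegree_X_sub_C] at h1
    rw [natDegree_mul hX hg0, natDegree_X_sub_C]
    omega
  · rw [hg]; ring

theorem exists_roots [IsAlgClosed F] (B : Matrix ι ι F) (h : trf 1 B ≠ 0) :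
    ∃ μ : ι → F, Function.Injective μ ∧ ∀ i, B.charpoly.IsRoot (μ i) := by
  classical
  have h1 := roots_nodup B h
  have h2 : B.charpoly.roots.card = Fintype.card ι := by
    rw [IsAlgClosed.card_roots_eq_natDegree, B.charpoly_natDegree_eq_dim]
  have h3 : B.charpoly.roots.toFinset.card = Fintype.card ι := by
    rw [Multiset.toFinset_card_of_nodup h1, h2]
  have h4 : Fintype.card ι = Fintype.card B.charpoly.roots.toFinset := by
    rw [Fintype.card_coe, h3]
  let e := Fintype.equivOfCardEq h4
  refine ⟨fun i => (e i).1, ?_, ?_⟩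
  · intro i j hij
    exact e.injective (Subtype.ext hij)
  · intro i
    have h5 := (e i).2
    rw [Multiset.mem_toFinset, mem_roots B.charpoly_monic.ne_zero] at h5
    exact h5

theorem diag_of_roots (B : Matrix ι ι F) (μ : ι → F) (hinj : Function.Injective μ)
    (hr : ∀ i, B.charpoly.IsRoot (μ i)) :
    ∃ Q : Matrix.GeneralLinearGroup ι F, Dg B Q μ := by
  classical
  have hev : ∀ i, ∃ v : ι → F, v ≠ 0 ∧ B *ᵥ v = μ i • v := by
    intro i
    have h1 : (Matrix.scalar ι (μ i) - B).det = 0 := by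
      rw [← Matrix.eval_charpoly]
      exact hr i
    obtain ⟨v, hv, hv0⟩ := Matrix.exists_mulVec_eq_zero_iff.mpr h1
    refine ⟨v, hv, ?_⟩
    rw [Matrix.sub_mulVec, sub_eq_zero] at hv0
    rw [← hv0]
    ext j
    simp [Matrix.scalar_apply, Matrix.mulVec_diagonal]
  choose v hv hBv using hev
  have hli : LinearIndependent F v := by
    apply Module.End.eigenvectors_linearIndependent' (Matrix.toLin' B) μ hinj v
    intro i
    rw [Module.End.hasEigenvector_iff]
    refine ⟨?_, hv i⟩
    rw [Module.End.mem_eigenspace_iff, Matrix.toLin'_apply, hBv]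
  have hQ : IsUnit (Matrix.of fun i j => v j i) := by
    rw [← Matrix.linearIndependent_cols_iff_isUnit]
    exact hli
  obtain ⟨Q, hQe⟩ := hQ
  refine ⟨Q, ?_⟩
  have h1 : B * (Q : Matrix ι ι F) = (Q : Matrix ι ι F) * Matrix.diagonal μ := by
    rw [hQe]
    ext i j
    rw [Matrix.mul_diagonal, Matrix.mul_apply]
    have h2 := congrFun (hBv j) i
    rw [Matrix.mulVec, dotProduct, Pi.smul_apply, smul_eq_mul] at h2
    rw [Matrix.of_apply, mul_comm (v j i), ← h2]
    rfl
  have h2 : (Q : Matrix ι ι F) * ((Q⁻¹ : Matrix.GeneralLinearGroup ι F) : Matrix ι ι F) = 1 := by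
    rw [← Units.val_mul, mul_inv_cancel, Units.val_one]
  unfold Dg
  rw [← h1, mul_assoc, h2, mul_one]

end Pool.Agent.Work.MP_936a99_pt.TRFA

namespace Pool.Agent.Work.MP_936a99_pt

theorem trfa : Stmt_TRFA := by
  intro ι F _ _ _ _ B h
  obtain ⟨μ, hinj, hr⟩ := TRFA.exists_roots B h
  obtain ⟨Q, hQ⟩ := TRFA.diag_of_roots B μ hinj hr
  exact ⟨Q, μ, hQ⟩

end Pool.Agent.Work.MP_936a99_pt
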