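import Pool.Agent.Work.MP_936a99_pt.Interface

/-!
# TRFB: the trace form of a diagonalisable matrix
-/

namespace Pool.Agent.Work.MP_936a99_pt

open Matrix

namespace TRFB

theorem pow_diag {ι F : Type} [Fintype ι] [DecidableEq ι] [Field F] (B : Matrix ι ι F)
    (Q : Matrix.GeneralLinearGroup ι F) (μ : ι → F) (h : Dg B Q μ) (k : ℕ) :
    B ^ k = (Q : Matrix ι ι F) * Matrix.diagonal (fun i => μ i ^ k) *
      ((Q⁻¹ : Matrix.GeneralLinearGroup ι F) : Matrix ι ι F) := by
  have hQ : ((Q⁻¹ : Matrix.GeneralLinearGroup ι F) : Matrix ι ι F) * (Q : Matrix ι ι F) = 1 := by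
    rw [← Units.val_mul, inv_mul_cancel, Units.val_one]
  have hQ' : (Q : Matrix ι ι F) * ((Q⁻¹ : Matrix.GeneralLinearGroup ι F) : Matrix ι ι F) = 1 := by
    rw [← Units.val_mul, mul_inv_cancel, Units.val_one]
  induction k with
  | zero =>
    simp only [pow_zero]
    rw [show (Matrix.diagonal fun _ : ι => (1 : F)) = 1 from Matrix.diagonal_one, mul_one, hQ']
  | succ k ih =>
    rw [pow_succ, ih]
    have h' : B = (Q : Matrix ι ι F) * Matrix.diagonal μ *
      ((Q⁻¹ : Matrix.GeneralLinearGroup ι F) : Matrix ι ι F) := h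
    rw [h']
    have hd : Matrix.diagonal (fun i => μ i ^ (k + 1)) =
        Matrix.diagonal (fun i => μ i ^ k) * Matrix.diagonal μ := by
      rw [Matrix.diagonal_mul_diagonal]
      congr 1
      funext i
      rw [pow_succ]
    rw [hd]
    calc (Q : Matrix ι ι F) * Matrix.diagonal (fun i => μ i ^ k) *
          ((Q⁻¹ : Matrix.GeneralLinearGroup ι F) : Matrix ι ι F) *
          ((Q : Matrix ι ι F) * Matrix.diagonal μ *
          ((Q⁻¹ : Matrix.GeneralLinearGroup ι F) : Matrix ι ι F))
        = (Q : Matrix ι ι F) * Matrix.diagonal (fun i => μ i ^ k) *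
          (((Q⁻¹ : Matrix.GeneralLinearGroup ι F) : Matrix ι ι F) *
          (Q : Matrix ι ι F)) * Matrix.diagonal μ *
          ((Q⁻¹ : Matrix.GeneralLinearGroup ι F) : Matrix ι ι F) := by
          simp only [Matrix.mul_assoc]
      _ = _ := by
          rw [hQ, Matrix.mul_one]
          simp only [Matrix.mul_assoc]

theorem trace_pow_diag {ι F : Type} [Fintype ι] [DecidableEq ι] [Field F] (B : Matrix ι ι F)
    (Q : Matrix.GeneralLinearGroup ι F) (μ : ι → F) (h : Dg B Q μ) (k : ℕ) :
    (B ^ k).trace = ∑ i, μ i ^ k := by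
  have hQ : ((Q⁻¹ : Matrix.GeneralLinearGroup ι F) : Matrix ι ι F) * (Q : Matrix ι ι F) = 1 := by
    rw [← Units.val_mul, inv_mul_cancel, Units.val_one]
  rw [pow_diag B Q μ h k, Matrix.trace_mul_comm, ← Matrix.mul_assoc, hQ, Matrix.one_mul,
    Matrix.trace_diagonal]

end TRFB

/-- the trace form of a diagonalisable matrix -/
theorem trfb : Stmt_TRFB := by
  intro ι F _ _ _ s B Q μ h
  set e := (Fintype.equivFin ι).symm
  set v : Fin (Fintype.card ι) → F := fun k => μ (e k) ^ s with hv
  have hM : (Matrix.of fun a b : Fin (Fintype.card ι) => (B ^ (s * (a.val + b.val))).trace) =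
      (Matrix.vandermonde v)ᵀ * Matrix.vandermonde v := by
    ext a b
    rw [Matrix.of_apply, TRFB.trace_pow_diag B Q μ h, Matrix.mul_apply,
      ← Equiv.sum_comp e (fun i => μ i ^ (s * (a.val + b.val)))]
    refine Finset.sum_congr rfl fun k _ => ?_
    rw [Matrix.transpose_apply, Matrix.vandermonde_apply, Matrix.vandermonde_apply]
    simp only [hv]
    rw [← pow_mul, ← pow_mul, ← pow_add, mul_add]
  have hdet : trf s B = (Matrix.vandermonde v).det ^ 2 := by
    unfold trf
    rw [hM, Matrix.det_mul, Matrix.det_transpose, sq]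
  rw [hdet, pow_ne_zero_iff two_ne_zero, Matrix.det_vandermonde_ne_zero_iff]
  constructor
  · intro hinj i j hij heq
    have h1 : v (e.symm i) = v (e.symm j) := by
      simp only [hv, Equiv.apply_symm_apply]
      exact heq
    exact hij (e.symm.injective (hinj h1))
  · intro hne a b hab
    by_contra hne'
    exact hne (e a) (e b) (fun h' => hne' (e.injective h')) hab

end Pool.Agent.Work.MP_936a99_pt
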