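import Pool.Agent.Work.MP_936a99_pt.Interface

/-!
# TSZ: size of a torus
-/

namespace Pool.Agent.Work.MP_936a99_pt.TSZ

open Matrix

variable {ι : Type} [Fintype ι] [DecidableEq ι] {p : ℕ} [Fact p.Prime]

/-- the centraliser of `b` in the full matrix algebra -/
def W (b : Matrix ι ι (ZMod p)) : Submodule (ZMod p) (Matrix ι ι (ZMod p)) where
  carrier := {X | b * X = X * b}
  add_mem' := by
    intro X Y hX hY
    change b * (X + Y) = (X + Y) * b
    rw [mul_add, add_mul]
    have h1 : b * X = X * b := hX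
    have h2 : b * Y = Y * b := hY
    rw [h1, h2]
  zero_mem' := by
    change b * 0 = 0 * b
    rw [mul_zero, zero_mul]
  smul_mem' := by
    intro c X hX
    change b * (c • X) = (c • X) * b
    have h1 : b * X = X * b := hX
    rw [mul_smul_comm, smul_mul_assoc, h1]

theorem mem_W (b X : Matrix ι ι (ZMod p)) : X ∈ W b ↔ b * X = X * b := Iff.rfl

theorem gm_mul (X Y : Matrix ι ι (ZMod p)) : gm (X * Y) = gm X * gm Y := by
  unfold gm
  rw [Matrix.map_mul]

/-- conjugated matrix -/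
noncomputable def N (Q : Matrix.GeneralLinearGroup ι (Kb p)) (X : Matrix ι ι (ZMod p)) :
    Matrix ι ι (Kb p) :=
  ((Q⁻¹ : Matrix.GeneralLinearGroup ι (Kb p)) : Matrix ι ι (Kb p)) * gm X *
    (Q : Matrix ι ι (Kb p))

theorem QQi (Q : Matrix.GeneralLinearGroup ι (Kb p)) : (Q : Matrix ι ι (Kb p)) *
    ((Q⁻¹ : Matrix.GeneralLinearGroup ι (Kb p)) : Matrix ι ι (Kb p)) = 1 := by
  rw [← Units.val_mul, mul_inv_cancel, Units.val_one]

theorem QiQ (Q : Matrix.GeneralLinearGroup ι (Kb p)) :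
    ((Q⁻¹ : Matrix.GeneralLinearGroup ι (Kb p)) : Matrix ι ι (Kb p)) *
    (Q : Matrix ι ι (Kb p)) = 1 := by
  rw [← Units.val_mul, inv_mul_cancel, Units.val_one]

theorem N_offdiag (b X : Matrix ι ι (ZMod p)) (Q : Matrix.GeneralLinearGroup ι (Kb p))
    (μ : ι → Kb p) (hD : Dg (gm b) Q μ) (hμ : ∀ i j, i ≠ j → μ i ≠ μ j) (hX : X ∈ W b) :
    N Q X = Matrix.diagonal fun i => N Q X i i := by
  have h1 : gm b * gm X = gm X * gm b := by
    rw [← gm_mul, ← gm_mul, (mem_W b X).mp hX]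
  have h2 : Matrix.diagonal μ = ((Q⁻¹ : Matrix.GeneralLinearGroup ι (Kb p)) :
      Matrix ι ι (Kb p)) * gm b * (Q : Matrix ι ι (Kb p)) := by
    rw [hD]
    rw [show ((Q⁻¹ : Matrix.GeneralLinearGroup ι (Kb p)) : Matrix ι ι (Kb p)) *
      ((Q : Matrix ι ι (Kb p)) * diagonal μ *
        ((Q⁻¹ : Matrix.GeneralLinearGroup ι (Kb p)) : Matrix ι ι (Kb p))) *
      (Q : Matrix ι ι (Kb p)) = (((Q⁻¹ : Matrix.GeneralLinearGroup ι (Kb p)) :
        Matrix ι ι (Kb p)) * (Q : Matrix ι ι (Kb p))) * diagonal μ *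
      (((Q⁻¹ : Matrix.GeneralLinearGroup ι (Kb p)) : Matrix ι ι (Kb p)) *
        (Q : Matrix ι ι (Kb p))) by simp only [mul_assoc], QiQ, one_mul, mul_one]
  have h3 : Matrix.diagonal μ * N Q X = N Q X * Matrix.diagonal μ := by
    rw [h2]
    unfold N
    rw [show ((Q⁻¹ : Matrix.GeneralLinearGroup ι (Kb p)) : Matrix ι ι (Kb p)) * gm b *
        (Q : Matrix ι ι (Kb p)) *
        (((Q⁻¹ : Matrix.GeneralLinearGroup ι (Kb p)) : Matrix ι ι (Kb p)) * gm X *
        (Q : Matrix ι ι (Kb p))) = ((Q⁻¹ : Matrix.GeneralLinearGroup ι (Kb p)) :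
          Matrix ι ι (Kb p)) * gm b * ((Q : Matrix ι ι (Kb p)) *
        ((Q⁻¹ : Matrix.GeneralLinearGroup ι (Kb p)) : Matrix ι ι (Kb p))) * gm X *
        (Q : Matrix ι ι (Kb p)) by simp only [mul_assoc]]
    rw [show ((Q⁻¹ : Matrix.GeneralLinearGroup ι (Kb p)) : Matrix ι ι (Kb p)) * gm X *
        (Q : Matrix ι ι (Kb p)) *
        (((Q⁻¹ : Matrix.GeneralLinearGroup ι (Kb p)) : Matrix ι ι (Kb p)) * gm b *
        (Q : Matrix ι ι (Kb p))) = ((Q⁻¹ : Matrix.GeneralLinearGroup ι (Kb p)) :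
          Matrix ι ι (Kb p)) * gm X * ((Q : Matrix ι ι (Kb p)) *
        ((Q⁻¹ : Matrix.GeneralLinearGroup ι (Kb p)) : Matrix ι ι (Kb p))) * gm b *
        (Q : Matrix ι ι (Kb p)) by simp only [mul_assoc]]
    rw [QQi, mul_one, mul_one, mul_assoc _ (gm b) (gm X), h1, mul_assoc _ (gm X) (gm b)]
  ext i j
  by_cases hij : i = j
  · subst hij
    rw [Matrix.diagonal_apply_eq]
  · rw [Matrix.diagonal_apply_ne _ hij]
    have h4 := congrFun (congrFun h3 i) j
    rw [Matrix.diagonal_mul, Matrix.mul_diagonal] at h4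
    have h5 : (μ i - μ j) * N Q X i j = 0 := by
      rw [sub_mul, h4]; ring
    rcases mul_eq_zero.mp h5 with h | h
    · exact absurd (sub_eq_zero.mp h) (hμ i j hij)
    · exact h

theorem gm_of_N (Q : Matrix.GeneralLinearGroup ι (Kb p)) (X : Matrix ι ι (ZMod p)) :
    gm X = (Q : Matrix ι ι (Kb p)) * N Q X *
      ((Q⁻¹ : Matrix.GeneralLinearGroup ι (Kb p)) : Matrix ι ι (Kb p)) := by
  unfold N
  rw [show (Q : Matrix ι ι (Kb p)) * (((Q⁻¹ : Matrix.GeneralLinearGroup ι (Kb p)) :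
      Matrix ι ι (Kb p)) * gm X * (Q : Matrix ι ι (Kb p))) *
      ((Q⁻¹ : Matrix.GeneralLinearGroup ι (Kb p)) : Matrix ι ι (Kb p)) =
      ((Q : Matrix ι ι (Kb p)) * ((Q⁻¹ : Matrix.GeneralLinearGroup ι (Kb p)) :
      Matrix ι ι (Kb p))) * gm X * ((Q : Matrix ι ι (Kb p)) *
      ((Q⁻¹ : Matrix.GeneralLinearGroup ι (Kb p)) : Matrix ι ι (Kb p))) by
    simp only [mul_assoc], QQi, one_mul, mul_one]

theorem finrank_W (b : Matrix ι ι (ZMod p)) (Q : Matrix.GeneralLinearGroup ι (Kb p))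
    (μ : ι → Kb p) (hD : Dg (gm b) Q μ) (hμ : ∀ i j, i ≠ j → μ i ≠ μ j) :
    Module.finrank (ZMod p) (W b) ≤ Fintype.card ι := by
  classical
  by_contra hc
  push Not at hc
  obtain ⟨f, hf⟩ := exists_linearIndependent_of_le_finrank (R := ZMod p) (M := W b)
    (n := Fintype.card ι + 1) hc
  -- the diagonals are dependent over `Kb`
  have hdep : ¬ LinearIndependent (Kb p) (fun k : Fin (Fintype.card ι + 1) =>
      fun i => N Q (f k).1 i i) := by
    intro hli
    have h1 := hli.fintype_card_le_finrank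
    rw [Fintype.card_fin, Module.finrank_fintype_fun_eq_card] at h1
    omega
  rw [Fintype.not_linearIndependent_iff] at hdep
  obtain ⟨c, hc0, k0, hk0⟩ := hdep
  have hN : ∑ k, c k • N Q (f k).1 = 0 := by
    have h1 : ∀ k, N Q (f k).1 = Matrix.diagonal fun i => N Q (f k).1 i i :=
      fun k => N_offdiag b _ Q μ hD hμ (f k).2
    ext i j
    rw [Matrix.sum_apply]
    by_cases hij : i = j
    · subst hij
      have h2 := congrFun hc0 i
      rw [Finset.sum_apply] at h2
      exact h2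
    · rw [Matrix.zero_apply]
      apply Finset.sum_eq_zero
      intro k _
      rw [Matrix.smul_apply, h1 k, Matrix.diagonal_apply_ne _ hij, smul_zero]
  have hG : ∑ k, c k • gm (f k).1 = 0 := by
    have h1 : ∑ k, c k • gm (f k).1 = (Q : Matrix ι ι (Kb p)) * (∑ k, c k • N Q (f k).1) *
        ((Q⁻¹ : Matrix.GeneralLinearGroup ι (Kb p)) : Matrix ι ι (Kb p)) := by
      rw [Finset.mul_sum, Finset.sum_mul]
      apply Finset.sum_congr rfl
      intro k _
      rw [mul_smul_comm, smul_mul_assoc, ← gm_of_N]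
    rw [h1, hN, mul_zero, zero_mul]
  obtain ⟨φ, hφ⟩ := Module.Projective.exists_dual_ne_zero (ZMod p) hk0
  have hrel : ∑ k, φ (c k) • f k = 0 := by
    apply Subtype.ext
    rw [Submodule.coe_sum, Submodule.coe_zero]
    ext i j
    rw [Matrix.sum_apply, Matrix.zero_apply]
    have h1 := congrFun (congrFun hG i) j
    rw [Matrix.sum_apply, Matrix.zero_apply] at h1
    have h2 := congrArg φ h1
    rw [map_sum, map_zero] at h2
    rw [← h2]
    apply Finset.sum_congr rfl
    intro k _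
    rw [Matrix.smul_apply, smul_eq_mul]
    have h3 : c k * gm (f k).1 i j = (f k).1 i j • c k := by
      unfold gm
      rw [Matrix.map_apply, Algebra.smul_def, mul_comm]
    rw [h3, map_smul, smul_eq_mul]
    change φ (c k) • ((f k).1 i j) = _
    rw [smul_eq_mul, mul_comm]
  exact hφ ((Fintype.linearIndependent_iff.mp hf) (fun k => φ (c k)) hrel k0)

theorem card_W (b : Matrix ι ι (ZMod p)) (Q : Matrix.GeneralLinearGroup ι (Kb p))
    (μ : ι → Kb p) (hD : Dg (gm b) Q μ) (hμ : ∀ i j, i ≠ j → μ i ≠ μ j) :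
    Nat.card (W b) ≤ p ^ Fintype.card ι := by
  rw [Module.natCard_eq_pow_finrank (K := ZMod p) (V := W b), Nat.card_zmod]
  exact Nat.pow_le_pow_right (Fact.out : p.Prime).pos (finrank_W b Q μ hD hμ)

theorem count (b : SLI ι p) (hm : 2 ≤ Fintype.card ι) (hW : Nat.card (W b.1) ≤ p ^ Fintype.card ι) :
    (p - 1) * {x : SLI ι p | Commute b x}.ncard ≤ Fintype.card ι * p ^ Fintype.card ι := by
  classical
  have hfin : {x : SLI ι p | Commute b x}.Finite := Set.toFinite _
  set T : Finset (SLI ι p) := hfin.toFinset with hT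
  have hTc : {x : SLI ι p | Commute b x}.ncard = T.card := Set.ncard_eq_toFinset_card _ hfin
  set S : Finset ((ZMod p)ˣ × SLI ι p) := Finset.univ ×ˢ T with hS
  have hSc : S.card = (p - 1) * T.card := by
    rw [hS, Finset.card_product, Finset.card_univ, ZMod.card_units]
  let f : (ZMod p)ˣ × SLI ι p → Matrix ι ι (ZMod p) := fun cx => (cx.1 : ZMod p) • cx.2.1
  have hfib : ∀ w ∈ Finset.image f S, {a ∈ S | f a = w}.card ≤ Fintype.card ι := by
    intro w _
    have h1 : ({a ∈ S | f a = w}).card ≤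
        (Polynomial.nthRoots (Fintype.card ι) w.det).toFinset.card := by
      apply Finset.card_le_card_of_injOn (fun a => (a.1 : ZMod p))
      · intro a ha
        rw [Finset.mem_coe, Finset.mem_filter] at ha
        rw [Finset.mem_coe, Multiset.mem_toFinset, Polynomial.mem_nthRoots (by omega), ← ha.2]
        change (a.1 : ZMod p) ^ Fintype.card ι = ((a.1 : ZMod p) • a.2.1).det
        rw [Matrix.det_smul, a.2.2, mul_one]
      · intro a ha a' ha' haa
        rw [Finset.mem_coe, Finset.mem_filter] at ha ha'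
        have h2 : a.1 = a'.1 := Units.ext haa
        apply Prod.ext h2
        apply Subtype.ext
        have h3 : (a.1 : ZMod p) • a.2.1 = (a'.1 : ZMod p) • a'.2.1 := ha.2.trans ha'.2.symm
        rw [← h2] at h3
        exact smul_right_injective _ a.1.ne_zero h3
    exact h1.trans ((Multiset.toFinset_card_le _).trans (Polynomial.card_nthRoots _ _))
  have h1 := Finset.card_le_mul_card_image S _ hfib
  have h2 : (Finset.image f S).card ≤ Nat.card (W b.1) := by
    have hfinW : ((W b.1 : Submodule (ZMod p) (Matrix ι ι (ZMod p))) :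
        Set (Matrix ι ι (ZMod p))).Finite := Set.toFinite _
    have h3 : Finset.image f S ⊆ hfinW.toFinset := by
      intro w hw
      rw [Finset.mem_image] at hw
      obtain ⟨a, ha, rfl⟩ := hw
      rw [Set.Finite.mem_toFinset, SetLike.mem_coe, mem_W]
      rw [hS, Finset.mem_product, hT, Set.Finite.mem_toFinset] at ha
      have h4 : b * a.2 = a.2 * b := ha.2
      have h5 : b.1 * a.2.1 = a.2.1 * b.1 := by
        have h6 := congrArg Subtype.val h4
        simpa using h6
      change b.1 * ((a.1 : ZMod p) • a.2.1) = ((a.1 : ZMod p) • a.2.1) * b.1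
      rw [mul_smul_comm, smul_mul_assoc, h5]
    have h4 := Finset.card_le_card h3
    rw [← Set.ncard_eq_toFinset_card _ hfinW] at h4
    exact h4
  rw [hTc, ← hSc]
  exact h1.trans (Nat.mul_le_mul_left _ (h2.trans hW))

end Pool.Agent.Work.MP_936a99_pt.TSZ

namespace Pool.Agent.Work.MP_936a99_pt

theorem tsz (_h1 : Stmt_TOR) : Stmt_TSZ := by
  intro ι _ _ p _ b hm hreg
  obtain ⟨Q, μ, hD, hμ⟩ := hreg
  have hμ' : ∀ i j, i ≠ j → μ i ≠ μ j := by
    intro i j hij
    have h := hμ i j hij 1 le_rfl le_rfl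
    simpa using h
  have h1 := TSZ.count b hm (TSZ.card_W b.1 Q μ hD hμ')
  have hp : 2 ≤ p := (Fact.out : p.Prime).two_le
  set t := {x : SLI ι p | Commute b x}.ncard with ht
  obtain ⟨m, hmm⟩ : ∃ m, Fintype.card ι = m + 1 := ⟨Fintype.card ι - 1, by omega⟩
  rw [hmm] at h1 ⊢
  rw [Nat.add_sub_cancel]
  have h2 : p * t ≤ p * (2 * (m + 1) * p ^ m) := by
    calc p * t ≤ 2 * ((p - 1) * t) := by
          rw [← mul_assoc]
          exact Nat.mul_le_mul_right _ (by omega)
      _ ≤ 2 * ((m + 1) * p ^ (m + 1)) := Nat.mul_le_mul_left _ h1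
      _ = p * (2 * (m + 1) * p ^ m) := by ring
  exact Nat.le_of_mul_le_mul_left h2 (by omega)

end Pool.Agent.Work.MP_936a99_pt
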