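import Pool.Agent.Work.MP_936a99_pt.Interface

/-! Block WIT: diagonal witness. -/

namespace Pool.Agent.Work.MP_936a99_pt.WIT

lemma prod_zpow_sum {G ι : Type} [CommGroup G] (a : G) (c : ι → ℤ) (s : Finset ι) :
    ∏ i ∈ s, a ^ c i = a ^ (∑ i ∈ s, c i) := by
  classical
  induction s using Finset.induction_on with
  | empty => simp
  | insert i s hi ih => rw [Finset.prod_insert hi, Finset.sum_insert hi, ih, zpow_add]

lemma sum_c (N : ℤ) (n : ℕ) :
    ∑ k ∈ Finset.range n, (2 * (k : ℤ) - (N - 1)) = (n : ℤ) * ((n : ℤ) - N) := by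
  induction n with
  | zero => simp
  | succ n ih => rw [Finset.sum_range_succ, ih]; push_cast; ring

end Pool.Agent.Work.MP_936a99_pt.WIT

namespace Pool.Agent.Work.MP_936a99_pt

theorem wit : Stmt_WIT := by
  intro ι _ _ M
  classical
  refine ⟨2 * Fintype.card ι * M + 1, fun p _ hp => ?_⟩
  obtain ⟨a, ha⟩ := IsCyclic.exists_generator (α := (ZMod p)ˣ)
  have hord : orderOf a = p - 1 := by
    rw [orderOf_eq_card_of_forall_mem_zpowers ha, Nat.card_eq_fintype_card, ZMod.card_units]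
  set e : ι ≃ Fin (Fintype.card ι) := Fintype.equivFin ι with he
  set c : ι → ℤ := fun i => 2 * ((e i).val : ℤ) - ((Fintype.card ι : ℤ) - 1) with hcdef
  have hc : ∑ i, c i = 0 := by
    have h1 : ∑ i, c i = ∑ k : Fin (Fintype.card ι),
        (2 * ((k.val : ℕ) : ℤ) - ((Fintype.card ι : ℤ) - 1)) :=
      Equiv.sum_comp e (fun k : Fin (Fintype.card ι) =>
        (2 * ((k.val : ℕ) : ℤ) - ((Fintype.card ι : ℤ) - 1)))
    rw [h1, Fin.sum_univ_eq_sum_range
      (fun k : ℕ => (2 * (k : ℤ) - ((Fintype.card ι : ℤ) - 1))) (Fintype.card ι), WIT.sum_c]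
    simp
  refine ⟨fun i => ((a ^ c i : (ZMod p)ˣ) : ZMod p), ?_, ?_⟩
  · rw [← Units.coe_prod, WIT.prod_zpow_sum, hc]
    simp
  · intro i j hij s hs1 hsM h
    have h1 : (a ^ c i) ^ s = (a ^ c j) ^ s := by
      apply Units.ext
      simpa using h
    have h2 : a ^ (c i * (s : ℤ) - c j * (s : ℤ)) = 1 := by
      rw [zpow_sub, zpow_mul, zpow_mul, zpow_natCast, zpow_natCast, h1, mul_inv_cancel]
    rw [← orderOf_dvd_iff_zpow_eq_one, hord] at h2
    have h3 : c i * (s : ℤ) - c j * (s : ℤ) = 2 * (((e i).val : ℤ) - ((e j).val : ℤ)) * s := by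
      simp only [hcdef]; ring
    have hne : ((e i).val : ℤ) - ((e j).val : ℤ) ≠ 0 := by
      intro h0
      apply hij
      apply e.injective
      apply Fin.ext
      omega
    have hi := (e i).isLt
    have hj := (e j).isLt
    have hs1' : (1 : ℤ) ≤ s := by exact_mod_cast hs1
    have hsM' : (s : ℤ) ≤ M := by exact_mod_cast hsM
    have h4 : c i * (s : ℤ) - c j * (s : ℤ) ≠ 0 := by
      rw [h3]
      have : (s : ℤ) ≠ 0 := by omega
      exact mul_ne_zero (mul_ne_zero two_ne_zero hne) this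
    have h5 : |c i * (s : ℤ) - c j * (s : ℤ)| ≤ 2 * (Fintype.card ι : ℤ) * M := by
      rw [h3, abs_mul, abs_mul]
      have ha1 : |((e i).val : ℤ) - ((e j).val : ℤ)| ≤ (Fintype.card ι : ℤ) := by
        rw [abs_le]; constructor <;> omega
      have ha2 : |(s : ℤ)| ≤ M := by rw [abs_of_nonneg (by omega)]; exact hsM'
      have h20 : |(2 : ℤ)| = 2 := by norm_num
      rw [h20]
      have := mul_le_mul ha1 ha2 (abs_nonneg _) (by omega : (0 : ℤ) ≤ (Fintype.card ι : ℤ))
      nlinarith [this]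
    have h6 : ((p - 1 : ℕ) : ℤ) ≤ |c i * (s : ℤ) - c j * (s : ℤ)| := by
      apply Int.le_of_dvd (abs_pos.mpr h4)
      exact (dvd_abs _ _).mpr h2
    have h7 : ((p - 1 : ℕ) : ℤ) ≤ 2 * (Fintype.card ι : ℤ) * M := le_trans h6 h5
    have h8 : p - 1 ≤ 2 * Fintype.card ι * M := by exact_mod_cast h7
    omega

end Pool.Agent.Work.MP_936a99_pt
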