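import Pool.Agent.Work.MP_936a99_pt.Interface

/-!
# Block WL1: popular translates, descent on the space of functions vanishing on a set
-/

namespace Pool.Agent.Work.MP_936a99_pt

open Matrix Pointwise

namespace WL1

variable {G F : Type} [Group G] [Field F]

set_option linter.unusedSectionVars false

/-- the functions of `V` which vanish on `Y` -/
def Iv (V : Submodule F (G → F)) (Y : Set G) : Submodule F (G → F) where
  carrier := {f | f ∈ V ∧ ∀ y ∈ Y, f y = 0}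
  add_mem' := by
    rintro a b ⟨ha, ha'⟩ ⟨hb, hb'⟩
    refine ⟨V.add_mem ha hb, fun y hy => ?_⟩
    simp [ha' y hy, hb' y hy]
  zero_mem' := ⟨V.zero_mem, fun y _ => rfl⟩
  smul_mem' := by
    rintro c a ⟨ha, ha'⟩
    refine ⟨V.smul_mem c ha, fun y hy => ?_⟩
    simp [ha' y hy]

theorem mem_Iv {V : Submodule F (G → F)} {Y : Set G} {f : G → F} :
    f ∈ Iv V Y ↔ f ∈ V ∧ ∀ y ∈ Y, f y = 0 := Iff.rfl

theorem Iv_le (V : Submodule F (G → F)) (Y : Set G) : Iv V Y ≤ V := fun _ h => h.1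

theorem Iv_anti (V : Submodule F (G → F)) {Y Z : Set G} (h : Z ⊆ Y) : Iv V Y ≤ Iv V Z :=
  fun _ hf => ⟨hf.1, fun y hy => hf.2 y (h hy)⟩

theorem inv_mem_pow {A : Set G} (hA : ∀ a ∈ A, a⁻¹ ∈ A) (n : ℕ) : ∀ x ∈ A ^ n, x⁻¹ ∈ A ^ n := by
  induction n with
  | zero =>
    intro x hx
    rw [pow_zero] at hx ⊢
    rw [Set.mem_one] at hx ⊢
    rw [hx, inv_one]
  | succ n ih =>
    intro x hx
    rw [pow_succ] at hx
    obtain ⟨y, hy, a, ha, rfl⟩ := Set.mem_mul.1 hx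
    rw [_root_.mul_inv_rev, pow_succ']
    exact Set.mul_mem_mul (hA a ha) (ih y hy)

/-- number of `y ∈ Y` with `g y ∈ Y` -/
noncomputable def rr (Y : Set G) (g : G) : ℕ := {y | y ∈ Y ∧ g * y ∈ Y}.ncard

theorem count [Finite G] (Y T : Set G) (M : ℕ) (hM : 0 < M) (hT : T.ncard ≤ M)
    (hYT : ∀ y ∈ Y, ∀ z ∈ Y, z * y⁻¹ ∈ T) :
    Y.ncard ≤ 2 * {g : G | g ∈ T ∧ Y.ncard ^ 2 ≤ 2 * M * rr Y g}.ncard := by
  classical
  haveI : Fintype G := Fintype.ofFinite G
  set Yf : Finset G := Finset.univ.filter (fun y => y ∈ Y) with hYf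
  set Tf : Finset G := Finset.univ.filter (fun y => y ∈ T) with hTf
  have hYc : Y.ncard = Yf.card := by
    rw [← Set.ncard_coe_finset]
    congr 1
    ext y; simp [hYf]
  have hTc : T.ncard = Tf.card := by
    rw [← Set.ncard_coe_finset]
    congr 1
    ext y; simp [hTf]
  have hr : ∀ g, rr Y g = (Yf.filter (fun y => g * y ∈ Yf)).card := by
    intro g
    rw [rr, ← Set.ncard_coe_finset]
    congr 1
    ext y; simp [hYf]
  have hsum : ∑ g ∈ Tf, rr Y g = Yf.card * Yf.card := by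
    have h1 : ∑ g ∈ Tf, rr Y g = ∑ g ∈ Tf, ∑ y ∈ Yf, if g * y ∈ Yf then 1 else 0 := by
      refine Finset.sum_congr rfl fun g _ => ?_
      rw [hr, Finset.card_filter]
    rw [h1, Finset.sum_comm]
    have h2 : ∀ y ∈ Yf, (∑ g ∈ Tf, if g * y ∈ Yf then 1 else 0) = Yf.card := by
      intro y hy
      rw [← Finset.card_filter]
      refine Finset.card_bij (fun g _ => g * y) ?_ ?_ ?_
      · intro g hg
        exact (Finset.mem_filter.1 hg).2
      · intro g _ g' _ h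
        exact mul_right_cancel h
      · intro z hz
        refine ⟨z * y⁻¹, ?_, by group⟩
        rw [Finset.mem_filter]
        refine ⟨?_, by simpa using hz⟩
        rw [hTf, Finset.mem_filter]
        refine ⟨Finset.mem_univ _, hYT y ?_ z ?_⟩
        · rw [hYf, Finset.mem_filter] at hy; exact hy.2
        · rw [hYf, Finset.mem_filter] at hz; exact hz.2
    rw [Finset.sum_congr rfl h2, Finset.sum_const, smul_eq_mul]
  set Pf : Finset G := Tf.filter (fun g => Yf.card ^ 2 ≤ 2 * M * rr Y g) with hPf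
  have hPc : {g : G | g ∈ T ∧ Y.ncard ^ 2 ≤ 2 * M * rr Y g}.ncard = Pf.card := by
    rw [← Set.ncard_coe_finset]
    congr 1
    ext y
    rw [hYc]
    simp [hPf, hTf]
  rw [hPc, hYc]
  have hsplit : ∑ g ∈ Tf, rr Y g = ∑ g ∈ Pf, rr Y g +
      ∑ g ∈ Tf.filter (fun g => ¬ Yf.card ^ 2 ≤ 2 * M * rr Y g), rr Y g := by
    rw [hPf]
    exact (Finset.sum_filter_add_sum_filter_not _ _ _).symm
  have hb1 : ∑ g ∈ Pf, rr Y g ≤ Pf.card * Yf.card := by
    rw [← smul_eq_mul]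
    refine Finset.sum_le_card_nsmul _ _ _ fun g _ => ?_
    rw [hr]
    exact Finset.card_filter_le _ _
  have hb2 : 2 * M * ∑ g ∈ Tf.filter (fun g => ¬ Yf.card ^ 2 ≤ 2 * M * rr Y g), rr Y g ≤
      M * Yf.card ^ 2 := by
    rw [Finset.mul_sum]
    calc ∑ g ∈ Tf.filter (fun g => ¬ Yf.card ^ 2 ≤ 2 * M * rr Y g), 2 * M * rr Y g
        ≤ (Tf.filter (fun g => ¬ Yf.card ^ 2 ≤ 2 * M * rr Y g)).card • Yf.card ^ 2 := by
          refine Finset.sum_le_card_nsmul _ _ _ fun g hg => ?_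
          have := (Finset.mem_filter.1 hg).2
          omega
      _ ≤ M * Yf.card ^ 2 := by
          rw [smul_eq_mul]
          refine Nat.mul_le_mul_right _ ?_
          refine (Finset.card_filter_le _ _).trans ?_
          rw [← hTc]; exact hT
  have hb3 : 2 * ∑ g ∈ Tf.filter (fun g => ¬ Yf.card ^ 2 ≤ 2 * M * rr Y g), rr Y g ≤
      Yf.card ^ 2 := by
    refine Nat.le_of_mul_le_mul_left ?_ hM
    calc M * (2 * ∑ g ∈ Tf.filter (fun g => ¬ Yf.card ^ 2 ≤ 2 * M * rr Y g), rr Y g)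
        = 2 * M * ∑ g ∈ Tf.filter (fun g => ¬ Yf.card ^ 2 ≤ 2 * M * rr Y g), rr Y g := by ring
      _ ≤ M * Yf.card ^ 2 := hb2
  rcases Nat.eq_zero_or_pos Yf.card with h0 | h0
  · rw [h0]; exact Nat.zero_le _
  · refine Nat.le_of_mul_le_mul_right ?_ h0
    nlinarith [hsum, hsplit, hb1, hb3]

theorem main [Finite G] (d k K : ℕ) (V : Submodule F (G → F)) (A : Set G)
    (hV : LInv V) (hd : Module.finrank F V ≤ d) (hA : SymGen A)
    (hK : (A ^ (2 * k)).ncard ≤ K * A.ncard) :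
    ∀ (j : ℕ) (Y : Set G), Y ⊆ A ^ k → Y.Nonempty → Iv V Y ≠ ⊥ →
      d ≤ Module.finrank F (Iv V Y) + j →
      ∃ I : Submodule F (G → F), I ≤ V ∧ I ≠ ⊥ ∧ (∃ y, ∀ f' ∈ I, f' y = 0) ∧
        Y.ncard ^ (2 ^ j) ≤ 2 * (2 * K * A.ncard) ^ (2 ^ j - 1) *
          {g : G | g ∈ A ^ (2 * k) ∧ ∀ f' ∈ I, lt g f' ∈ I}.ncard := by
  classical
  haveI : Fintype G := Fintype.ofFinite G
  have hone : (1 : G) ∈ A ^ (2 * k) := by
    have : (1 : Set G) ⊆ A ^ (2 * k) := by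
      have h1 : (1 : Set G) ⊆ A := by
        intro x hx; rw [Set.mem_one] at hx; rw [hx]; exact hA.one
      calc (1 : Set G) = 1 ^ (2 * k) := (one_pow _).symm
        _ ⊆ A ^ (2 * k) := Set.pow_subset_pow_left h1
    exact this (Set.mem_one.2 rfl)
  have hM : 0 < K * A.ncard := by
    refine lt_of_lt_of_le ?_ hK
    exact (Set.ncard_pos (Set.toFinite _)).2 ⟨1, hone⟩
  have hsub : A ^ k ⊆ A ^ (2 * k) := Set.pow_subset_pow_right hA.one (by omega)
  have hYM : ∀ Y : Set G, Y ⊆ A ^ k → Y.ncard ≤ 2 * K * A.ncard := by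
    intro Y hY
    have h1 : Y.ncard ≤ (A ^ (2 * k)).ncard :=
      Set.ncard_le_ncard (hY.trans hsub) (Set.toFinite _)
    have h2 := h1.trans hK
    calc Y.ncard ≤ K * A.ncard := h2
      _ ≤ 2 * (K * A.ncard) := by omega
      _ = 2 * K * A.ncard := by ring
  intro j
  induction j with
  | zero =>
    intro Y hY hne hbot hdim
    have hpop := count Y (A ^ (2 * k)) (K * A.ncard) hM hK (by
      intro y hy z hz
      rw [two_mul, pow_add]
      exact Set.mul_mem_mul (hY hz) (inv_mem_pow hA.inv k y (hY hy)))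
    by_cases hst : ∀ g, Y.ncard ^ 2 ≤ 2 * (K * A.ncard) * rr Y g →
        ∀ f' ∈ Iv V Y, lt g f' ∈ Iv V Y
    · refine ⟨Iv V Y, Iv_le V Y, hbot, ?_, ?_⟩
      · obtain ⟨y, hy⟩ := hne
        exact ⟨y, fun f' hf' => hf'.2 y hy⟩
      · have hle : {g : G | g ∈ A ^ (2 * k) ∧ Y.ncard ^ 2 ≤ 2 * (K * A.ncard) * rr Y g}.ncard ≤
            {g : G | g ∈ A ^ (2 * k) ∧ ∀ f' ∈ Iv V Y, lt g f' ∈ Iv V Y}.ncard :=
          Set.ncard_le_ncard (fun g hg => ⟨hg.1, hst g hg.2⟩) (Set.toFinite _)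
        simp only [pow_zero, pow_one, Nat.sub_self, mul_one]
        omega
    · exfalso
      push Not at hst
      obtain ⟨g, hg, f', hf', hnot⟩ := hst
      have hY1 : Iv V Y < Iv V {y | y ∈ Y ∧ g * y ∈ Y} := by
        refine lt_of_le_of_ne (Iv_anti V fun y hy => hy.1) fun heq => ?_
        refine hnot ?_
        rw [heq]
        exact ⟨hV g f' hf'.1, fun y hy => hf'.2 _ hy.2⟩
      have h1 := Submodule.finrank_lt_finrank_of_lt hY1
      have h2 := Submodule.finrank_mono (Iv_le V {y | y ∈ Y ∧ g * y ∈ Y})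
      omega
  | succ j ih =>
    intro Y hY hne hbot hdim
    have hYpos : 0 < Y.ncard := (Set.ncard_pos (Set.toFinite _)).2 hne
    have hpop := count Y (A ^ (2 * k)) (K * A.ncard) hM hK (by
      intro y hy z hz
      rw [two_mul, pow_add]
      exact Set.mul_mem_mul (hY hz) (inv_mem_pow hA.inv k y (hY hy)))
    by_cases hst : ∀ g, Y.ncard ^ 2 ≤ 2 * (K * A.ncard) * rr Y g →
        ∀ f' ∈ Iv V Y, lt g f' ∈ Iv V Y
    · refine ⟨Iv V Y, Iv_le V Y, hbot, ?_, ?_⟩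
      · obtain ⟨y, hy⟩ := hne
        exact ⟨y, fun f' hf' => hf'.2 y hy⟩
      · have hle : {g : G | g ∈ A ^ (2 * k) ∧ Y.ncard ^ 2 ≤ 2 * (K * A.ncard) * rr Y g}.ncard ≤
            {g : G | g ∈ A ^ (2 * k) ∧ ∀ f' ∈ Iv V Y, lt g f' ∈ Iv V Y}.ncard :=
          Set.ncard_le_ncard (fun g hg => ⟨hg.1, hst g hg.2⟩) (Set.toFinite _)
        have h2 : Y.ncard ≤
            2 * {g : G | g ∈ A ^ (2 * k) ∧ ∀ f' ∈ Iv V Y, lt g f' ∈ Iv V Y}.ncard := by omega
        have h3 : 1 ≤ 2 ^ (j + 1) := Nat.one_le_two_pow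
        calc Y.ncard ^ 2 ^ (j + 1) = Y.ncard ^ (2 ^ (j + 1) - 1) * Y.ncard := by
              rw [← pow_succ, Nat.sub_add_cancel h3]
          _ ≤ (2 * K * A.ncard) ^ (2 ^ (j + 1) - 1) *
              (2 * {g : G | g ∈ A ^ (2 * k) ∧ ∀ f' ∈ Iv V Y, lt g f' ∈ Iv V Y}.ncard) :=
              Nat.mul_le_mul (Nat.pow_le_pow_left (hYM Y hY) _) h2
          _ = _ := by ring
    · push Not at hst
      obtain ⟨g, hg, f', hf', hnot⟩ := hst
      set Y1 : Set G := {y | y ∈ Y ∧ g * y ∈ Y} with hY1def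
      have hY1 : Iv V Y < Iv V Y1 := by
        refine lt_of_le_of_ne (Iv_anti V fun y hy => hy.1) fun heq => ?_
        refine hnot ?_
        rw [heq]
        exact ⟨hV g f' hf'.1, fun y hy => hf'.2 _ hy.2⟩
      have h1 := Submodule.finrank_lt_finrank_of_lt hY1
      have hg' : Y.ncard ^ 2 ≤ 2 * (K * A.ncard) * Y1.ncard := hg
      have hY1ne : Y1.Nonempty := by
        rw [Set.nonempty_iff_ne_empty]
        intro h0
        rw [h0, Set.ncard_empty, mul_zero] at hg'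
        have : 0 < Y.ncard ^ 2 := pow_pos hYpos 2
        omega
      obtain ⟨I, hI1, hI2, hI3, hI4⟩ := ih Y1 (fun y hy => hY hy.1) hY1ne
        (ne_bot_of_le_ne_bot hbot hY1.le) (by omega)
      refine ⟨I, hI1, hI2, hI3, ?_⟩
      have h3 : 1 ≤ 2 ^ j := Nat.one_le_two_pow
      have h4 : 2 ^ (j + 1) - 1 = 2 ^ j + (2 ^ j - 1) := by
        rw [pow_succ]; omega
      calc Y.ncard ^ 2 ^ (j + 1) = (Y.ncard ^ 2) ^ 2 ^ j := by
            rw [← pow_mul, pow_succ, mul_comm]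
        _ ≤ (2 * (K * A.ncard) * Y1.ncard) ^ 2 ^ j := Nat.pow_le_pow_left hg' _
        _ = (2 * K * A.ncard) ^ 2 ^ j * Y1.ncard ^ 2 ^ j := by
            rw [← mul_pow]; ring
        _ ≤ (2 * K * A.ncard) ^ 2 ^ j * (2 * (2 * K * A.ncard) ^ (2 ^ j - 1) *
            {g : G | g ∈ A ^ (2 * k) ∧ ∀ f' ∈ I, lt g f' ∈ I}.ncard) :=
            Nat.mul_le_mul_left _ hI4
        _ = _ := by rw [h4, pow_add]; ring

end WL1

theorem wl1 : Stmt_WL1 := by
  intro d k K G F _ _ _ V A X f hV hd hA hK hf hf0 hX hXne hfX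
  refine WL1.main d k K V A hV hd hA hK d X hX hXne ?_ (by omega)
  intro hbot
  apply hf0
  have : f ∈ WL1.Iv V X := ⟨hf, hfX⟩
  rw [hbot] at this
  exact (Submodule.mem_bot F).1 this

end Pool.Agent.Work.MP_936a99_pt
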