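import Pool.Agent.Work.MP_936a99_pt.Interface

/-!
# Block WL2: few conjugates of the stabiliser of a space of functions intersect in its core
-/

namespace Pool.Agent.Work.MP_936a99_pt

open Pointwise

namespace WL2

variable {G E F : Type} [Group G] [Field F] [AddCommGroup E] [Module F E]

/-- the elements which all `c s⁻¹`, `s ∈ T`, map into `M` -/
def Lsp (c : G → E →ₗ[F] E) (M : Submodule F E) (T : Set G) : Submodule F E where
  carrier := {φ | ∀ s ∈ T, c s⁻¹ φ ∈ M}
  add_mem' := by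
    intro a b ha hb s hs
    rw [map_add]
    exact M.add_mem (ha s hs) (hb s hs)
  zero_mem' := by
    intro s _
    rw [map_zero]
    exact M.zero_mem
  smul_mem' := by
    intro r a ha s hs
    rw [map_smul]
    exact M.smul_mem r (ha s hs)

theorem mem_Lsp (c : G → E →ₗ[F] E) (M : Submodule F E) (T : Set G) (φ : E) :
    φ ∈ Lsp c M T ↔ ∀ s ∈ T, c s⁻¹ φ ∈ M := Iff.rfl

theorem Lsp_anti (c : G → E →ₗ[F] E) (M : Submodule F E) {T T' : Set G} (h : T ⊆ T') :
    Lsp c M T' ≤ Lsp c M T := fun _ hφ s hs => hφ s (h hs)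

theorem pow_mono' {A : Set G} (h1 : (1 : G) ∈ A) {i j : ℕ} (h : i ≤ j) : A ^ i ⊆ A ^ j :=
  Set.pow_subset_pow_right h1 h

theorem stab_exists [FiniteDimensional F E] (D : ℕ) (hE : Module.finrank F E ≤ D)
    (c : G → E →ₗ[F] E) (M : Submodule F E) (A : Set G) (h1 : (1 : G) ∈ A) :
    ∃ j, j ≤ D ∧ Lsp c M (A ^ (j + 1)) = Lsp c M (A ^ j) := by
  by_contra hcon
  push Not at hcon
  have key : ∀ j, j ≤ D + 1 → Module.finrank F (Lsp c M (A ^ j)) + j ≤ D := by
    intro j
    induction j with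
    | zero =>
      intro _
      have := Submodule.finrank_le (Lsp c M (A ^ 0))
      omega
    | succ j ih =>
      intro hj
      have h := ih (by omega)
      have hlt : Lsp c M (A ^ (j + 1)) < Lsp c M (A ^ j) :=
        lt_of_le_of_ne (Lsp_anti c M (pow_mono' h1 (Nat.le_succ j))) (hcon j (by omega))
      have := Submodule.finrank_lt_finrank_of_lt hlt
      omega
  have := key (D + 1) le_rfl
  omega

theorem few_exists [FiniteDimensional F E] (D : ℕ) (hE : Module.finrank F E ≤ D)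
    (c : G → E →ₗ[F] E) (M : Submodule F E) (T : Set G) :
    ∃ S : Finset G, S.card ≤ D ∧ (∀ s ∈ S, s ∈ T) ∧ Lsp c M (S : Set G) ≤ Lsp c M T := by
  classical
  have key : ∀ n : ℕ, ∃ S : Finset G, S.card ≤ n ∧ (∀ s ∈ S, s ∈ T) ∧
      (Lsp c M (S : Set G) ≤ Lsp c M T ∨ Module.finrank F (Lsp c M (S : Set G)) + n ≤ D) := by
    intro n
    induction n with
    | zero =>
      refine ⟨∅, by simp, by simp, Or.inr ?_⟩
      have := Submodule.finrank_le (Lsp c M ((∅ : Finset G) : Set G))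
      omega
    | succ n ih =>
      obtain ⟨S, hc, hT, h⟩ := ih
      by_cases hle : Lsp c M (S : Set G) ≤ Lsp c M T
      · exact ⟨S, by omega, hT, Or.inl hle⟩
      · have h2 := h.resolve_left hle
        obtain ⟨φ, hφ, hφT⟩ := SetLike.not_le_iff_exists.mp hle
        rw [mem_Lsp] at hφT
        push Not at hφT
        obtain ⟨s, hs, hsφ⟩ := hφT
        refine ⟨insert s S, ?_, ?_, Or.inr ?_⟩
        · have := Finset.card_insert_le s S
          omega
        · intro x hx
          rcases Finset.mem_insert.mp hx with rfl | hx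
          · exact hs
          · exact hT x hx
        · have hlt : Lsp c M ((insert s S : Finset G) : Set G) < Lsp c M (S : Set G) := by
            refine lt_of_le_of_ne (Lsp_anti c M ?_) ?_
            · intro x hx
              exact Finset.mem_coe.mpr (Finset.mem_insert_of_mem (Finset.mem_coe.mp hx))
            · intro heq
              rw [← heq] at hφ
              exact hsφ (hφ s (Finset.mem_coe.mpr (Finset.mem_insert_self s S)))
          have := Submodule.finrank_lt_finrank_of_lt hlt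
          omega
  obtain ⟨S, hc, hT, h⟩ := key D
  refine ⟨S, hc, hT, ?_⟩
  rcases h with h | h
  · exact h
  · have h0 : Module.finrank F (Lsp c M (S : Set G)) = 0 := by omega
    rw [Submodule.finrank_eq_zero] at h0
    rw [h0]
    exact bot_le

theorem abs_core [FiniteDimensional F E] (D : ℕ) (hE : Module.finrank F E ≤ D)
    (c : G → E →ₗ[F] E) (c1 : ∀ φ, c 1 φ = φ) (cm : ∀ g h φ, c (g * h) φ = c g (c h φ))
    (M : Submodule F E) (A : Set G) (hA : SymGen A) :
    ∃ S : Finset G, S.card ≤ D ∧ (∀ s ∈ S, s ∈ A ^ D) ∧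
      ∀ φ, (∀ s ∈ S, c s⁻¹ φ ∈ M) → ∀ g, c g⁻¹ φ ∈ M := by
  obtain ⟨j, hj, hL⟩ := stab_exists D hE c M A hA.one
  obtain ⟨S, hc, hT, hS⟩ := few_exists D hE c M (A ^ j)
  refine ⟨S, hc, fun s hs => pow_mono' hA.one hj (hT s hs), ?_⟩
  have hinv : ∀ a ∈ A, ∀ φ ∈ Lsp c M (A ^ j), c a⁻¹ φ ∈ Lsp c M (A ^ j) := by
    intro a ha φ hφ s hs
    rw [← hL] at hφ
    have has : a * s ∈ A ^ (j + 1) := by
      rw [pow_succ']
      exact Set.mul_mem_mul ha hs
    have := hφ (a * s) has
    rwa [mul_inv_rev, cm] at this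
  have hall : ∀ g : G, ∀ φ ∈ Lsp c M (A ^ j),
      c g⁻¹ φ ∈ Lsp c M (A ^ j) ∧ c g φ ∈ Lsp c M (A ^ j) := by
    intro g
    have hg : g ∈ Subgroup.closure A := by rw [hA.gen]; trivial
    induction hg using Subgroup.closure_induction with
    | mem x hx =>
      intro φ hφ
      refine ⟨hinv x hx φ hφ, ?_⟩
      have := hinv x⁻¹ (hA.inv x hx) φ hφ
      rwa [inv_inv] at this
    | one =>
      intro φ hφ
      rw [inv_one, c1]
      exact ⟨hφ, hφ⟩
    | mul x y _ _ hx hy =>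
      intro φ hφ
      rw [mul_inv_rev, cm, cm]
      exact ⟨(hy _ (hx _ hφ).1).1, (hx _ (hy _ hφ).2).2⟩
    | inv x hx' hx =>
      intro φ hφ
      rw [inv_inv]
      exact ⟨(hx φ hφ).2, (hx φ hφ).1⟩
  intro φ hφ g
  have h1 := (hall g φ (hS hφ)).1
  have h2 := h1 1 (Set.one_mem_pow hA.one)
  rwa [inv_one, c1] at h2

/-- left translation on an invariant space -/
def Lg {V : Submodule F (G → F)} (hV : LInv V) (g : G) : V →ₗ[F] V where
  toFun f := ⟨lt g f.1, hV g f.1 f.2⟩
  map_add' _ _ := rfl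
  map_smul' _ _ := rfl

theorem Lg_one {V : Submodule F (G → F)} (hV : LInv V) (u : V) : Lg hV 1 u = u := by
  apply Subtype.ext
  funext x
  show u.1 (1 * x) = u.1 x
  rw [one_mul]

theorem Lg_mul {V : Submodule F (G → F)} (hV : LInv V) (g h : G) (u : V) :
    Lg hV (g * h) u = Lg hV h (Lg hV g u) := by
  apply Subtype.ext
  funext x
  show u.1 (g * h * x) = u.1 (g * (h * x))
  rw [mul_assoc]

/-- conjugation -/
def cj {V : Submodule F (G → F)} (hV : LInv V) (g : G) :
    (V →ₗ[F] V) →ₗ[F] (V →ₗ[F] V) where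
  toFun φ := (Lg hV g⁻¹).comp (φ.comp (Lg hV g))
  map_add' φ ψ := by
    ext1 u
    simp only [LinearMap.comp_apply, LinearMap.add_apply, map_add]
  map_smul' r φ := by
    ext1 u
    simp only [LinearMap.comp_apply, LinearMap.smul_apply, map_smul, RingHom.id_apply]

theorem cj_apply {V : Submodule F (G → F)} (hV : LInv V) (g : G) (φ : V →ₗ[F] V) (u : V) :
    cj hV g φ u = Lg hV g⁻¹ (φ (Lg hV g u)) := rfl

/-- the maps which stabilise `I` -/
def St {V : Submodule F (G → F)} (I : Submodule F (G → F)) : Submodule F (V →ₗ[F] V) where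
  carrier := {φ | ∀ u : V, u.1 ∈ I → (φ u).1 ∈ I}
  add_mem' := by
    intro a b ha hb u hu
    exact I.add_mem (ha u hu) (hb u hu)
  zero_mem' := by
    intro u _
    exact I.zero_mem
  smul_mem' := by
    intro r a ha u hu
    exact I.smul_mem r (ha u hu)

omit [Group G] in
theorem mem_St {V : Submodule F (G → F)} (I : Submodule F (G → F)) (φ : V →ₗ[F] V) :
    φ ∈ St I ↔ ∀ u : V, u.1 ∈ I → (φ u).1 ∈ I := Iff.rfl

theorem cj_Lg {V : Submodule F (G → F)} (hV : LInv V) (s h : G) (u : V) :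
    (cj hV s⁻¹ (Lg hV h) u).1 = lt (s⁻¹ * h * s) u.1 := by
  rw [cj_apply, ← Lg_mul, ← Lg_mul, inv_inv, ← mul_assoc]
  rfl

end WL2

theorem wl2 : Stmt_WL2 := by
  intro d G F _ _ _ V I A hV hd hA hIV
  have hfin : FiniteDimensional F V := inferInstance
  have hE : Module.finrank F (V →ₗ[F] V) ≤ d ^ 2 := by
    rw [Module.finrank_linearMap, sq]
    exact Nat.mul_le_mul hd hd
  have c1 : ∀ φ : V →ₗ[F] V, WL2.cj hV 1 φ = φ := by
    intro φ
    ext1 u
    rw [WL2.cj_apply, inv_one, WL2.Lg_one, WL2.Lg_one]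
  have cm : ∀ (g h : G) (φ : V →ₗ[F] V), WL2.cj hV (g * h) φ = WL2.cj hV g (WL2.cj hV h φ) := by
    intro g h φ
    ext1 u
    rw [WL2.cj_apply, WL2.cj_apply, WL2.cj_apply, mul_inv_rev, WL2.Lg_mul, WL2.Lg_mul]
  obtain ⟨S, hc, hT, hS⟩ := WL2.abs_core (G := G) (E := V →ₗ[F] V) (F := F) (d ^ 2) hE
    (WL2.cj hV) c1 cm (WL2.St (V := V) I) A hA
  refine ⟨S, hc, hT, ?_⟩
  intro h hh g f' hf'
  have h1 := hS (WL2.Lg hV h) (by
    intro s hs
    rw [WL2.mem_St]
    intro u hu
    rw [WL2.cj_Lg]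
    exact hh s hs u.1 hu) g
  have h2 := (WL2.mem_St I _).mp h1 ⟨f', hIV hf'⟩ hf'
  rwa [WL2.cj_Lg] at h2

end Pool.Agent.Work.MP_936a99_pt
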