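import Pool.Agent.Work.MP_936a99_pt.Interface

namespace Pool.Agent.Work.MP_936a99_pt.WL3

open Pointwise

variable {G : Type} [Group G]

theorem pow_mono {A : Set G} (hA : SymGen A) {i j : ℕ} (h : i ≤ j) : A ^ i ⊆ A ^ j :=
  Set.pow_subset_pow_right hA.one h

theorem inv_pow_mem {A : Set G} (hA : SymGen A) (k : ℕ) {x : G} (hx : x ∈ A ^ k) :
    x⁻¹ ∈ A ^ k := by
  have hinv : A⁻¹ = A := by
    ext y
    constructor
    · intro hy
      have := hA.inv _ (Set.mem_inv.mp hy)
      simpa using this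
    · intro hy
      exact Set.mem_inv.mpr (hA.inv _ hy)
  have h2 : x⁻¹ ∈ (A ^ k)⁻¹ := Set.inv_mem_inv.mpr hx
  rw [← inv_pow, hinv] at h2
  exact h2

/-- intersection counting for two subgroups -/
theorem two [Finite G] {A : Set G} (hA : SymGen A) (N : ℕ) (H1 H2 : Subgroup G) :
    (A ^ N ∩ (H1 : Set G)).ncard * (A ^ N ∩ (H2 : Set G)).ncard ≤
      (A ^ (2 * N)).ncard * (A ^ (2 * N) ∩ ((H1 ⊓ H2 : Subgroup G) : Set G)).ncard := by
  classical
  have : Fintype G := Fintype.ofFinite G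
  let P1 : Finset G := (A ^ N ∩ (H1 : Set G)).toFinset
  let P2 : Finset G := (A ^ N ∩ (H2 : Set G)).toFinset
  let f : G × G → G := fun q => q.1⁻¹ * q.2
  have hmul : ∀ x y : G, x ∈ A ^ N → y ∈ A ^ N → x * y ∈ A ^ (2 * N) := by
    intro x y hx hy
    rw [two_mul, pow_add]
    exact Set.mul_mem_mul hx hy
  have key := Finset.card_le_mul_card_image (f := f) (P1 ×ˢ P2)
    ((A ^ (2 * N) ∩ ((H1 ⊓ H2 : Subgroup G) : Set G)).toFinset.card) (by
      intro z hz
      obtain ⟨q0, hq0, hz0⟩ := Finset.mem_image.mp hz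
      have h01 : q0.1 ∈ A ^ N ∧ q0.1 ∈ H1 := by
        have := (Finset.mem_product.mp hq0).1
        simpa [P1] using this
      have h02 : q0.2 ∈ A ^ N ∧ q0.2 ∈ H2 := by
        have := (Finset.mem_product.mp hq0).2
        simpa [P2] using this
      refine Finset.card_le_card_of_injOn (fun q => q.1 * q0.1⁻¹) ?_ ?_
      · intro q hq
        have hq' := Finset.mem_filter.mp (Finset.mem_coe.mp hq)
        have h11 : q.1 ∈ A ^ N ∧ q.1 ∈ H1 := by
          have := (Finset.mem_product.mp hq'.1).1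
          simpa [P1] using this
        have h12 : q.2 ∈ A ^ N ∧ q.2 ∈ H2 := by
          have := (Finset.mem_product.mp hq'.1).2
          simpa [P2] using this
        have hf : q.1⁻¹ * q.2 = q0.1⁻¹ * q0.2 := by
          have h1 := hq'.2
          rw [← hz0] at h1
          exact h1
        have he : q.1 * q0.1⁻¹ = q.2 * q0.2⁻¹ := by
          have h3 : q.2 = q.1 * (q0.1⁻¹ * q0.2) := by
            rw [← hf, mul_inv_cancel_left]
          rw [h3]
          group
        rw [Finset.mem_coe, Set.mem_toFinset]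
        refine ⟨hmul _ _ h11.1 (inv_pow_mem hA N h01.1), ?_⟩
        show q.1 * q0.1⁻¹ ∈ H1 ⊓ H2
        refine Subgroup.mem_inf.mpr ⟨H1.mul_mem h11.2 (H1.inv_mem h01.2), ?_⟩
        rw [he]
        exact H2.mul_mem h12.2 (H2.inv_mem h02.2)
      · intro q hq q' hq' hqq
        have h1 := Finset.mem_filter.mp (Finset.mem_coe.mp hq)
        have h2 := Finset.mem_filter.mp (Finset.mem_coe.mp hq')
        have h3 : q.1 = q'.1 := mul_right_cancel hqq
        have h4 : q.1⁻¹ * q.2 = q'.1⁻¹ * q'.2 := h1.2.trans h2.2.symm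
        rw [h3] at h4
        exact Prod.ext h3 (mul_left_cancel h4))
  have himg : ((P1 ×ˢ P2).image f).card ≤ (A ^ (2 * N)).toFinset.card := by
    refine Finset.card_le_card ?_
    intro z hz
    obtain ⟨q, hq, hz0⟩ := Finset.mem_image.mp hz
    have h01 : q.1 ∈ A ^ N ∧ q.1 ∈ H1 := by
      have := (Finset.mem_product.mp hq).1
      simpa [P1] using this
    have h02 : q.2 ∈ A ^ N ∧ q.2 ∈ H2 := by
      have := (Finset.mem_product.mp hq).2
      simpa [P2] using this
    rw [Set.mem_toFinset, ← hz0]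
    exact hmul _ _ (inv_pow_mem hA N h01.1) h02.1
  rw [Finset.card_product] at key
  have e1 : (A ^ N ∩ (H1 : Set G)).ncard = P1.card := Set.ncard_eq_toFinset_card' _
  have e2 : (A ^ N ∩ (H2 : Set G)).ncard = P2.card := Set.ncard_eq_toFinset_card' _
  have e3 : (A ^ (2 * N)).ncard = (A ^ (2 * N)).toFinset.card := Set.ncard_eq_toFinset_card' _
  have e4 : (A ^ (2 * N) ∩ ((H1 ⊓ H2 : Subgroup G) : Set G)).ncard =
      (A ^ (2 * N) ∩ ((H1 ⊓ H2 : Subgroup G) : Set G)).toFinset.card :=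
    Set.ncard_eq_toFinset_card' _
  rw [e1, e2, e3, e4]
  calc P1.card * P2.card
      ≤ (A ^ (2 * N) ∩ ((H1 ⊓ H2 : Subgroup G) : Set G)).toFinset.card *
        ((P1 ×ˢ P2).image f).card := key
    _ ≤ (A ^ (2 * N) ∩ ((H1 ⊓ H2 : Subgroup G) : Set G)).toFinset.card *
        (A ^ (2 * N)).toFinset.card := Nat.mul_le_mul_left _ himg
    _ = _ := mul_comm _ _

end Pool.Agent.Work.MP_936a99_pt.WL3

namespace Pool.Agent.Work.MP_936a99_pt

open Pointwise

theorem wl3 : Stmt_WL3 := by
  intro n r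
  induction r with
  | zero =>
    intro K t G _ _ A H hA _ ht
    have h0 := ht 0
    have e : (⨅ i, H i : Subgroup G) = H 0 := by
      apply le_antisymm (iInf_le _ _)
      refine le_iInf fun i => ?_
      have : i = 0 := by
        apply Fin.ext
        have := i.isLt
        simp only [Fin.val_zero]
        omega
      rw [this]
    rw [e]
    simpa using h0
  | succ r ih =>
    intro K t G _ _ A H hA hK ht
    have hle : 2 ^ r * n ≤ 2 ^ (r + 1) * n :=
      Nat.mul_le_mul_right _ (Nat.pow_le_pow_right (by norm_num) (Nat.le_succ r))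
    have hKr : (A ^ (2 ^ r * n)).ncard ≤ K * A.ncard :=
      le_trans (Set.ncard_le_ncard (WL3.pow_mono hA hle) (Set.toFinite _)) hK
    have h1 := ih K t G A (fun i => H i.castSucc) hA hKr (fun i => ht i.castSucc)
    have hn : n ≤ 2 ^ r * n := Nat.le_mul_of_pos_left _ (by positivity)
    have h2 : t ≤ (A ^ (2 ^ r * n) ∩ (H (Fin.last (r + 1)) : Set G)).ncard := by
      refine le_trans (ht (Fin.last (r + 1))) (Set.ncard_le_ncard ?_ (Set.toFinite _))
      exact Set.inter_subset_inter_left _ (WL3.pow_mono hA hn)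
    have h3 := WL3.two hA (2 ^ r * n) (⨅ i, H (Fin.castSucc i)) (H (Fin.last (r + 1)))
    have e : (⨅ i, H (Fin.castSucc i)) ⊓ H (Fin.last (r + 1)) = ⨅ i, H i := by
      apply le_antisymm
      · refine le_iInf fun i => ?_
        refine Fin.lastCases ?_ (fun j => ?_) i
        · exact inf_le_right
        · exact le_trans inf_le_left (iInf_le (fun j => H (Fin.castSucc j)) j)
      · exact le_inf (le_iInf fun j => iInf_le _ _) (iInf_le _ _)
    rw [e] at h3
    have e2 : 2 * (2 ^ r * n) = 2 ^ (r + 1) * n := by ring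
    rw [e2] at h3
    calc t ^ (r + 1 + 1) = t ^ (r + 1) * t := pow_succ _ _
      _ ≤ ((K * A.ncard) ^ r * (A ^ (2 ^ r * n) ∩
            ((⨅ i, H (Fin.castSucc i) : Subgroup G) : Set G)).ncard) *
          (A ^ (2 ^ r * n) ∩ (H (Fin.last (r + 1)) : Set G)).ncard := Nat.mul_le_mul h1 h2
      _ = (K * A.ncard) ^ r * ((A ^ (2 ^ r * n) ∩
            ((⨅ i, H (Fin.castSucc i) : Subgroup G) : Set G)).ncard *
          (A ^ (2 ^ r * n) ∩ (H (Fin.last (r + 1)) : Set G)).ncard) := by ring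
      _ ≤ (K * A.ncard) ^ r * ((A ^ (2 ^ (r + 1) * n)).ncard *
          (A ^ (2 ^ (r + 1) * n) ∩ ((⨅ i, H i : Subgroup G) : Set G)).ncard) :=
        Nat.mul_le_mul_left _ h3
      _ ≤ (K * A.ncard) ^ r * ((K * A.ncard) *
          (A ^ (2 ^ (r + 1) * n) ∩ ((⨅ i, H i : Subgroup G) : Set G)).ncard) :=
        Nat.mul_le_mul_left _ (Nat.mul_le_mul_right _ hK)
      _ = _ := by rw [pow_succ (K * A.ncard) r]; ring

end Pool.Agent.Work.MP_936a99_pt
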