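import Pool.Agent.Work.MP_936a99_pt.Interface

namespace Pool.Agent.Work.MP_936a99_pt.WLP

open Pointwise

variable {G F : Type} [Group G] [Field F]

theorem lt_mul (g h : G) (f : G → F) : lt (g * h) f = lt h (lt g f) := by
  funext x
  simp only [lt, mul_assoc]

theorem lt_one (f : G → F) : lt (1 : G) f = f := by
  funext x
  simp only [lt, one_mul]

/-- the stabiliser of `I` conjugated by `s` -/
def Hs [Finite G] (I : Submodule F (G → F)) (s : G) : Subgroup G where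
  carrier := {h | ∀ f' ∈ I, lt (s⁻¹ * h * s) f' ∈ I}
  mul_mem' := by
    intro a b ha hb f' hf'
    have e : s⁻¹ * (a * b) * s = (s⁻¹ * a * s) * (s⁻¹ * b * s) := by group
    rw [e, lt_mul]
    exact hb _ (ha _ hf')
  one_mem' := by
    intro f' hf'
    have e : s⁻¹ * 1 * s = 1 := by group
    rw [e, lt_one]
    exact hf'
  inv_mem' := by
    intro a ha
    have hpow : ∀ k : ℕ, ∀ f' ∈ I, lt (s⁻¹ * a ^ k * s) f' ∈ I := by
      intro k
      induction k with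
      | zero =>
        intro f' hf'
        have e : s⁻¹ * a ^ 0 * s = 1 := by rw [pow_zero]; group
        rw [e, lt_one]
        exact hf'
      | succ k ih =>
        intro f' hf'
        have e : s⁻¹ * a ^ (k + 1) * s = (s⁻¹ * a ^ k * s) * (s⁻¹ * a * s) := by
          rw [pow_succ]; group
        rw [e, lt_mul]
        exact ha _ (ih _ hf')
    have hc : 0 < Nat.card G := Nat.card_pos
    have e : a⁻¹ = a ^ (Nat.card G - 1) := by
      have h1 : a ^ (Nat.card G) = 1 := pow_card_eq_one'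
      have h2 : a ^ (Nat.card G - 1) * a = 1 := by
        rw [← pow_succ, Nat.sub_add_cancel hc, h1]
      exact (eq_inv_of_mul_eq_one_left h2).symm
    intro f' hf'
    rw [e]
    exact hpow _ f' hf'

theorem mem_Hs [Finite G] (I : Submodule F (G → F)) (s h : G) :
    h ∈ Hs I s ↔ ∀ f' ∈ I, lt (s⁻¹ * h * s) f' ∈ I := Iff.rfl

theorem mem_core [Finite G] (I : Submodule F (G → F)) (h : G) :
    h ∈ (⨅ g, Hs I g : Subgroup G) ↔ ∀ g, ∀ f' ∈ I, lt (g⁻¹ * h * g) f' ∈ I := by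
  rw [Subgroup.mem_iInf]
  rfl

theorem core_normal [Finite G] (I : Submodule F (G → F)) :
    (⨅ g, Hs I g : Subgroup G).Normal := by
  refine ⟨fun h hh x => ?_⟩
  rw [mem_core] at hh ⊢
  intro g f' hf'
  have e : g⁻¹ * (x * h * x⁻¹) * g = (x⁻¹ * g)⁻¹ * h * (x⁻¹ * g) := by group
  rw [e]
  exact hh _ f' hf'

theorem core_ne_top [Finite G] (I : Submodule F (G → F)) (hI : I ≠ ⊥)
    (hy : ∃ y, ∀ f' ∈ I, f' y = 0) : (⨅ g, Hs I g : Subgroup G) ≠ ⊤ := by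
  intro htop
  obtain ⟨y, hy⟩ := hy
  obtain ⟨f', hf', hne⟩ := Submodule.exists_mem_ne_zero_of_ne_bot hI
  apply hne
  funext x
  have hm : x * y⁻¹ ∈ (⨅ g, Hs I g : Subgroup G) := by rw [htop]; exact Subgroup.mem_top _
  have h1 := (mem_core I _).mp hm 1 f' hf'
  have h2 := hy _ h1
  have e : (1 : G)⁻¹ * (x * y⁻¹) * 1 * y = x := by group
  simp only [lt] at h2
  rw [e] at h2
  simpa using h2

theorem inv_pow_mem {A : Set G} (hA : SymGen A) (k : ℕ) {x : G} (hx : x ∈ A ^ k) :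
    x⁻¹ ∈ A ^ k := by
  have hinv : A⁻¹ = A := by
    ext y
    constructor
    · intro hy
      have := hA.inv _ (Set.mem_inv.mp hy)
      simpa using this
    · intro hy
      exact Set.mem_inv.mpr (hA.inv _ hy)
  have h2 : x⁻¹ ∈ (A ^ k)⁻¹ := Set.inv_mem_inv.mpr hx
  rw [← inv_pow, hinv] at h2
  exact h2

theorem one_mem_pow {A : Set G} (hA : SymGen A) (k : ℕ) : (1 : G) ∈ A ^ k := by
  have := Set.pow_subset_pow_right (s := A) hA.one (Nat.zero_le k)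
  exact this (by simp)

theorem final_ineq (d z a K x0 h : ℕ) (hK : 1 ≤ K)
    (h1 : x0 ^ (2 ^ d) ≤ 2 * (2 * K * a) ^ (2 ^ d - 1) * h)
    (h2 : h ^ (d ^ 2 + 1) ≤ (K * a) ^ (d ^ 2) * z) :
    x0 ^ ((2 ^ d * (d ^ 2 + 1) - 1) + 1) ≤
      (2 ^ (d ^ 2 + 1) * 2 ^ ((2 ^ d - 1) * (d ^ 2 + 1)) * z + (2 ^ d * (d ^ 2 + 1) - 1)) *
      K ^ (2 ^ (d ^ 2 + 1) * 2 ^ ((2 ^ d - 1) * (d ^ 2 + 1)) * z + (2 ^ d * (d ^ 2 + 1) - 1)) *
      a ^ (2 ^ d * (d ^ 2 + 1) - 1) := by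
  have hp : 1 ≤ 2 ^ d := Nat.one_le_two_pow
  obtain ⟨q, hq⟩ : ∃ q, 2 ^ d = q + 1 := ⟨2 ^ d - 1, by omega⟩
  have hq' : 2 ^ d - 1 = q := by omega
  have he : 2 ^ d * (d ^ 2 + 1) - 1 = q * (d ^ 2 + 1) + d ^ 2 := by
    rw [hq, Nat.add_mul, one_mul]; omega
  rw [he]
  rw [hq'] at h1 ⊢
  generalize hE : q * (d ^ 2 + 1) + d ^ 2 = E
  have e1 : E + 1 = 2 ^ d * (d ^ 2 + 1) := by
    rw [← hE, hq]; ring
  rw [e1, pow_mul]
  calc (x0 ^ 2 ^ d) ^ (d ^ 2 + 1)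
      ≤ (2 * (2 * K * a) ^ q * h) ^ (d ^ 2 + 1) := Nat.pow_le_pow_left h1 _
    _ = 2 ^ (d ^ 2 + 1) * 2 ^ (q * (d ^ 2 + 1)) * (K * a) ^ (q * (d ^ 2 + 1)) *
          h ^ (d ^ 2 + 1) := by
        rw [mul_assoc 2 K a, mul_pow 2 (K * a) q, mul_pow, mul_pow, mul_pow, ← pow_mul, ← pow_mul]
        ring
    _ ≤ 2 ^ (d ^ 2 + 1) * 2 ^ (q * (d ^ 2 + 1)) * (K * a) ^ (q * (d ^ 2 + 1)) *
          ((K * a) ^ (d ^ 2) * z) := Nat.mul_le_mul_left _ h2
    _ = (2 ^ (d ^ 2 + 1) * 2 ^ (q * (d ^ 2 + 1)) * z) * ((K * a) ^ (q * (d ^ 2 + 1)) *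
          (K * a) ^ (d ^ 2)) := by ring
    _ = (2 ^ (d ^ 2 + 1) * 2 ^ (q * (d ^ 2 + 1)) * z) * (K ^ E * a ^ E) := by
        rw [← pow_add (K * a), hE, mul_pow]
    _ ≤ (2 ^ (d ^ 2 + 1) * 2 ^ (q * (d ^ 2 + 1)) * z + E) *
          (K ^ (2 ^ (d ^ 2 + 1) * 2 ^ (q * (d ^ 2 + 1)) * z + E) * a ^ E) := by
        refine Nat.mul_le_mul (Nat.le_add_right _ _) (Nat.mul_le_mul_right _ ?_)
        exact Nat.pow_le_pow_right hK (Nat.le_add_left _ _)
    _ = _ := by ring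

end Pool.Agent.Work.MP_936a99_pt.WLP

namespace Pool.Agent.Work.MP_936a99_pt

open Pointwise WLP

theorem wlp (h1 : Stmt_WL1) (h2 : Stmt_WL2) (h3 : Stmt_WL3) : Stmt_WLP := by
  intro d z k
  refine ⟨2 ^ (d ^ 2) * (2 * k + 2 * d ^ 2), 2 ^ d * (d ^ 2 + 1) - 1,
    2 ^ (d ^ 2 + 1) * 2 ^ ((2 ^ d - 1) * (d ^ 2 + 1)) * z + (2 ^ d * (d ^ 2 + 1) - 1), ?_⟩
  intro G F _ _ _ V A K f hV hd hN hA hK hf hf0
  have hK1 : 1 ≤ K := by
    by_contra hcon
    have h0 : K = 0 := by omega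
    rw [h0, zero_mul] at hK
    have hmem : (1 : G) ∈ A ^ (2 ^ (d ^ 2) * (2 * k + 2 * d ^ 2)) := one_mem_pow hA _
    have hpos := (Set.ncard_pos (Set.toFinite (A ^ (2 ^ (d ^ 2) * (2 * k + 2 * d ^ 2))))).mpr
      ⟨1, hmem⟩
    omega
  set X : Set G := {x : G | x ∈ A ^ k ∧ f x = 0} with hX
  rcases X.eq_empty_or_nonempty with hXe | hXn
  · rw [hXe, Set.ncard_empty, zero_pow (Nat.succ_ne_zero _)]
    exact Nat.zero_le _
  have hn1 : 2 * k + 2 * d ^ 2 ≤ 2 ^ (d ^ 2) * (2 * k + 2 * d ^ 2) :=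
    Nat.le_mul_of_pos_left _ (by positivity)
  have hK2 : (A ^ (2 * k)).ncard ≤ K * A.ncard :=
    le_trans (Set.ncard_le_ncard (Set.pow_subset_pow_right hA.one (by omega)) (Set.toFinite _)) hK
  obtain ⟨I, hIV, hI0, hIy, hcard⟩ := h1 d k K G F V A X f hV hd hA hK2 hf hf0
    (fun x hx => hx.1) hXn (fun x hx => hx.2)
  obtain ⟨S, hScard, hSA, hcore⟩ := h2 d G F V I A hV hd hA hIV
  -- indexing
  let e : Fin (d ^ 2 + 1) → G := fun i => S.toList.getD i.val 1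
  have he1 : ∀ i, e i ∈ A ^ (d ^ 2) := by
    intro i
    by_cases hi : i.val < S.toList.length
    · have : e i = S.toList[i.val] := by
        simp only [e]
        exact List.getD_eq_getElem _ _ hi
      rw [this]
      exact hSA _ (Finset.mem_toList.mp (List.getElem_mem hi))
    · have : e i = 1 := by
        simp only [e]
        exact List.getD_eq_default _ _ (not_lt.mp hi)
      rw [this]
      exact one_mem_pow hA _
  have he2 : ∀ s ∈ S, ∃ i, e i = s := by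
    intro s hs
    obtain ⟨j, hj, hjs⟩ := List.getElem_of_mem (Finset.mem_toList.mpr hs)
    have hlen : S.toList.length = S.card := Finset.length_toList S
    refine ⟨⟨j, by omega⟩, ?_⟩
    simp only [e]
    rw [List.getD_eq_getElem _ _ hj, hjs]
  set T : Set G := {g : G | g ∈ A ^ (2 * k) ∧ ∀ f' ∈ I, lt g f' ∈ I} with hT
  have hti : ∀ i, T.ncard ≤ (A ^ (2 * k + 2 * d ^ 2) ∩ (Hs I (e i) : Set G)).ncard := by
    intro i
    refine Set.ncard_le_ncard_of_injOn (fun g => e i * g * (e i)⁻¹) ?_ ?_ (Set.toFinite _)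
    · intro g hg
      refine ⟨?_, ?_⟩
      · have e0 : 2 * k + 2 * d ^ 2 = d ^ 2 + 2 * k + d ^ 2 := by ring
        rw [e0, pow_add, pow_add]
        exact Set.mul_mem_mul (Set.mul_mem_mul (he1 i) hg.1) (inv_pow_mem hA _ (he1 i))
      · show e i * g * (e i)⁻¹ ∈ Hs I (e i)
        rw [mem_Hs]
        intro f' hf'
        have e0 : (e i)⁻¹ * (e i * g * (e i)⁻¹) * e i = g := by group
        rw [e0]
        exact hg.2 f' hf'
    · intro g _ g' _ hgg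
      exact mul_left_cancel (mul_right_cancel hgg)
  have h4 := h3 (2 * k + 2 * d ^ 2) (d ^ 2) K T.ncard G A (fun i => Hs I (e i)) hA hK hti
  have hle : (⨅ i, Hs I (e i) : Subgroup G) ≤ ⨅ g, Hs I g := by
    intro h hh
    rw [mem_core]
    rw [Subgroup.mem_iInf] at hh
    refine hcore h ?_
    intro s hs f' hf'
    obtain ⟨i, hi⟩ := he2 s hs
    have := (mem_Hs I _ _).mp (hh i) f' hf'
    rw [hi] at this
    exact this
  have hz := hN _ (core_normal I) (core_ne_top I hI0 hIy)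
  have h5 : (A ^ (2 ^ (d ^ 2) * (2 * k + 2 * d ^ 2)) ∩
      ((⨅ i, Hs I (e i) : Subgroup G) : Set G)).ncard ≤ z := by
    refine le_trans (Set.ncard_le_ncard (t := ((⨅ g, Hs I g : Subgroup G) : Set G)) ?_
      (Set.toFinite _)) ?_
    · intro x hx
      exact hle hx.2
    · rw [← Nat.card_coe_set_eq]
      exact hz
  have h6 : T.ncard ^ (d ^ 2 + 1) ≤ (K * A.ncard) ^ (d ^ 2) * z :=
    le_trans h4 (Nat.mul_le_mul_left _ h5)
  exact final_ineq d z A.ncard K X.ncard T.ncard hK1 hcard h6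

end Pool.Agent.Work.MP_936a99_pt
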