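import Pool.Agent.Work.MP_936a99_pt.Interface

/-! Block WLS: weak Larsen-Pink inequality for `SL_m(F_p)`. -/

namespace Pool.Agent.Work.MP_936a99_pt.WLS

open MvPolynomial Matrix

lemma finrank_restrictDegree_le (σ F : Type) [Fintype σ] [DecidableEq σ] [Field F] (D : ℕ) :
    Module.finrank F (restrictDegree σ F D) ≤ (D + 1) ^ Fintype.card σ := by
  classical
  have hb := Module.finrank_eq_nat_card_basis
    (basisRestrictSupport F {n : σ →₀ ℕ | ∀ i, n i ≤ D})
  have hb' : Module.finrank F (restrictDegree σ F D) =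
    Nat.card {n : σ →₀ ℕ | ∀ i, n i ≤ D} := hb
  rw [hb']
  have hinj : Function.Injective
      (fun (n : {n : σ →₀ ℕ | ∀ i, n i ≤ D}) (i : σ) =>
        (⟨n.1 i, Nat.lt_succ_of_le (n.2 i)⟩ : Fin (D + 1))) := by
    intro a b hab
    apply Subtype.ext
    apply Finsupp.ext
    intro i
    have := congrFun hab i
    simpa using congrArg Fin.val this
  have := Nat.card_le_card_of_injective _ hinj
  simpa using this

/-- evaluation at the points of `SL` as a linear map -/
noncomputable def L (ι : Type) [Fintype ι] [DecidableEq ι] (p : ℕ) [Fact p.Prime] :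
    MvPolynomial (ι × ι) (Kb p) →ₗ[Kb p] (SLI ι p → Kb p) where
  toFun P := fun g => ev P (gm g.1)
  map_add' P Q := by
    funext g
    simp [ev]
  map_smul' c P := by
    funext g
    simp [ev]

/-- the linear form giving an entry of `B * X` -/
noncomputable def phi {ι F : Type} [Fintype ι] [DecidableEq ι] [Field F] (B : Matrix ι ι F)
    (x : ι × ι) : MvPolynomial (ι × ι) F :=
  ∑ k, C (B x.1 k) * X (k, x.2)

lemma deg_phi {ι F : Type} [Fintype ι] [DecidableEq ι] [Field F] (B : Matrix ι ι F)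
    (x : ι × ι) : (phi B x).totalDegree ≤ 1 := by
  unfold phi
  apply totalDegree_finsetSum_le
  intro k _
  refine (totalDegree_mul _ _).trans ?_
  simp

/-- `P (B X)` -/
noncomputable def tr {ι F : Type} [Fintype ι] [DecidableEq ι] [Field F] (B : Matrix ι ι F)
    (P : MvPolynomial (ι × ι) F) : MvPolynomial (ι × ι) F :=
  ∑ d ∈ P.support, C (P.coeff d) * ∏ x, phi B x ^ d x

lemma deg_tr {ι F : Type} [Fintype ι] [DecidableEq ι] [Field F] (B : Matrix ι ι F)
    (P : MvPolynomial (ι × ι) F) : (tr B P).totalDegree ≤ P.totalDegree := by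
  unfold tr
  apply totalDegree_finsetSum_le
  intro d hd
  refine (totalDegree_mul _ _).trans ?_
  rw [totalDegree_C, zero_add]
  refine (totalDegree_finsetProd _ _).trans ?_
  have h1 : ∑ x, (phi B x ^ d x).totalDegree ≤ ∑ x, d x := by
    apply Finset.sum_le_sum
    intro x _
    refine (totalDegree_pow _ _).trans ?_
    have := Nat.mul_le_mul_left (d x) (deg_phi B x)
    simpa using this
  refine h1.trans ?_
  have h2 := le_totalDegree hd
  rw [Finsupp.sum_fintype _ _ (fun _ => rfl)] at h2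
  exact h2

lemma ev_tr {ι F : Type} [Fintype ι] [DecidableEq ι] [Field F] (B E : Matrix ι ι F)
    (P : MvPolynomial (ι × ι) F) : ev (tr B P) E = ev P (B * E) := by
  unfold ev tr
  rw [map_sum, eval_eq']
  apply Finset.sum_congr rfl
  intro d _
  rw [map_mul, eval_C, map_prod]
  congr 1
  apply Finset.prod_congr rfl
  intro x _
  rw [map_pow]
  congr 1
  unfold phi
  simp [Matrix.mul_apply]

lemma gm_mul {ι : Type} [Fintype ι] [DecidableEq ι] {p : ℕ} [Fact p.Prime]
    (g x : Matrix ι ι (ZMod p)) : gm (g * x) = gm g * gm x := by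
  unfold gm
  exact Matrix.map_mul

end Pool.Agent.Work.MP_936a99_pt.WLS

namespace Pool.Agent.Work.MP_936a99_pt

open MvPolynomial Matrix

theorem wls (h1 : Stmt_WLP) (h2 : Stmt_NORM) : Stmt_WLS := by
  intro ι _ _ D k
  obtain ⟨n0, e, C, h⟩ := h1 ((D + 1) ^ Fintype.card (ι × ι)) (Fintype.card ι) k
  refine ⟨n0, e, C, ?_⟩
  intro p _ P A K hp hP hne hA hAK
  set V : Submodule (Kb p) (SLI ι p → Kb p) :=
    (restrictTotalDegree (ι × ι) (Kb p) D).map (WLS.L ι p) with hV
  have hinv : LInv V := by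
    intro g f hf
    obtain ⟨Q, hQ, rfl⟩ := Submodule.mem_map.mp hf
    refine Submodule.mem_map.mpr ⟨WLS.tr (gm g.1) Q, ?_, ?_⟩
    · rw [mem_restrictTotalDegree] at hQ ⊢
      exact (WLS.deg_tr _ _).trans hQ
    · funext x
      show ev (WLS.tr (gm g.1) Q) (gm x.1) = ev Q (gm (g * x).1)
      rw [WLS.ev_tr, ← WLS.gm_mul]
      rfl
  have hfin : Module.finrank (Kb p) V ≤ (D + 1) ^ Fintype.card (ι × ι) := by
    refine (Submodule.finrank_map_le _ _).trans ?_
    refine (Submodule.finrank_mono (restrictTotalDegree_le_restrictDegree _ _ _)).trans ?_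
    exact WLS.finrank_restrictDegree_le (ι × ι) (Kb p) D
  have hf : WLS.L ι p P ∈ V :=
    Submodule.mem_map.mpr ⟨P, (mem_restrictTotalDegree _ _ _).mpr hP, rfl⟩
  have hf0 : WLS.L ι p P ≠ 0 := by
    obtain ⟨g, hg⟩ := hne
    intro h0
    exact hg (congrFun h0 g)
  have := h (SLI ι p) (Kb p) V A K (WLS.L ι p P) hinv hfin (h2 ι p hp) hA hAK hf hf0
  exact this

end Pool.Agent.Work.MP_936a99_pt
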