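import Pool.Agent.Work.MP_936a99_pt.Assembly
import Pool.Agent.Work.MP_936a99_pt.WL1
import Pool.Agent.Work.MP_936a99_pt.WL2
import Pool.Agent.Work.MP_936a99_pt.WL3
import Pool.Agent.Work.MP_936a99_pt.WLP
import Pool.Agent.Work.MP_936a99_pt.NORM
import Pool.Agent.Work.MP_936a99_pt.WLS
import Pool.Agent.Work.MP_936a99_pt.TRFA
import Pool.Agent.Work.MP_936a99_pt.TRFB
import Pool.Agent.Work.MP_936a99_pt.WIT
import Pool.Agent.Work.MP_936a99_pt.CREG
import Pool.Agent.Work.MP_936a99_pt.CKAP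
import Pool.Agent.Work.MP_936a99_pt.CTR
import Pool.Agent.Work.MP_936a99_pt.TOR_h3
import Pool.Agent.Work.MP_936a99_pt.TCO
import Pool.Agent.Work.MP_936a99_pt.TCJ
import Pool.Agent.Work.MP_936a99_pt.TSZ
import Pool.Agent.Work.MP_936a99_pt.FIB
import Pool.Agent.Work.MP_936a99_pt.FIB2
import Pool.Agent.Work.MP_936a99_pt.SHF
import Pool.Agent.Work.MP_936a99_pt.RCJ
import Pool.Agent.Work.MP_936a99_pt.CLS
import Pool.Agent.Work.MP_936a99_pt.TRF
import Pool.Agent.Work.MP_936a99_pt.INV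
import Pool.Agent.Work.MP_936a99_pt.BIGT
import Pool.Agent.Work.MP_936a99_pt.QRE
import Pool.Agent.Work.MP_936a99_pt.QRI
import Pool.Agent.Work.MP_936a99_pt.QRU_h3
import Pool.Agent.Work.MP_936a99_pt.QRA
import Pool.Agent.Work.MP_936a99_pt.QRB
import Pool.Agent.Work.MP_936a99_pt.ORD
import Pool.Agent.Work.MP_936a99_pt.PROD
import Pool.Agent.Work.MP_936a99_pt.ITER
import Pool.Agent.Work.MP_936a99_pt.FD

/-!
# All blocks together: Babai's bound for `SL_m(F_p)`, `m` fixed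
-/

namespace Pool.Agent.Work.MP_936a99_pt

theorem wls_thm : Stmt_WLS := wls (wlp wl1 wl2 wl3) norm

theorem tco_thm : Stmt_TCO := tco tor_h3

theorem tcj_thm : Stmt_TCJ := tcj tor_h3

theorem trf_thm : Stmt_TRF :=
  trf_of wls_thm (ckap wit trfb) (fib tco_thm tcj_thm) (shf tor_h3) tor_h3

theorem inv_thm : Stmt_INV := inv wls_thm (creg wit trfa trfb) trf_thm tco_thm rcj

theorem cls_thm : Stmt_CLS := cls wls_thm ctr

theorem bigt_thm : Stmt_BIGT :=
  bigt inv_thm cls_thm (shf tor_h3) (fib2 tco_thm tcj_thm) (tsz tor_h3) tco_thm rcj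

theorem qra_thm : Stmt_QRA := qra qre qri qru_h3 norm

theorem prod_thm : Stmt_PROD := prod bigt_thm qra_thm qrb ord

theorem fd_thm : Stmt_FD := fd prod_thm iter

end Pool.Agent.Work.MP_936a99_pt
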