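import Pool.Agent.Work.MP_936a99_al_h7.Bound

/-!
# Interface: Babai's bound for `SL_m(F_p)`, `m` fixed, `p` arbitrary

Every block proves one of the propositions `Stmt_XXX` below in its own file
`Pool/Agent/Work/MP_936a99_pt/XXX.lean`, importing only this file, as a theorem
`theorem xxx (h1 : Stmt_DEP1) ... : Stmt_XXX` in the namespace `Pool.Agent.Work.MP_936a99_pt`
(own lemmas in the namespace `Pool.Agent.Work.MP_936a99_pt.XXX`).
The proofs on paper are in `BLUEPRINT.md`.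

Conventions: `A ^ k` is the pointwise power of a set of group elements, `Set.ncard` counts, all
bounds are inequalities of natural numbers.
-/

namespace Pool.Agent.Work.MP_936a99_pt

open Matrix Pointwise

/-- special linear group over `F_p` with an arbitrary index type -/
abbrev SLI (ι : Type) [Fintype ι] [DecidableEq ι] (p : ℕ) := Matrix.SpecialLinearGroup ι (ZMod p)

/-- symmetric generating set containing `1` -/
structure SymGen {G : Type} [Group G] (A : Set G) : Prop where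
  one : (1 : G) ∈ A
  inv : ∀ a ∈ A, a⁻¹ ∈ A
  gen : Subgroup.closure A = ⊤

/-! ## Part W: the weak Larsen-Pink inequality in an abstract finite group -/

/-- left translate of a function -/
def lt {G F : Type} [Group G] (g : G) (f : G → F) : G → F := fun x => f (g * x)

/-- left invariant space of functions -/
def LInv {G F : Type} [Group G] [Field F] (V : Submodule F (G → F)) : Prop :=
  ∀ g : G, ∀ f ∈ V, lt g f ∈ V

/-- WL1: many points of `A ^ k` on which `f` vanishes give many elements of `A ^ (2 k)` in the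
stabiliser of a nonzero space of functions with a common zero. -/
def Stmt_WL1 : Prop := ∀ (d k K : ℕ) (G F : Type) [Group G] [Finite G] [Field F]
  (V : Submodule F (G → F)) (A X : Set G) (f : G → F),
  LInv V → Module.finrank F V ≤ d → SymGen A → (A ^ (2 * k)).ncard ≤ K * A.ncard →
  f ∈ V → f ≠ 0 → X ⊆ A ^ k → X.Nonempty → (∀ x ∈ X, f x = 0) →
  ∃ I : Submodule F (G → F), I ≤ V ∧ I ≠ ⊥ ∧ (∃ y, ∀ f' ∈ I, f' y = 0) ∧
    X.ncard ^ (2 ^ d) ≤ 2 * (2 * K * A.ncard) ^ (2 ^ d - 1) *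
      {g : G | g ∈ A ^ (2 * k) ∧ ∀ f' ∈ I, lt g f' ∈ I}.ncard

/-- WL2: few conjugates of the stabiliser of `I` intersect in its normal core. -/
def Stmt_WL2 : Prop := ∀ (d : ℕ) (G F : Type) [Group G] [Finite G] [Field F]
  (V I : Submodule F (G → F)) (A : Set G),
  LInv V → Module.finrank F V ≤ d → SymGen A → I ≤ V →
  ∃ S : Finset G, S.card ≤ d ^ 2 ∧ (∀ s ∈ S, s ∈ A ^ (d ^ 2)) ∧
    ∀ h : G, (∀ s ∈ S, ∀ f' ∈ I, lt (s⁻¹ * h * s) f' ∈ I) →
      ∀ g : G, ∀ f' ∈ I, lt (g⁻¹ * h * g) f' ∈ I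

/-- WL3: intersections of subgroups which contain many elements of `A ^ n`. -/
def Stmt_WL3 : Prop := ∀ (n r K t : ℕ) (G : Type) [Group G] [Finite G] (A : Set G)
  (H : Fin (r + 1) → Subgroup G), SymGen A → (A ^ (2 ^ r * n)).ncard ≤ K * A.ncard →
  (∀ i, t ≤ (A ^ n ∩ (H i : Set G)).ncard) →
  t ^ (r + 1) ≤ (K * A.ncard) ^ r * (A ^ (2 ^ r * n) ∩ ((⨅ i, H i : Subgroup G) : Set G)).ncard

/-- WLP: weak Larsen-Pink inequality. -/
def Stmt_WLP : Prop := ∀ (d z k : ℕ), ∃ n0 e C : ℕ, ∀ (G F : Type) [Group G] [Finite G] [Field F]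
  (V : Submodule F (G → F)) (A : Set G) (K : ℕ) (f : G → F),
  LInv V → Module.finrank F V ≤ d → (∀ N : Subgroup G, N.Normal → N ≠ ⊤ → Nat.card N ≤ z) →
  SymGen A → (A ^ n0).ncard ≤ K * A.ncard → f ∈ V → f ≠ 0 →
  {x : G | x ∈ A ^ k ∧ f x = 0}.ncard ^ (e + 1) ≤ C * K ^ C * A.ncard ^ e

/-- NORM: proper normal subgroups of `SL_m(F_p)` are small. -/
def Stmt_NORM : Prop := ∀ (ι : Type) [Fintype ι] [DecidableEq ι] (p : ℕ) [Fact p.Prime],
  5 ≤ p → ∀ N : Subgroup (SLI ι p), N.Normal → N ≠ ⊤ → Nat.card N ≤ Fintype.card ι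

/-! ## Part P: polynomials in the entries -/

/-- the algebraic closure of `F_p` -/
abbrev Kb (p : ℕ) [Fact p.Prime] : Type := AlgebraicClosure (ZMod p)

/-- a matrix over `F_p` as a matrix over the algebraic closure -/
noncomputable def gm {ι : Type} {p : ℕ} [Fact p.Prime] (g : Matrix ι ι (ZMod p)) :
    Matrix ι ι (Kb p) :=
  g.map (algebraMap (ZMod p) (Kb p))

/-- value of a polynomial in the entries of a matrix -/
noncomputable def ev {ι R : Type} [CommRing R] (P : MvPolynomial (ι × ι) R) (B : Matrix ι ι R) :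
    R :=
  MvPolynomial.eval (fun x => B x.1 x.2) P

/-- WLS: weak Larsen-Pink inequality for `SL_m(F_p)`. -/
def Stmt_WLS : Prop := ∀ (ι : Type) [Fintype ι] [DecidableEq ι] (D k : ℕ), ∃ n0 e C : ℕ,
  ∀ (p : ℕ) [Fact p.Prime] (P : MvPolynomial (ι × ι) (Kb p)) (A : Set (SLI ι p)) (K : ℕ),
  5 ≤ p → P.totalDegree ≤ D → (∃ g : SLI ι p, ev P (gm g.1) ≠ 0) →
  SymGen A → (A ^ n0).ncard ≤ K * A.ncard →
  {x : SLI ι p | x ∈ A ^ k ∧ ev P (gm x.1) = 0}.ncard ^ (e + 1) ≤ C * K ^ C * A.ncard ^ e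

/-- `B = Q diag(μ) Q⁻¹` -/
def Dg {ι F : Type} [Fintype ι] [DecidableEq ι] [Field F] (B : Matrix ι ι F)
    (Q : Matrix.GeneralLinearGroup ι F) (μ : ι → F) : Prop :=
  B = (Q : Matrix ι ι F) * Matrix.diagonal μ * ((Q⁻¹ : Matrix.GeneralLinearGroup ι F) :
    Matrix ι ι F)

/-- `M`-regular: diagonalisable, and the `s`-th powers of the eigenvalues are distinct for
`1 ≤ s ≤ M`. -/
def RegM {ι F : Type} [Fintype ι] [DecidableEq ι] [Field F] (M : ℕ) (B : Matrix ι ι F) : Prop :=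
  ∃ (Q : Matrix.GeneralLinearGroup ι F) (μ : ι → F), Dg B Q μ ∧
    ∀ i j, i ≠ j → ∀ s, 1 ≤ s → s ≤ M → μ i ^ s ≠ μ j ^ s

/-- the determinant of the trace form of `B ^ s` -/
def trf {ι R : Type} [Fintype ι] [DecidableEq ι] [CommRing R] (s : ℕ) (B : Matrix ι ι R) : R :=
  (Matrix.of fun a b : Fin (Fintype.card ι) => (B ^ (s * (a.val + b.val))).trace).det

/-- TRFA: nonzero trace form implies diagonalisable. -/
def Stmt_TRFA : Prop := ∀ (ι F : Type) [Fintype ι] [DecidableEq ι] [Field F] [IsAlgClosed F]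
  (B : Matrix ι ι F), trf 1 B ≠ 0 → ∃ (Q : Matrix.GeneralLinearGroup ι F) (μ : ι → F), Dg B Q μ

/-- TRFB: the trace form of a diagonalisable matrix. -/
def Stmt_TRFB : Prop := ∀ (ι F : Type) [Fintype ι] [DecidableEq ι] [Field F] (s : ℕ)
  (B : Matrix ι ι F) (Q : Matrix.GeneralLinearGroup ι F) (μ : ι → F), Dg B Q μ →
  (trf s B ≠ 0 ↔ ∀ i j, i ≠ j → μ i ^ s ≠ μ j ^ s)

/-- WIT: there are `M`-regular diagonal matrices in `SL_m(F_p)`. -/
def Stmt_WIT : Prop := ∀ (ι : Type) [Fintype ι] [DecidableEq ι] (M : ℕ), ∃ P0 : ℕ,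
  ∀ (p : ℕ) [Fact p.Prime], P0 < p → ∃ μ : ι → ZMod p, ∏ i, μ i = 1 ∧
    ∀ i j, i ≠ j → ∀ s, 1 ≤ s → s ≤ M → μ i ^ s ≠ μ j ^ s

/-- CREG: a polynomial certificate of bounded degree for `M`-regularity. -/
def Stmt_CREG : Prop := ∀ (ι : Type) [Fintype ι] [DecidableEq ι] (M : ℕ), ∃ D P0 : ℕ,
  ∀ (p : ℕ) [Fact p.Prime], P0 < p → ∃ P : MvPolynomial (ι × ι) (Kb p), P.totalDegree ≤ D ∧
    (∃ g : SLI ι p, ev P (gm g.1) ≠ 0) ∧ ∀ B : Matrix ι ι (Kb p), ev P B ≠ 0 → RegM M B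

/-- CKAP: a nontrivial polynomial equation of bounded degree satisfied by the matrices with two
eigenvalues `μ i`, `μ j` with `μ i ^ s = κ * μ j ^ s`. -/
def Stmt_CKAP : Prop := ∀ (ι : Type) [Fintype ι] [DecidableEq ι] (M : ℕ), ∃ D P0 : ℕ,
  ∀ (p : ℕ) [Fact p.Prime], P0 < p → ∀ (κ : Kb p) (s : ℕ), 1 ≤ s → s ≤ M →
    ∃ P : MvPolynomial (ι × ι) (Kb p), P.totalDegree ≤ D ∧
    (∃ g : SLI ι p, ev P (gm g.1) ≠ 0) ∧
    ∀ (B : Matrix ι ι (Kb p)) (Q : Matrix.GeneralLinearGroup ι (Kb p)) (μ : ι → Kb p) (i j : ι),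
      i ≠ j → Dg B Q μ → μ i ^ s = κ * μ j ^ s → ev P B = 0

/-- CTR: the trace is not constant. -/
def Stmt_CTR : Prop := ∀ (ι : Type) [Fintype ι] [DecidableEq ι], 2 ≤ Fintype.card ι →
  ∀ (p : ℕ) [Fact p.Prime] (t : Kb p), ∃ P : MvPolynomial (ι × ι) (Kb p), P.totalDegree ≤ 1 ∧
    (∃ g : SLI ι p, ev P (gm g.1) ≠ 0) ∧ ∀ B : Matrix ι ι (Kb p), B.trace = t → ev P B = 0

/-! ## Part T: maximal tori (centralisers of regular elements) -/

/-- TOR: the centraliser of a regular element. -/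
def Stmt_TOR : Prop := ∀ (ι : Type) [Fintype ι] [DecidableEq ι] (p : ℕ) [Fact p.Prime]
  (b x : SLI ι p) (Q : Matrix.GeneralLinearGroup ι (Kb p)) (μ : ι → Kb p),
  Dg (gm b.1) Q μ → (∀ i j, i ≠ j → μ i ≠ μ j) →
  (Commute b x ↔ ∃ ν : ι → Kb p, Dg (gm x.1) Q ν)

/-- TCO: commuting regular elements have the same centraliser. -/
def Stmt_TCO : Prop := ∀ (ι : Type) [Fintype ι] [DecidableEq ι] (p : ℕ) [Fact p.Prime]
  (b y : SLI ι p), RegM 1 (gm b.1) → RegM 1 (gm y.1) → Commute b y →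
  ∀ x, Commute b x ↔ Commute y x

/-- TCJ: few elements of a torus are conjugate to a given element. -/
def Stmt_TCJ : Prop := ∀ (ι : Type) [Fintype ι] [DecidableEq ι] (p : ℕ) [Fact p.Prime]
  (b y : SLI ι p), RegM 1 (gm b.1) →
  {y' : SLI ι p | Commute b y' ∧ ∃ h : SLI ι p, y' = h * y * h⁻¹}.ncard ≤
    (Fintype.card ι).factorial

/-- TSZ: size of a torus. -/
def Stmt_TSZ : Prop := ∀ (ι : Type) [Fintype ι] [DecidableEq ι] (p : ℕ) [Fact p.Prime]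
  (b : SLI ι p), 2 ≤ Fintype.card ι → RegM 1 (gm b.1) →
  {x : SLI ι p | Commute b x}.ncard ≤ 2 * Fintype.card ι * p ^ (Fintype.card ι - 1)

/-- FIB: fibres of the map sending g, y to g y g⁻¹, with g in A and y in Y, a subset of a torus. -/
def Stmt_FIB : Prop := ∀ (ι : Type) [Fintype ι] [DecidableEq ι] (p : ℕ) [Fact p.Prime]
  (b : SLI ι p) (A Y : Set (SLI ι p)), RegM 1 (gm b.1) → SymGen A →
  (∀ y ∈ Y, Commute b y ∧ RegM 1 (gm y.1)) →
  A.ncard * Y.ncard ≤ (Fintype.card ι).factorial * {x : SLI ι p | x ∈ A ^ 2 ∧ Commute b x}.ncard *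
    {z : SLI ι p | ∃ g ∈ A, ∃ y ∈ Y, z = g * y * g⁻¹}.ncard

/-- FIB2: few conjugates of a torus contain a given regular element. -/
def Stmt_FIB2 : Prop := ∀ (ι : Type) [Fintype ι] [DecidableEq ι] (p : ℕ) [Fact p.Prime]
  (b y : SLI ι p), RegM 1 (gm b.1) → RegM 1 (gm y.1) →
  {g : SLI ι p | Commute (g * b * g⁻¹) y}.ncard ≤
    (Fintype.card ι).factorial * {x : SLI ι p | Commute b x}.ncard

/-- SHF: multiplying by a power of an `m ^ 2`-regular element makes an element of the torus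
regular. -/
def Stmt_SHF : Prop := ∀ (ι : Type) [Fintype ι] [DecidableEq ι] (p : ℕ) [Fact p.Prime]
  (b x : SLI ι p), 2 ≤ Fintype.card ι → RegM (Fintype.card ι ^ 2) (gm b.1) → Commute b x →
  ∃ s, 1 ≤ s ∧ s ≤ Fintype.card ι ^ 2 ∧ RegM 1 (gm (b ^ s * x).1)

/-- RCJ: conjugates of regular elements are regular. -/
def Stmt_RCJ : Prop := ∀ (ι : Type) [Fintype ι] [DecidableEq ι] (p : ℕ) [Fact p.Prime]
  (M : ℕ) (b g : SLI ι p), RegM M (gm b.1) → RegM M (gm (g * b * g⁻¹).1)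

/-! ## Part A: approximate subgroups of `SL_m(F_p)` -/

/-- CLS: centralisers of short elements contain many short elements. -/
def Stmt_CLS : Prop := ∀ (ι : Type) [Fintype ι] [DecidableEq ι], 2 ≤ Fintype.card ι → ∀ k : ℕ,
  ∃ n0 e C : ℕ, ∀ (p : ℕ) [Fact p.Prime] (A : Set (SLI ι p)) (K : ℕ) (b : SLI ι p), 5 ≤ p →
    SymGen A → (A ^ n0).ncard ≤ K * A.ncard → b ∈ A ^ k →
    A.ncard ≤ C * K ^ C * {x : SLI ι p | x ∈ A ^ 2 ∧ Commute b x}.ncard ^ (e + 1)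

/-- TRF: transfer of regular elements of a torus to `A ^ 2`. -/
def Stmt_TRF : Prop := ∀ (ι : Type) [Fintype ι] [DecidableEq ι], 2 ≤ Fintype.card ι → ∀ k : ℕ,
  ∃ n0 C P0 : ℕ, ∀ (p : ℕ) [Fact p.Prime] (A : Set (SLI ι p)) (K : ℕ) (b : SLI ι p), P0 < p →
    SymGen A → (A ^ n0).ncard ≤ K * A.ncard → b ∈ A ^ k →
    RegM (Fintype.card ι ^ 2) (gm b.1) →
    A.ncard ≤ C * K ^ C ∨
      ∃ y : SLI ι p, y ∈ A ^ 2 ∧ Commute b y ∧ RegM (Fintype.card ι ^ 2) (gm y.1)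

/-- INV: all conjugates of some torus have regular elements in `A ^ 2`. -/
def Stmt_INV : Prop := ∀ (ι : Type) [Fintype ι] [DecidableEq ι], 2 ≤ Fintype.card ι →
  ∃ n0 C P0 : ℕ, ∀ (p : ℕ) [Fact p.Prime] (A : Set (SLI ι p)) (K : ℕ), P0 < p →
    SymGen A → (A ^ n0).ncard ≤ K * A.ncard →
    A.ncard ≤ C * K ^ C ∨
      ∃ b : SLI ι p, RegM (Fintype.card ι ^ 2) (gm b.1) ∧ ∀ g : SLI ι p, ∃ y : SLI ι p,
        y ∈ A ^ 2 ∧ Commute (g * b * g⁻¹) y ∧ RegM (Fintype.card ι ^ 2) (gm y.1)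

/-- BIGT: approximate subgroups are small or large. -/
def Stmt_BIGT : Prop := ∀ (ι : Type) [Fintype ι] [DecidableEq ι], 2 ≤ Fintype.card ι →
  ∃ n0 e C P0 : ℕ, ∀ (p : ℕ) [Fact p.Prime] (A : Set (SLI ι p)) (K : ℕ), P0 < p →
    SymGen A → (A ^ n0).ncard ≤ K * A.ncard →
    A.ncard ≤ C * K ^ C ∨
      Nat.card (SLI ι p) ^ (e + 1) ≤
        C * K ^ C * p ^ ((Fintype.card ι - 1) * (e + 1)) * A.ncard ^ e

/-! ## Part Q: quasirandomness -/

/-- right invariant space of functions -/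
def RInv {G : Type} [Group G] (W : Submodule ℂ (G → ℂ)) : Prop :=
  ∀ g : G, ∀ f ∈ W, (fun x => f (x * g)) ∈ W

/-- every nonzero right invariant space of functions without nonzero constants has dimension at
least half of D - 1 -/
def QR (G : Type) [Group G] (D : ℕ) : Prop := ∀ W : Submodule ℂ (G → ℂ), RInv W → W ≠ ⊥ →
  (∀ f ∈ W, (∀ x y, f x = f y) → f = 0) → D ≤ 2 * Module.finrank ℂ W + 1

/-- QRE: joint eigenvectors with nontrivial character of an elementary abelian group. -/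
def Stmt_QRE : Prop := ∀ (ι W : Type) [Fintype ι] [DecidableEq ι] [AddCommGroup W] [Module ℂ W]
  (p : ℕ) [Fact p.Prime] (u : (ι → ZMod p) → (W →ₗ[ℂ] W)), u 0 = LinearMap.id →
  (∀ r s, u (r + s) = u r ∘ₗ u s) → (∃ r, u r ≠ LinearMap.id) →
  ∃ (v : ι → ZMod p) (w : W), v ≠ 0 ∧ w ≠ 0 ∧ ∀ r, u r w = ZMod.stdAddChar (r ⬝ᵥ v) • w

/-- QRI: joint eigenvectors with distinct characters are linearly independent. -/
def Stmt_QRI : Prop := ∀ (ι W : Type) [Fintype ι] [DecidableEq ι] [AddCommGroup W] [Module ℂ W]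
  [FiniteDimensional ℂ W] (p : ℕ) [Fact p.Prime] (u : (ι → ZMod p) → (W →ₗ[ℂ] W))
  (S : Finset (ι → ZMod p)), (∀ v ∈ S, ∃ w : W, w ≠ 0 ∧
    ∀ r, u r w = ZMod.stdAddChar (r ⬝ᵥ v) • w) → S.card ≤ Module.finrank ℂ W

/-- the element `1 + e_i ⊗ r` of `SL`, `r i = 0` -/
def IsU {ι : Type} [Fintype ι] [DecidableEq ι] {p : ℕ} (i : ι) (r : ι → ZMod p)
    (g : SLI ι p) : Prop :=
  (g : Matrix ι ι (ZMod p)) = 1 + Matrix.vecMulVec (Pi.single i 1) r

/-- QRU: the stabiliser of a line acts on the characters of the group of transvections with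
that centre with few orbits: for every `v ≠ 0` (with `v i = 0`) there are at least
half of p ^ (m - 1) - 1 vectors `v'` (with `v' i = 0`) such that for some `g` and `c`,
conjugation by `g` maps `1 + e_i ⊗ r` to `1 + e_i ⊗ r'`, `r' ⬝ v' = r ⬝ v`. -/
def Stmt_QRU : Prop := ∀ (ι : Type) [Fintype ι] [DecidableEq ι] (p : ℕ) [Fact p.Prime]
  (i : ι) (v : ι → ZMod p), 2 ≤ Fintype.card ι → v i = 0 → v ≠ 0 →
  ∃ S : Finset (ι → ZMod p), p ^ (Fintype.card ι - 1) ≤ 2 * S.card + 1 ∧ ∀ v' ∈ S, v' i = 0 ∧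
    ∃ g : SLI ι p, ∀ (r' : ι → ZMod p) (x' : SLI ι p), r' i = 0 → IsU i r' x' →
      ∃ (r : ι → ZMod p), r i = 0 ∧ IsU i r (g⁻¹ * x' * g) ∧ r ⬝ᵥ v = r' ⬝ᵥ v'

/-- QRA: `SL_m(F_p)` is quasirandom. -/
def Stmt_QRA : Prop := ∀ (ι : Type) [Fintype ι] [DecidableEq ι] (p : ℕ) [Fact p.Prime],
  2 ≤ Fintype.card ι → 5 ≤ p → Fintype.card ι < p → QR (SLI ι p) (p ^ (Fintype.card ι - 1))

/-- QRB: product sets in quasirandom groups. -/
def Stmt_QRB : Prop := ∀ (G : Type) [Group G] [Finite G] (D : ℕ), QR G D → ∀ A X : Set G,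
  2 * (A * X).ncard ≤ Nat.card G → D * (A.ncard * X.ncard) ≤ 8 * (A * X).ncard * Nat.card G

/-! ## Part F: conclusion -/

/-- ORD: lower bound for the order. -/
def Stmt_ORD : Prop := ∀ (ι : Type) [Fintype ι] [DecidableEq ι], 2 ≤ Fintype.card ι →
  ∃ B : ℕ, ∀ (p : ℕ) [Fact p.Prime],
    p ^ ((Fintype.card ι - 1) * (Fintype.card ι + 1)) ≤ B * Nat.card (SLI ι p)

/-- PROD: product theorem. -/
def Stmt_PROD : Prop := ∀ (ι : Type) [Fintype ι] [DecidableEq ι], 2 ≤ Fintype.card ι →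
  ∃ n0 C P0 : ℕ, ∀ (p : ℕ) [Fact p.Prime] (A : Set (SLI ι p)) (K : ℕ), P0 < p →
    SymGen A → (A ^ n0).ncard ≤ K * A.ncard → A.ncard ≤ C * K ^ C ∨ A ^ 4 = Set.univ

/-- ITER: iteration of the product theorem. -/
def Stmt_ITER : Prop := ∀ n0 C : ℕ, ∃ c : ℕ, ∀ (G : Type) [Group G] [Finite G],
  3 ≤ Nat.card G →
  (∀ (A : Set G) (K : ℕ), SymGen A → (A ^ n0).ncard ≤ K * A.ncard →
    A.ncard ≤ C * K ^ C ∨ A ^ 4 = Set.univ) →
  ∀ A : Set G, SymGen A → ∃ L : ℕ, A ^ L = Set.univ ∧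
    (L : ℝ) ≤ Real.log (Nat.card G) ^ c

/-- FD: Babai's bound for `SL_m(F_p)`, `m` fixed. -/
def Stmt_FD : Prop := ∀ m : ℕ, ∃ c : ℕ, ∀ (p : ℕ) [Fact p.Prime] (B : Set (SLI (Fin m) p)),
  Subgroup.closure B = ⊤ → ∀ g : SLI (Fin m) p,
    ∃ L : ℕ, Pool.Agent.Work.MP_936a99_al_h7.Reach B L g ∧
      (L : ℝ) ≤ Real.log (Nat.card (SLI (Fin m) p)) ^ c

end Pool.Agent.Work.MP_936a99_pt
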