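import Pool.Agent.Work.MP_936a99_bb.All
import Pool.Agent.Work.MP_936a99_pt.Interface

/-!
# Assembly: the bounded rank theorem without hypotheses
-/

namespace Pool.Agent.Work.MP_936a99_pt

open Matrix Pool.Agent.Work.MP_936a99_al_h7 Pool.Agent.Work.MP_936a99_bb

theorem fixedDim_of (h : Stmt_FD) : FixedDim := h

theorem final_of (h : Stmt_FD) : ∀ r : ℕ, ∃ C : ℕ,
    ∀ (n p l : ℕ) [Fact p.Prime] (A : Set (SLn n (ZMod p))), Subgroup.closure A = ⊤ →
    ∀ w : SLn n (ZMod p), Reach A l w →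
    ∀ c : ZMod p, ((w : Matrix (Fin n) (Fin n) (ZMod p)) - c • 1).rank ≤ r →
    (∀ d : ZMod p, (w : Matrix (Fin n) (Fin n) (ZMod p)) ≠ d • 1) →
    ∀ g : SLn n (ZMod p), ∃ L : ℕ, Reach A L g ∧
      (L : ℝ) ≤ l * Real.log (Nat.card (SLn n (ZMod p))) ^ C :=
  log_form fin_thm (fixedDim_of h)

end Pool.Agent.Work.MP_936a99_pt
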