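import Pool.Agent.Work.MP_936a99_pt.Interface

/-! # CKAP (helper83): matrices with two eigenvalues of given ratio of powers -/

namespace Pool.Agent.Work.MP_936a99_pt

open Matrix

namespace CKAP

variable {ι : Type} [Fintype ι] [DecidableEq ι]

theorem trf_map {R S : Type} [CommRing R] [CommRing S] (φ : R →+* S) (s : ℕ)
    (B : Matrix ι ι R) : φ (trf s B) = trf s (B.map φ) := by
  unfold trf
  rw [RingHom.map_det]
  congr 1
  ext a b
  have h : (B.map φ) ^ (s * (a.val + b.val)) = (B ^ (s * (a.val + b.val))).map φ := by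
    have := map_pow φ.mapMatrix B (s * (a.val + b.val))
    simpa [RingHom.mapMatrix_apply] using this.symm
  simp only [RingHom.mapMatrix_apply, Matrix.map_apply, Matrix.of_apply]
  rw [h]
  simp [Matrix.trace, map_sum]

/-- the generic matrix -/
noncomputable def gen (R : Type) [CommRing R] : Matrix ι ι (MvPolynomial (ι × ι) R) :=
  Matrix.of fun i j => MvPolynomial.X (i, j)

omit [Fintype ι] [DecidableEq ι] in
theorem gen_map {R S : Type} [CommRing R] [CommRing S] (f : R →+* S) (B : Matrix ι ι S) :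
    (gen (ι := ι) R).map (MvPolynomial.eval₂Hom f (fun x : ι × ι => B x.1 x.2)) = B := by
  ext i j
  simp [gen]

omit [Fintype ι] [DecidableEq ι] in
theorem ev_map {R S : Type} [CommRing R] [CommRing S] (f : R →+* S)
    (P : MvPolynomial (ι × ι) R) (B : Matrix ι ι S) :
    ev (MvPolynomial.map f P) B =
      MvPolynomial.eval₂Hom f (fun x : ι × ι => B x.1 x.2) P := by
  unfold ev
  rw [MvPolynomial.eval_map]
  rfl

theorem ev_trf {R S : Type} [CommRing R] [CommRing S] (f : R →+* S) (s : ℕ)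
    (B : Matrix ι ι S) :
    ev (MvPolynomial.map f (trf s (gen (ι := ι) R))) B = trf s B := by
  rw [ev_map, trf_map, gen_map]

omit [Fintype ι] [DecidableEq ι] in
theorem td_map {R S : Type} [CommRing R] [CommRing S] (f : R →+* S)
    (P : MvPolynomial (ι × ι) R) : (MvPolynomial.map f P).totalDegree ≤ P.totalDegree := by
  unfold MvPolynomial.totalDegree
  exact Finset.sup_mono (MvPolynomial.support_map_subset _ _)

theorem wit_ne (hw : Stmt_TRFB) {p : ℕ} [Fact p.Prime] (M : ℕ) (μ : ι → ZMod p)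
    (hμ : ∀ i j, i ≠ j → ∀ s, 1 ≤ s → s ≤ M → μ i ^ s ≠ μ j ^ s) (s : ℕ) (h1 : 1 ≤ s)
    (h2 : s ≤ M) : trf s (gm (Matrix.diagonal μ)) ≠ 0 := by
  have hD : Dg (gm (Matrix.diagonal μ)) (1 : Matrix.GeneralLinearGroup ι (Kb p))
      (fun i => algebraMap (ZMod p) (Kb p) (μ i)) := by
    unfold Dg gm
    rw [Matrix.diagonal_map (map_zero _)]
    simp
  rw [hw ι (Kb p) s _ _ _ hD]
  intro i j hij h
  apply hμ i j hij s h1 h2
  have h' : algebraMap (ZMod p) (Kb p) (μ i ^ s) = algebraMap (ZMod p) (Kb p) (μ j ^ s) := by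
    rw [map_pow, map_pow]; exact h
  exact (algebraMap (ZMod p) (Kb p)).injective h'

end CKAP

namespace CKAP

variable {ι : Type} [Fintype ι] [DecidableEq ι]

/-- the matrix of `E ↦ B ^ s E - κ E B ^ s` -/
def comm {R : Type} [CommRing R] (κ : R) (s : ℕ) (B : Matrix ι ι R) :
    Matrix (ι × ι) (ι × ι) R :=
  Matrix.of fun x y => (B ^ s) x.1 y.1 * (if x.2 = y.2 then 1 else 0) -
    κ * ((if x.1 = y.1 then 1 else 0) * (B ^ s) y.2 x.2)

theorem comm_map {R S : Type} [CommRing R] [CommRing S] (φ : R →+* S) (κ : R) (s : ℕ)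
    (B : Matrix ι ι R) : φ (comm κ s B).det = (comm (φ κ) s (B.map φ)).det := by
  rw [RingHom.map_det]
  congr 1
  ext x y
  have h : (B.map φ) ^ s = (B ^ s).map φ := by
    have := map_pow φ.mapMatrix B s
    simpa [RingHom.mapMatrix_apply] using this.symm
  simp only [RingHom.mapMatrix_apply, Matrix.map_apply, comm, Matrix.of_apply, h, map_sub, map_mul]
  split_ifs <;> simp

theorem comm_mulVec {R : Type} [CommRing R] (κ : R) (s : ℕ) (B E : Matrix ι ι R) (x : ι × ι) :
    (comm κ s B).mulVec (fun y => E y.1 y.2) x =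
      (B ^ s * E - κ • (E * B ^ s)) x.1 x.2 := by
  simp only [Matrix.mulVec, dotProduct, comm, Matrix.of_apply, Fintype.sum_prod_type,
    Matrix.sub_apply, Matrix.smul_apply, Matrix.mul_apply, smul_eq_mul]
  simp only [sub_mul, Finset.sum_sub_distrib]
  congr 1
  · refine Finset.sum_congr rfl fun a _ => ?_
    rw [Finset.sum_eq_single x.2]
    · simp
    · intro b _ hb
      simp [Ne.symm hb]
    · simp
  · rw [Finset.sum_eq_single x.1]
    · rw [Finset.mul_sum]
      refine Finset.sum_congr rfl fun b _ => ?_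
      simp
      ring
    · intro a _ ha
      refine Finset.sum_eq_zero fun b _ => ?_
      simp [Ne.symm ha]
    · simp

theorem comm_one {R : Type} [CommRing R] (κ : R) (s : ℕ) :
    (comm κ s (1 : Matrix ι ι R)).det = (1 - κ) ^ (Fintype.card (ι × ι)) := by
  have : comm κ s (1 : Matrix ι ι R) = Matrix.diagonal (fun _ => 1 - κ) := by
    ext x y
    simp only [comm, Matrix.of_apply, one_pow, Matrix.one_apply, Matrix.diagonal_apply]
    by_cases h1 : x.1 = y.1 <;> by_cases h2 : x.2 = y.2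
    · have : x = y := Prod.ext h1 h2
      subst this
      simp
    · have : x ≠ y := fun h => h2 (by rw [h])
      simp [h1, h2, Ne.symm h2, this]
    · have : x ≠ y := fun h => h1 (by rw [h])
      simp [h1, h2, this]
    · have : x ≠ y := fun h => h1 (by rw [h])
      simp [h1, h2, this]
  rw [this, Matrix.det_diagonal]
  simp

theorem comm_zero {F : Type} [Field F] (κ : F) (s : ℕ) (B : Matrix ι ι F)
    (Q : Matrix.GeneralLinearGroup ι F) (μ : ι → F) (hD : Dg B Q μ) (i j : ι)
    (h : μ i ^ s = κ * μ j ^ s) : (comm κ s B).det = 0 := by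
  have hQ : ((Q⁻¹ : Matrix.GeneralLinearGroup ι F) : Matrix ι ι F) * (Q : Matrix ι ι F) = 1 := by
    rw [← Units.val_mul, inv_mul_cancel, Units.val_one]
  have hQ' : (Q : Matrix ι ι F) * ((Q⁻¹ : Matrix.GeneralLinearGroup ι F) : Matrix ι ι F) = 1 := by
    rw [← Units.val_mul, mul_inv_cancel, Units.val_one]
  have hB : ∀ t : ℕ, B ^ t = (Q : Matrix ι ι F) * Matrix.diagonal (fun a => μ a ^ t) *
      ((Q⁻¹ : Matrix.GeneralLinearGroup ι F) : Matrix ι ι F) := by
    intro t
    rw [hD]
    induction t with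
    | zero => simp
    | succ n ih =>
      rw [pow_succ, ih]
      have e : Matrix.diagonal (fun a => μ a ^ (n + 1)) =
          Matrix.diagonal (fun a => μ a ^ n) * Matrix.diagonal μ := by
        rw [Matrix.diagonal_mul_diagonal]
        simp [pow_succ]
      rw [e]
      calc _ = (Q : Matrix ι ι F) * Matrix.diagonal (fun a => μ a ^ n) *
          (((Q⁻¹ : Matrix.GeneralLinearGroup ι F) : Matrix ι ι F) * (Q : Matrix ι ι F)) *
          Matrix.diagonal μ * ((Q⁻¹ : Matrix.GeneralLinearGroup ι F) : Matrix ι ι F) := by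
            simp only [Matrix.mul_assoc]
        _ = _ := by rw [hQ]; simp only [Matrix.mul_assoc, Matrix.mul_one]
  set E : Matrix ι ι F := (Q : Matrix ι ι F) * Matrix.single i j 1 *
    ((Q⁻¹ : Matrix.GeneralLinearGroup ι F) : Matrix ι ι F) with hE
  have hE0 : E ≠ 0 := by
    intro h0
    have h1 : ((Q⁻¹ : Matrix.GeneralLinearGroup ι F) : Matrix ι ι F) * E * (Q : Matrix ι ι F) =
        Matrix.single i j 1 := by
      rw [hE]
      calc _ = (((Q⁻¹ : Matrix.GeneralLinearGroup ι F) : Matrix ι ι F) * (Q : Matrix ι ι F)) *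
          Matrix.single i j 1 * (((Q⁻¹ : Matrix.GeneralLinearGroup ι F) : Matrix ι ι F) *
          (Q : Matrix ι ι F)) := by simp only [Matrix.mul_assoc]
        _ = _ := by rw [hQ, Matrix.one_mul, Matrix.mul_one]
    rw [h0] at h1
    have h2 := congrFun (congrFun h1 i) j
    simp at h2
  have hker : B ^ s * E - κ • (E * B ^ s) = 0 := by
    rw [hB s, hE]
    have e1 : (Q : Matrix ι ι F) * Matrix.diagonal (fun a => μ a ^ s) *
        ((Q⁻¹ : Matrix.GeneralLinearGroup ι F) : Matrix ι ι F) *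
        ((Q : Matrix ι ι F) * Matrix.single i j 1 *
          ((Q⁻¹ : Matrix.GeneralLinearGroup ι F) : Matrix ι ι F)) =
        (Q : Matrix ι ι F) * (Matrix.diagonal (fun a => μ a ^ s) * Matrix.single i j 1) *
          ((Q⁻¹ : Matrix.GeneralLinearGroup ι F) : Matrix ι ι F) := by
      calc _ = (Q : Matrix ι ι F) * Matrix.diagonal (fun a => μ a ^ s) *
        (((Q⁻¹ : Matrix.GeneralLinearGroup ι F) : Matrix ι ι F) * (Q : Matrix ι ι F)) *
          Matrix.single i j 1 * ((Q⁻¹ : Matrix.GeneralLinearGroup ι F) : Matrix ι ι F) := by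
            simp only [Matrix.mul_assoc]
        _ = _ := by rw [hQ]; simp only [Matrix.mul_assoc, Matrix.one_mul]
    have e2 : (Q : Matrix ι ι F) * Matrix.single i j 1 *
          ((Q⁻¹ : Matrix.GeneralLinearGroup ι F) : Matrix ι ι F) *
        ((Q : Matrix ι ι F) * Matrix.diagonal (fun a => μ a ^ s) *
        ((Q⁻¹ : Matrix.GeneralLinearGroup ι F) : Matrix ι ι F)) =
        (Q : Matrix ι ι F) * (Matrix.single i j 1 * Matrix.diagonal (fun a => μ a ^ s)) *
          ((Q⁻¹ : Matrix.GeneralLinearGroup ι F) : Matrix ι ι F) := by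
      calc _ = (Q : Matrix ι ι F) * Matrix.single i j 1 *
        (((Q⁻¹ : Matrix.GeneralLinearGroup ι F) : Matrix ι ι F) * (Q : Matrix ι ι F)) *
          Matrix.diagonal (fun a => μ a ^ s) *
          ((Q⁻¹ : Matrix.GeneralLinearGroup ι F) : Matrix ι ι F) := by
            simp only [Matrix.mul_assoc]
        _ = _ := by rw [hQ]; simp only [Matrix.mul_assoc, Matrix.one_mul]
    rw [e1, e2]
    have e3 : Matrix.diagonal (fun a => μ a ^ s) * Matrix.single i j (1 : F) =
        κ • (Matrix.single i j 1 * Matrix.diagonal (fun a => μ a ^ s)) := by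
      ext a b
      simp only [Matrix.diagonal_mul, Matrix.smul_apply, Matrix.mul_diagonal, smul_eq_mul,
        Matrix.single_apply]
      split_ifs with hab
      · obtain ⟨rfl, rfl⟩ := hab
        rw [mul_one, one_mul, h]
      · simp
    rw [e3]
    simp
  rw [← Matrix.exists_mulVec_eq_zero_iff]
  refine ⟨fun y => E y.1 y.2, ?_, ?_⟩
  · intro h0
    apply hE0
    ext a b
    exact congrFun h0 (a, b)
  · ext x
    rw [comm_mulVec, hker]
    simp

end CKAP

theorem ckap (hw : Stmt_WIT) (hb : Stmt_TRFB) : Stmt_CKAP := by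
  intro ι _ _ M
  obtain ⟨P0, hP0⟩ := hw ι M
  refine ⟨∑ s ∈ Finset.range (M + 1), ((trf s (CKAP.gen (ι := ι) ℤ)).totalDegree +
    (CKAP.comm (MvPolynomial.C Polynomial.X) s
      (CKAP.gen (ι := ι) (Polynomial ℤ))).det.totalDegree), P0, ?_⟩
  intro p _ hp κ s h1 h2
  have hle := Finset.single_le_sum (s := Finset.range (M + 1))
    (f := fun s => (trf s (CKAP.gen (ι := ι) ℤ)).totalDegree +
      (CKAP.comm (MvPolynomial.C Polynomial.X) s
        (CKAP.gen (ι := ι) (Polynomial ℤ))).det.totalDegree) (fun i _ => Nat.zero_le _)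
    (Finset.mem_range.mpr (Nat.lt_succ_of_le h2))
  by_cases hκ : κ = 1
  · obtain ⟨μ, hμ1, hμ2⟩ := hP0 p hp
    refine ⟨MvPolynomial.map (Int.castRingHom (Kb p)) (trf s (CKAP.gen (ι := ι) ℤ)),
      (CKAP.td_map _ _).trans ((Nat.le_add_right _ _).trans hle), ?_, ?_⟩
    · refine ⟨⟨Matrix.diagonal μ, by rw [Matrix.det_diagonal]; exact hμ1⟩, ?_⟩
      rw [CKAP.ev_trf]
      exact CKAP.wit_ne hb M μ hμ2 s h1 h2
    · intro B Q ν i j hij hD h
      rw [CKAP.ev_trf]
      by_contra hne
      rw [← ne_eq, hb ι (Kb p) s B Q ν hD] at hne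
      exact hne i j hij (by rw [h, hκ, one_mul])
  · have hev : ∀ B : Matrix ι ι (Kb p),
        ev (MvPolynomial.map (Polynomial.eval₂RingHom (Int.castRingHom (Kb p)) κ)
          (CKAP.comm (MvPolynomial.C Polynomial.X) s
            (CKAP.gen (ι := ι) (Polynomial ℤ))).det) B = (CKAP.comm κ s B).det := by
      intro B
      rw [CKAP.ev_map, CKAP.comm_map, CKAP.gen_map]
      congr 2
      simp
    refine ⟨MvPolynomial.map (Polynomial.eval₂RingHom (Int.castRingHom (Kb p)) κ)
      (CKAP.comm (MvPolynomial.C Polynomial.X) s (CKAP.gen (ι := ι) (Polynomial ℤ))).det,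
      (CKAP.td_map _ _).trans ((Nat.le_add_left _ _).trans hle), ?_, ?_⟩
    · refine ⟨1, ?_⟩
      rw [hev]
      have : gm (1 : SLI ι p).1 = 1 := by
        unfold gm
        rw [Matrix.SpecialLinearGroup.coe_one]
        exact Matrix.map_one _ (map_zero _) (map_one _)
      rw [this, CKAP.comm_one]
      exact pow_ne_zero _ (sub_ne_zero.mpr (Ne.symm hκ))
    · intro B Q ν i j hij hD h
      rw [hev]
      exact CKAP.comm_zero κ s B Q ν hD i j h

end Pool.Agent.Work.MP_936a99_pt
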