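import Pool.Agent.Work.MP_936a99_pt.Interface

/-!
# Block INV: all conjugates of some torus have regular elements in `A ^ 2`
-/

namespace Pool.Agent.Work.MP_936a99_pt

open Matrix Pointwise

namespace INV

/-- monotonicity of the powers of a set containing `1` -/
theorem pow_sub {G : Type} [Group G] {A : Set G} (hA : SymGen A) {i j : ℕ} (h : i ≤ j) :
    A ^ i ⊆ A ^ j :=
  Set.pow_subset_pow_right hA.one h

/-- `M`-regular implies `1`-regular -/
theorem reg_one {ι F : Type} [Fintype ι] [DecidableEq ι] [Field F] {M : ℕ} (hM : 1 ≤ M)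
    {B : Matrix ι ι F} (h : RegM M B) : RegM 1 B := by
  obtain ⟨Q, μ, hD, hr⟩ := h
  exact ⟨Q, μ, hD, fun i j hij s h1 h2 => hr i j hij s h1 (h2.trans hM)⟩

end INV

theorem inv (h1 : Stmt_WLS) (h2 : Stmt_CREG) (h3 : Stmt_TRF) (h4 : Stmt_TCO) (h5 : Stmt_RCJ) :
    Stmt_INV := by
  intro ι _ _ hm
  obtain ⟨D, P1, hC⟩ := h2 ι (Fintype.card ι ^ 2)
  obtain ⟨n1, e1, C1, hW⟩ := h1 ι D 1
  obtain ⟨n2, C2, P2, hT⟩ := h3 ι hm 4
  have hM1 : 1 ≤ Fintype.card ι ^ 2 := Nat.one_le_pow _ _ (by omega)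
  refine ⟨max n1 n2, C1 + C2, P1 + P2 + 5, ?_⟩
  intro p _ A K hp hA hK
  have : NeZero p := ⟨(Fact.out : p.Prime).ne_zero⟩
  have : Finite (SLI ι p) := inferInstance
  have hAne : A.Nonempty := ⟨1, hA.one⟩
  have hApos : 0 < A.ncard := (Set.ncard_pos (Set.toFinite A)).2 hAne
  have hnpos : 0 < (A ^ (max n1 n2)).ncard :=
    (Set.ncard_pos (Set.toFinite _)).2 (hAne.pow)
  have hKpos : 0 < K := by
    rcases Nat.eq_zero_or_pos K with h | h
    · subst h; rw [Nat.zero_mul] at hK; omega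
    · exact h
  have hmono : ∀ n, n ≤ max n1 n2 → (A ^ n).ncard ≤ K * A.ncard := fun n hn =>
    (Set.ncard_le_ncard (INV.pow_sub hA hn) (Set.toFinite _)).trans hK
  obtain ⟨P, hPD, hPg, hPr⟩ := hC p (by omega)
  have hCK : ∀ {C' : ℕ}, C' ≤ C1 + C2 → A.ncard ≤ C' * K ^ C' →
      A.ncard ≤ (C1 + C2) * K ^ (C1 + C2) := fun {C'} h h' =>
    h'.trans (Nat.mul_le_mul h (Nat.pow_le_pow_right hKpos h))
  by_cases hex : ∃ b ∈ A, ev P (gm b.1) ≠ 0
  · obtain ⟨b, hbA, hb⟩ := hex
    have hbR : RegM (Fintype.card ι ^ 2) (gm b.1) := hPr _ hb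
    by_cases hsm : A.ncard ≤ C2 * K ^ C2
    · exact Or.inl (hCK (by omega) hsm)
    · right
      refine ⟨b, hbR, ?_⟩
      intro g
      have hg : g ∈ Subgroup.closure A := by rw [hA.gen]; trivial
      have hT' : ∀ b' : SLI ι p, b' ∈ A ^ 4 → RegM (Fintype.card ι ^ 2) (gm b'.1) →
          ∃ y : SLI ι p, y ∈ A ^ 2 ∧ Commute b' y ∧ RegM (Fintype.card ι ^ 2) (gm y.1) := by
        intro b' hb' hr
        rcases hT p A K b' (by omega) hA (hmono n2 (le_max_right _ _)) hb' hr with h | h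
        · exact absurd h hsm
        · exact h
      have hstep : ∀ a ∈ A, ∀ g : SLI ι p,
          (∃ y : SLI ι p, y ∈ A ^ 2 ∧ Commute (g * b * g⁻¹) y ∧
            RegM (Fintype.card ι ^ 2) (gm y.1)) →
          ∃ y : SLI ι p, y ∈ A ^ 2 ∧ Commute ((a * g) * b * (a * g)⁻¹) y ∧
            RegM (Fintype.card ι ^ 2) (gm y.1) := by
        rintro a ha g ⟨y, hy2, hyc, hyr⟩
        have h4mem : a * y * a⁻¹ ∈ A ^ 4 := by
          have e : A ^ 4 = A * A ^ 2 * A := by
            rw [show (4 : ℕ) = 1 + 2 + 1 from rfl, pow_add, pow_add, pow_one]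
          rw [e]
          exact Set.mul_mem_mul (Set.mul_mem_mul ha hy2) (hA.inv a ha)
        have hyr1 : RegM (Fintype.card ι ^ 2) (gm (a * y * a⁻¹).1) :=
          h5 ι p _ y a hyr
        obtain ⟨y', hy'2, hy'c, hy'r⟩ := hT' _ h4mem hyr1
        refine ⟨y', hy'2, ?_, hy'r⟩
        have hconj : (a * g) * b * (a * g)⁻¹ = a * (g * b * g⁻¹) * a⁻¹ := by group
        rw [hconj]
        have hcom : Commute (a * y * a⁻¹) (a * (g * b * g⁻¹) * a⁻¹) :=
          (hyc.symm).map (MulAut.conj a).toMonoidHom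
        have hbr : RegM (Fintype.card ι ^ 2) (gm (a * (g * b * g⁻¹) * a⁻¹).1) :=
          h5 ι p _ _ a (h5 ι p _ b g hbR)
        exact (h4 ι p _ _ (INV.reg_one hM1 hyr1) (INV.reg_one hM1 hbr) hcom y').1 hy'c
      induction hg using Subgroup.closure_induction_left with
      | one =>
        refine ⟨b, ?_, ?_, hbR⟩
        · have : A ⊆ A ^ 2 := by
            have := INV.pow_sub hA (show 1 ≤ 2 by norm_num)
            rwa [pow_one] at this
          exact this hbA
        · rw [one_mul, inv_one, mul_one]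
      | mul_left a ha g hg ih => exact hstep a ha g ih
      | inv_mul_cancel a ha g hg ih => exact hstep a⁻¹ (hA.inv a ha) g ih
  · left
    push Not at hex
    have hset : {x : SLI ι p | x ∈ A ^ 1 ∧ ev P (gm x.1) = 0} = A := by
      ext x
      constructor
      · rintro ⟨hx, -⟩
        rwa [pow_one] at hx
      · intro hx
        exact ⟨by rwa [pow_one], hex x hx⟩
    have h := hW p P A K (by omega) hPD hPg hA (hmono n1 (le_max_left _ _))
    rw [hset, pow_succ] at h
    have hpe : 0 < A.ncard ^ e1 := Nat.pow_pos hApos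
    have h' : A.ncard ≤ C1 * K ^ C1 := by
      have : A.ncard * A.ncard ^ e1 ≤ (C1 * K ^ C1) * A.ncard ^ e1 := by
        calc A.ncard * A.ncard ^ e1 = A.ncard ^ e1 * A.ncard := Nat.mul_comm _ _
          _ ≤ _ := h
      exact Nat.le_of_mul_le_mul_right this hpe
    exact hCK (by omega) h'

end Pool.Agent.Work.MP_936a99_pt
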